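import Mathlib

open Set Filter Topology ContDiff

namespace Pool.Agent.H14.Lyap

noncomputable section

/-- smooth 1-periodic bump supported in `(0,1/8) + ℤ` -/
def bump (ww : ℝ) : ℝ :=
  expNegInvGlue (Real.cos (2 * Real.pi * (ww - 1 / 16)) - Real.cos (Real.pi / 8))

lemma bump_contDiff : ContDiff ℝ ∞ bump := by
  unfold bump
  apply expNegInvGlue.contDiff.comp
  fun_prop

lemma bump_nonneg (ww : ℝ) : 0 ≤ bump ww := expNegInvGlue.nonneg _

lemma bump_le_one (ww : ℝ) : bump ww ≤ 1 := by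
  unfold bump expNegInvGlue
  split_ifs with h
  · norm_num
  · rw [Real.exp_le_one_iff]
    push Not at h
    have := inv_pos.mpr h
    linarith

lemma bump_add_int (ww : ℝ) (k : ℤ) : bump (ww + k) = bump ww := by
  unfold bump
  have : 2 * Real.pi * (ww + k - 1 / 16) = 2 * Real.pi * (ww - 1 / 16) + k * (2 * Real.pi) := by ring
  rw [this, Real.cos_add_int_mul_two_pi]

lemma bump_zero_of_mem {ww : ℝ} (h1 : 1 / 8 ≤ ww) (h2 : ww ≤ 1) : bump ww = 0 := by
  unfold bump
  apply expNegInvGlue.zero_of_nonpos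
  have hpi := Real.pi_pos
  rcases le_total ww (9 / 16) with h | h
  · have : Real.cos (2 * Real.pi * (ww - 1 / 16)) ≤ Real.cos (Real.pi / 8) := by
      apply Real.cos_le_cos_of_nonneg_of_le_pi
      · positivity
      · nlinarith
      · nlinarith
    linarith
  · have e : Real.cos (2 * Real.pi * (ww - 1 / 16)) = Real.cos (2 * Real.pi - 2 * Real.pi * (ww - 1 / 16)) := by
      rw [Real.cos_two_pi_sub]
    have : Real.cos (2 * Real.pi - 2 * Real.pi * (ww - 1 / 16)) ≤ Real.cos (Real.pi / 8) := by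
      apply Real.cos_le_cos_of_nonneg_of_le_pi
      · positivity
      · nlinarith
      · nlinarith
    linarith

lemma bump_zero_of_mem' {ww : ℝ} (k : ℤ) (h1 : 1 / 8 + k ≤ ww) (h2 : ww ≤ 1 + k) : bump ww = 0 := by
  have : bump ww = bump (ww - k) := by
    rw [← bump_add_int (ww - k) k]; congr 1; ring
  rw [this]
  apply bump_zero_of_mem <;> linarith

lemma exists_bump_lower : ∃ b : ℝ, 0 < b ∧ ∀ ww ∈ Icc (1 / 32 : ℝ) (3 / 32), b ≤ bump ww := by
  have hne : (Icc (1 / 32 : ℝ) (3 / 32)).Nonempty := ⟨1 / 32, by norm_num, by norm_num⟩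
  obtain ⟨x, hx, hmin⟩ := isCompact_Icc.exists_isMinOn hne bump_contDiff.continuous.continuousOn
  refine ⟨bump x, ?_, fun ww hww => hmin hww⟩
  unfold bump
  apply expNegInvGlue.pos_of_pos
  have hpi := Real.pi_pos
  rw [sub_pos, ← Real.cos_abs (2 * Real.pi * (x - 1 / 16))]
  have habs : |2 * Real.pi * (x - 1 / 16)| ≤ Real.pi / 16 := by
    rw [abs_mul, abs_of_pos (by positivity : 0 < 2 * Real.pi)]
    have : |x - 1 / 16| ≤ 1 / 32 := by
      rw [abs_le]; constructor <;> linarith [hx.1, hx.2]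
    nlinarith
  apply Real.cos_lt_cos_of_nonneg_of_le_pi (abs_nonneg _)
  · linarith
  · linarith

/-- total rotation number at level `n` -/
def TT (n : ℕ) : ℝ := ∑ j ∈ Finset.range n, bump (j / (8 * n : ℝ))

lemma TT_nonneg (n : ℕ) : 0 ≤ TT n := Finset.sum_nonneg fun _ _ => bump_nonneg _

/-- partial sums of a shifted bump -/
lemma bump_sum_low {n k i : ℕ} (hn : 0 < n) (hk : k ≤ 7) (hi : i ≤ k * n) :
    ∑ j ∈ Finset.range i, bump (j / (8 * n : ℝ) - k / 8) = 0 := by
  apply Finset.sum_eq_zero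
  intro j hj
  rw [Finset.mem_range] at hj
  have hn' : (0:ℝ) < n := by exact_mod_cast hn
  have h1 : (j:ℝ) ≤ k * n := by exact_mod_cast (hj.le.trans hi)
  have h0 : (0:ℝ) ≤ j := Nat.cast_nonneg j
  have hk' : (k:ℝ) ≤ 7 := by exact_mod_cast hk
  have e1 : (j:ℝ) / (8 * n) ≤ k / 8 := by
    rw [div_le_div_iff₀ (by positivity) (by norm_num)]; nlinarith
  have e2 : 0 ≤ (j:ℝ) / (8 * n) := by positivity
  apply bump_zero_of_mem' (-1)
  · push_cast; linarith
  · push_cast; linarith

lemma bump_zero_high {n k j : ℕ} (hn : 0 < n) (hj : (k + 1) * n ≤ j) (hj2 : j ≤ 8 * n) :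
    bump (j / (8 * n : ℝ) - k / 8) = 0 := by
  have hn' : (0:ℝ) < n := by exact_mod_cast hn
  have h1 : ((k:ℝ) + 1) * n ≤ j := by exact_mod_cast hj
  have h2 : (j:ℝ) ≤ 8 * n := by exact_mod_cast hj2
  have e1 : ((k:ℝ) + 1) / 8 ≤ j / (8 * n) := by
    rw [div_le_div_iff₀ (by norm_num) (by positivity)]; nlinarith
  have e2 : (j:ℝ) / (8 * n) ≤ 1 := by
    rw [div_le_one (by positivity)]; exact h2
  have hk0 : (0:ℝ) ≤ k := Nat.cast_nonneg k
  apply bump_zero_of_mem
  · linarith
  · linarith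

lemma bump_zero_low {n k j : ℕ} (hn : 0 < n) (hk : k ≤ 7) (hj : j ≤ k * n) :
    bump (j / (8 * n : ℝ) - k / 8) = 0 := by
  have hn' : (0:ℝ) < n := by exact_mod_cast hn
  have h1 : (j:ℝ) ≤ k * n := by exact_mod_cast hj
  have h0 : (0:ℝ) ≤ j := Nat.cast_nonneg j
  have hk' : (k:ℝ) ≤ 7 := by exact_mod_cast hk
  have e1 : (j:ℝ) / (8 * n) ≤ k / 8 := by
    rw [div_le_div_iff₀ (by positivity) (by norm_num)]; nlinarith
  have e2 : 0 ≤ (j:ℝ) / (8 * n) := by positivity
  apply bump_zero_of_mem' (-1)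
  · push_cast; linarith
  · push_cast; linarith

lemma bump_sum_high {n k i : ℕ} (hn : 0 < n) (hk : k ≤ 7) (hi : (k + 1) * n ≤ i)
    (hi2 : i ≤ 8 * n) :
    ∑ j ∈ Finset.range i, bump (j / (8 * n : ℝ) - k / 8) = TT n := by
  have hn' : (0:ℝ) < n := by exact_mod_cast hn
  obtain ⟨r, rfl⟩ := Nat.exists_eq_add_of_le hi
  rw [show (k + 1) * n + r = k * n + n + r by ring, Finset.sum_range_add, Finset.sum_range_add,
    bump_sum_low hn hk le_rfl]
  have h2 : ∑ x ∈ Finset.range r, bump (((k * n + n + x : ℕ) : ℝ) / (8 * n : ℝ) - k / 8) = 0 := by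
    apply Finset.sum_eq_zero
    intro x hx
    rw [Finset.mem_range] at hx
    apply bump_zero_high hn
    · nlinarith
    · nlinarith
  rw [h2, add_zero, zero_add]
  unfold TT
  apply Finset.sum_congr rfl
  intro j _
  congr 1
  push_cast
  field_simp
  ring

lemma TT_lower {b : ℝ} (hb : 0 ≤ b) (h : ∀ ww ∈ Icc (1 / 32 : ℝ) (3 / 32), b ≤ bump ww) {m : ℕ}
    (hm : 0 < m) : m * b ≤ TT (4 * m) := by
  have hm' : (0:ℝ) < m := by exact_mod_cast hm
  unfold TT
  have hsub : Finset.Ico m (2 * m) ⊆ Finset.range (4 * m) := by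
    intro j hj
    rw [Finset.mem_Ico] at hj
    rw [Finset.mem_range]; omega
  calc (m:ℝ) * b = ∑ _j ∈ Finset.Ico m (2 * m), b := by
        rw [Finset.sum_const, Nat.card_Ico, nsmul_eq_mul]
        congr 1
        rw [show 2 * m - m = m by omega]
    _ ≤ ∑ j ∈ Finset.Ico m (2 * m), bump (j / (8 * ((4 * m : ℕ) : ℝ))) := by
        apply Finset.sum_le_sum
        intro j hj
        rw [Finset.mem_Ico] at hj
        apply h
        have h1 : (m:ℝ) ≤ j := by exact_mod_cast hj.1
        have h2 : (j:ℝ) ≤ 2 * m := by exact_mod_cast hj.2.le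
        push_cast
        constructor
        · rw [div_le_div_iff₀ (by norm_num) (by positivity)]; linarith
        · rw [div_le_div_iff₀ (by positivity) (by norm_num)]; linarith
    _ ≤ _ := by
        apply Finset.sum_le_sum_of_subset_of_nonneg hsub
        intro j _ _
        exact bump_nonneg _

def tau (ww : ℝ) : ℝ := bump ww - bump (ww - 2 / 8) + bump (ww - 4 / 8) - bump (ww - 6 / 8)
def chi (ww : ℝ) : ℝ := bump (ww - 1 / 8) - bump (ww - 5 / 8)
def bet (ww : ℝ) : ℝ := bump (ww - 3 / 8)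
def gam (ww : ℝ) : ℝ := bump (ww - 7 / 8)

lemma tau_contDiff : ContDiff ℝ ∞ tau := by
  unfold tau
  have h := bump_contDiff
  have hs : ∀ c : ℝ, ContDiff ℝ ∞ (fun ww : ℝ => bump (ww - c)) := fun c =>
    h.comp (contDiff_id.sub contDiff_const)
  exact ((h.sub (hs _)).add (hs _)).sub (hs _)

lemma chi_contDiff : ContDiff ℝ ∞ chi := by
  unfold chi
  have h := bump_contDiff
  have hs : ∀ c : ℝ, ContDiff ℝ ∞ (fun ww : ℝ => bump (ww - c)) := fun c =>
    h.comp (contDiff_id.sub contDiff_const)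
  exact (hs _).sub (hs _)

lemma bet_contDiff : ContDiff ℝ ∞ bet :=
  bump_contDiff.comp (contDiff_id.sub contDiff_const)

lemma gam_contDiff : ContDiff ℝ ∞ gam :=
  bump_contDiff.comp (contDiff_id.sub contDiff_const)

lemma bump_sub_int (c ww : ℝ) (k : ℤ) : bump (ww + k - c) = bump (ww - c) := by
  rw [← bump_add_int (ww - c) k]; congr 1; ring

lemma tau_add_int (ww : ℝ) (k : ℤ) : tau (ww + k) = tau ww := by
  unfold tau; simp only [bump_sub_int, bump_add_int]

lemma chi_add_int (ww : ℝ) (k : ℤ) : chi (ww + k) = chi ww := by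
  unfold chi; simp only [bump_sub_int]

lemma bet_add_int (ww : ℝ) (k : ℤ) : bet (ww + k) = bet ww := by
  unfold bet; simp only [bump_sub_int]

lemma gam_add_int (ww : ℝ) (k : ℤ) : gam (ww + k) = gam ww := by
  unfold gam; simp only [bump_sub_int]

/-- the level of the hyperbolic flow after `i` steps -/
def SS (n i : ℕ) : ℝ := -TT n + ∑ j ∈ Finset.range i, tau (j / (8 * n : ℝ))

/-- the accumulated rotation after `i` steps -/
def XX (n i : ℕ) : ℝ := ∑ j ∈ Finset.range i, chi (j / (8 * n : ℝ))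

lemma SS_succ (n i : ℕ) : SS n (i + 1) = SS n i + tau (i / (8 * n : ℝ)) := by
  unfold SS; rw [Finset.sum_range_succ]; ring

lemma XX_succ (n i : ℕ) : XX n (i + 1) = XX n i + chi (i / (8 * n : ℝ)) := by
  unfold XX; rw [Finset.sum_range_succ]

lemma SS_expand (n i : ℕ) : SS n i = -TT n +
    (∑ j ∈ Finset.range i, bump (j / (8 * n : ℝ) - (0:ℕ) / 8)
    - ∑ j ∈ Finset.range i, bump (j / (8 * n : ℝ) - (2:ℕ) / 8)
    + ∑ j ∈ Finset.range i, bump (j / (8 * n : ℝ) - (4:ℕ) / 8)
    - ∑ j ∈ Finset.range i, bump (j / (8 * n : ℝ) - (6:ℕ) / 8)) := by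
  unfold SS tau
  simp only [Finset.sum_sub_distrib, Finset.sum_add_distrib]
  norm_num

lemma XX_expand (n i : ℕ) : XX n i =
    ∑ j ∈ Finset.range i, bump (j / (8 * n : ℝ) - (1:ℕ) / 8)
    - ∑ j ∈ Finset.range i, bump (j / (8 * n : ℝ) - (5:ℕ) / 8) := by
  unfold XX chi
  simp only [Finset.sum_sub_distrib]
  norm_num

variable {n i : ℕ}

lemma SS_zero : SS n 0 = -TT n := by simp [SS]
lemma XX_zero : XX n 0 = 0 := by simp [XX]

lemma SS_full (hn : 0 < n) : SS n (8 * n) = -TT n := by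
  rw [SS_expand, bump_sum_high hn (by norm_num) (by omega) le_rfl,
    bump_sum_high hn (by norm_num) (by omega) le_rfl,
    bump_sum_high hn (by norm_num) (by omega) le_rfl,
    bump_sum_high hn (by norm_num) (by omega) le_rfl]
  ring

lemma XX_full (hn : 0 < n) : XX n (8 * n) = 0 := by
  rw [XX_expand, bump_sum_high hn (by norm_num) (by omega) le_rfl,
    bump_sum_high hn (by norm_num) (by omega) le_rfl]
  ring

/-- on the support of `chi` the level is `0` -/
lemma SS_of_chi (hn : 0 < n) (hi : i < 8 * n) (h : chi (i / (8 * n : ℝ)) ≠ 0) : SS n i = 0 := by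
  have h2 : (1 * n < i ∧ i < 2 * n) ∨ (5 * n < i ∧ i < 6 * n) := by
    by_contra hcon
    push Not at hcon
    apply h
    unfold chi
    have e1 : bump (i / (8 * n : ℝ) - 1 / 8) = 0 := by
      rcases le_or_gt i (1 * n) with h1 | h1
      · exact_mod_cast bump_zero_low (k := 1) hn (by norm_num) h1
      · exact_mod_cast bump_zero_high (k := 1) hn (by have := hcon.1 h1; omega) hi.le
    have e2 : bump (i / (8 * n : ℝ) - 5 / 8) = 0 := by
      rcases le_or_gt i (5 * n) with h1 | h1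
      · exact_mod_cast bump_zero_low (k := 5) hn (by norm_num) h1
      · exact_mod_cast bump_zero_high (k := 5) hn (by have := hcon.2 h1; omega) hi.le
    rw [e1, e2, sub_zero]
  rw [SS_expand]
  rcases h2 with ⟨h1, h2⟩ | ⟨h1, h2⟩
  · rw [bump_sum_high hn (by norm_num) (by omega) hi.le,
      bump_sum_low hn (by norm_num) (by omega), bump_sum_low hn (by norm_num) (by omega),
      bump_sum_low hn (by norm_num) (by omega)]
    ring
  · rw [bump_sum_high hn (by norm_num) (by omega) hi.le,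
      bump_sum_high hn (by norm_num) (by omega) hi.le, bump_sum_high hn (by norm_num) (by omega) hi.le,
      bump_sum_low hn (by norm_num) (by omega)]
    ring

lemma range_of_bet (hn : 0 < n) (hi : i < 8 * n) (h : bet (i / (8 * n : ℝ)) ≠ 0) :
    3 * n < i ∧ i < 4 * n := by
  by_contra hcon
  push Not at hcon
  apply h
  unfold bet
  rcases le_or_gt i (3 * n) with h1 | h1
  · exact_mod_cast bump_zero_low (k := 3) hn (by norm_num) h1
  · exact_mod_cast bump_zero_high (k := 3) hn (by have := hcon h1; omega) hi.le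

lemma range_of_gam (hn : 0 < n) (hi : i < 8 * n) (h : gam (i / (8 * n : ℝ)) ≠ 0) :
    7 * n < i := by
  by_contra hcon
  push Not at hcon
  apply h
  unfold gam
  exact_mod_cast bump_zero_low (k := 7) hn (by norm_num) hcon

lemma SS_of_bet (hn : 0 < n) (hi : i < 8 * n) (h : bet (i / (8 * n : ℝ)) ≠ 0) : SS n i = -TT n := by
  obtain ⟨h1, h2⟩ := range_of_bet hn hi h
  rw [SS_expand, bump_sum_high hn (by norm_num) (by omega) hi.le,
      bump_sum_high hn (by norm_num) (by omega) hi.le, bump_sum_low hn (by norm_num) (by omega),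
      bump_sum_low hn (by norm_num) (by omega)]
  ring

lemma XX_of_bet (hn : 0 < n) (hi : i < 8 * n) (h : bet (i / (8 * n : ℝ)) ≠ 0) : XX n i = TT n := by
  obtain ⟨h1, h2⟩ := range_of_bet hn hi h
  rw [XX_expand, bump_sum_high hn (by norm_num) (by omega) hi.le,
      bump_sum_low hn (by norm_num) (by omega)]
  ring

lemma SS_of_gam (hn : 0 < n) (hi : i < 8 * n) (h : gam (i / (8 * n : ℝ)) ≠ 0) : SS n i = -TT n := by
  have h1 := range_of_gam hn hi h
  rw [SS_expand, bump_sum_high hn (by norm_num) (by omega) hi.le,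
      bump_sum_high hn (by norm_num) (by omega) hi.le, bump_sum_high hn (by norm_num) (by omega) hi.le,
      bump_sum_high hn (by norm_num) (by omega) hi.le]
  ring

lemma XX_of_gam (hn : 0 < n) (hi : i < 8 * n) (h : gam (i / (8 * n : ℝ)) ≠ 0) : XX n i = 0 := by
  have h1 := range_of_gam hn hi h
  rw [XX_expand, bump_sum_high hn (by norm_num) (by omega) hi.le,
      bump_sum_high hn (by norm_num) (by omega) hi.le]
  ring

end

end Pool.Agent.H14.Lyap
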