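import Mathlib

open MeasureTheory Set Filter Topology ContDiff

namespace Pool.Agent.H14.Lyap

noncomputable section

/-- lift of the hyperbolic one-parameter group of Moebius maps of the circle `ℝ/ℤ` -/
def phi (τ q : ℝ) : ℝ :=
  q - (1 / Real.pi) * Real.arctan (Real.sinh τ * Real.sin (2 * Real.pi * q) /
    (Real.cosh τ + Real.sinh τ * Real.cos (2 * Real.pi * q)))

lemma abs_sinh_lt_cosh (τ : ℝ) : |Real.sinh τ| < Real.cosh τ := by
  have h := Real.cosh_sq τ
  have hc := Real.cosh_pos τ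
  rw [← Real.sqrt_sq_eq_abs, Real.sqrt_lt' hc]
  linarith

lemma den_pos (τ c : ℝ) (hc : |c| ≤ 1) : 0 < Real.cosh τ + Real.sinh τ * c := by
  have h := abs_sinh_lt_cosh τ
  have h2 : |Real.sinh τ * c| ≤ |Real.sinh τ| := by
    rw [abs_mul]; nlinarith [abs_nonneg (Real.sinh τ)]
  have := neg_abs_le (Real.sinh τ * c)
  linarith

lemma phi_contDiff : ContDiff ℝ ∞ (fun p : ℝ × ℝ => phi p.1 p.2) := by
  unfold phi
  have hs : ContDiff ℝ ∞ (fun p : ℝ × ℝ => Real.sinh p.1 * Real.sin (2 * Real.pi * p.2)) := by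
    have h1 : ContDiff ℝ ∞ (fun p : ℝ × ℝ => Real.sinh p.1) := Real.contDiff_sinh.comp contDiff_fst
    have h2 : ContDiff ℝ ∞ (fun p : ℝ × ℝ => Real.sin (2 * Real.pi * p.2)) :=
      Real.contDiff_sin.comp (contDiff_const.mul contDiff_snd)
    exact h1.mul h2
  have hc : ContDiff ℝ ∞ (fun p : ℝ × ℝ => Real.cosh p.1 + Real.sinh p.1 * Real.cos (2 * Real.pi * p.2)) := by
    have h0 : ContDiff ℝ ∞ (fun p : ℝ × ℝ => Real.cosh p.1) := Real.contDiff_cosh.comp contDiff_fst
    have h1 : ContDiff ℝ ∞ (fun p : ℝ × ℝ => Real.sinh p.1) := Real.contDiff_sinh.comp contDiff_fst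
    have h2 : ContDiff ℝ ∞ (fun p : ℝ × ℝ => Real.cos (2 * Real.pi * p.2)) :=
      Real.contDiff_cos.comp (contDiff_const.mul contDiff_snd)
    exact h0.add (h1.mul h2)
  refine contDiff_snd.sub (contDiff_const.mul (Real.contDiff_arctan.comp (hs.div hc ?_)))
  intro p
  exact (den_pos _ _ (Real.abs_cos_le_one _)).ne'

lemma phi_add_one (τ q : ℝ) : phi τ (q + 1) = phi τ q + 1 := by
  unfold phi
  rw [show 2 * Real.pi * (q + 1) = 2 * Real.pi * q + 2 * Real.pi by ring,
    Real.sin_add_two_pi, Real.cos_add_two_pi]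
  ring

lemma phi_zero_left (q : ℝ) : phi 0 q = q := by simp [phi]

lemma phi_zero_right (τ : ℝ) : phi τ 0 = 0 := by simp [phi]

lemma cos_sin_phi (τ q : ℝ) :
    Real.cos (2 * Real.pi * phi τ q) =
      (Real.cosh (2 * τ) * Real.cos (2 * Real.pi * q) + Real.sinh (2 * τ)) /
      (Real.cosh (2 * τ) + Real.sinh (2 * τ) * Real.cos (2 * Real.pi * q)) ∧
    Real.sin (2 * Real.pi * phi τ q) =
      Real.sin (2 * Real.pi * q) /
      (Real.cosh (2 * τ) + Real.sinh (2 * τ) * Real.cos (2 * Real.pi * q)) := by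
  set c := Real.cos (2 * Real.pi * q) with hc
  set s := Real.sin (2 * Real.pi * q) with hs
  set C := Real.cosh τ with hC
  set S := Real.sinh τ with hS
  have hcs : c ^ 2 + s ^ 2 = 1 := by rw [hc, hs]; exact Real.cos_sq_add_sin_sq _
  have hCS : C ^ 2 = S ^ 2 + 1 := Real.cosh_sq τ
  have hD : 0 < C + S * c := den_pos _ _ (Real.abs_cos_le_one _)
  set D := C + S * c with hDdef
  set x := S * s / D with hx
  have hcos2 : Real.cosh (2 * τ) = C ^ 2 + S ^ 2 := by rw [Real.cosh_two_mul]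
  have hsin2 : Real.sinh (2 * τ) = 2 * S * C := by rw [Real.sinh_two_mul]
  have hR : 0 < C ^ 2 + S ^ 2 + 2 * S * C * c := by
    have := den_pos (2 * τ) c (Real.abs_cos_le_one _)
    rw [hcos2, hsin2] at this; exact this
  have hphi : 2 * Real.pi * phi τ q = 2 * Real.pi * q - 2 * Real.arctan x := by
    unfold phi
    rw [← hc, ← hs, ← hC, ← hS, ← hDdef, ← hx]
    field_simp
  have hx2 : 1 + x ^ 2 = (C ^ 2 + S ^ 2 + 2 * S * C * c) / D ^ 2 := by
    rw [hx]
    field_simp
    have : s ^ 2 = 1 - c ^ 2 := by linarith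
    rw [this, hDdef]; ring
  have hcosA : Real.cos (2 * Real.arctan x) = 2 / (1 + x ^ 2) - 1 := by
    rw [Real.cos_two_mul, Real.cos_sq_arctan]; ring
  have hsinA : Real.sin (2 * Real.arctan x) = 2 * x / (1 + x ^ 2) := by
    rw [Real.sin_two_mul, Real.sin_arctan, Real.cos_arctan]
    have h1 : 0 < 1 + x ^ 2 := by positivity
    have h2 : Real.sqrt (1 + x ^ 2) ^ 2 = 1 + x ^ 2 := Real.sq_sqrt h1.le
    have h3 : Real.sqrt (1 + x ^ 2) ≠ 0 := (Real.sqrt_pos.mpr h1).ne'
    calc 2 * (x / Real.sqrt (1 + x ^ 2)) * (1 / Real.sqrt (1 + x ^ 2))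
        = 2 * x / (Real.sqrt (1 + x ^ 2) ^ 2) := by field_simp
      _ = _ := by rw [h2]
  have hs2 : s ^ 2 = 1 - c ^ 2 := by linarith
  set R := C ^ 2 + S ^ 2 + 2 * S * C * c with hRdef
  have hA1 : Real.cos (2 * Real.arctan x) = (2 * D ^ 2 - R) / R := by
    rw [hcosA, hx2]; field_simp
  have hA2 : Real.sin (2 * Real.arctan x) = 2 * S * s * D / R := by
    rw [hsinA, hx2, hx]; field_simp
  constructor
  · rw [hphi, Real.cos_sub, ← hc, ← hs, hA1, hA2, hcos2, hsin2]
    rw [← hRdef]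
    rw [← mul_div_assoc, ← mul_div_assoc, ← add_div]
    congr 1
    rw [hDdef, hRdef]
    linear_combination (2 * S * (C + S * c)) * hs2
  · rw [hphi, Real.sin_sub, ← hc, ← hs, hA1, hA2, hcos2, hsin2]
    rw [← hRdef]
    rw [← mul_div_assoc, ← mul_div_assoc, ← sub_div]
    congr 1
    rw [hDdef, hRdef]
    linear_combination s * hCS

lemma phi_add (τ σ q : ℝ) : phi τ (phi σ q) = phi (τ + σ) q := by
  have hint : ∀ q, ∃ k : ℤ, phi τ (phi σ q) - phi (τ + σ) q = k := by
    intro q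
    obtain ⟨c1, s1⟩ := cos_sin_phi τ (phi σ q)
    obtain ⟨c2, s2⟩ := cos_sin_phi σ q
    obtain ⟨c3, s3⟩ := cos_sin_phi (τ + σ) q
    set c := Real.cos (2 * Real.pi * q) with hc
    set s := Real.sin (2 * Real.pi * q) with hs
    have hB : 0 < Real.cosh (2 * σ) + Real.sinh (2 * σ) * c := den_pos _ _ (Real.abs_cos_le_one _)
    have hAB : 0 < Real.cosh (2 * (τ + σ)) + Real.sinh (2 * (τ + σ)) * c :=
      den_pos _ _ (Real.abs_cos_le_one _)
    have e1 : Real.cosh (2 * (τ + σ)) = Real.cosh (2 * τ) * Real.cosh (2 * σ) +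
        Real.sinh (2 * τ) * Real.sinh (2 * σ) := by
      rw [mul_add, Real.cosh_add]
    have e2 : Real.sinh (2 * (τ + σ)) = Real.sinh (2 * τ) * Real.cosh (2 * σ) +
        Real.cosh (2 * τ) * Real.sinh (2 * σ) := by
      rw [mul_add, Real.sinh_add]
    rw [e1, e2] at c3 s3 hAB
    generalize Real.cosh (2 * τ) = A at *
    generalize Real.sinh (2 * τ) = B at *
    generalize Real.cosh (2 * σ) = U at *
    generalize Real.sinh (2 * σ) = W at *
    have hB' := hB.ne'
    have hAB' := hAB.ne'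
    have hA : A + B * ((U * c + W) / (U + W * c)) =
        (A * U + B * W + (B * U + A * W) * c) / (U + W * c) := by
      rw [eq_div_iff hB', add_mul, mul_assoc B, div_mul_cancel₀ _ hB']; ring
    have hcos : Real.cos (2 * Real.pi * phi τ (phi σ q)) = Real.cos (2 * Real.pi * phi (τ + σ) q) := by
      rw [c1, c2, c3, hA]
      have : A * ((U * c + W) / (U + W * c)) + B =
        ((A * U + B * W) * c + (B * U + A * W)) / (U + W * c) := by
        rw [eq_div_iff hB', add_mul, mul_assoc A, div_mul_cancel₀ _ hB']; ring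
      rw [this, div_div_div_cancel_right₀ hB']
    have hsin : Real.sin (2 * Real.pi * phi τ (phi σ q)) = Real.sin (2 * Real.pi * phi (τ + σ) q) := by
      rw [s1, c2, s2, s3, hA, div_div_div_cancel_right₀ hB']
    have := Real.Angle.cos_sin_inj hcos hsin
    rw [Real.Angle.angle_eq_iff_two_pi_dvd_sub] at this
    obtain ⟨k, hk⟩ := this
    refine ⟨k, ?_⟩
    have hpi := Real.pi_pos
    have : 2 * Real.pi * (phi τ (phi σ q) - phi (τ + σ) q - k) = 0 := by linarith
    rcases mul_eq_zero.mp this with h | h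
    · linarith
    · linarith
  have hcont : Continuous (fun q => phi τ (phi σ q) - phi (τ + σ) q) := by
    have h := phi_contDiff.continuous
    have h1 : Continuous (fun q => phi σ q) := h.comp (by fun_prop : Continuous fun q : ℝ => (σ, q))
    have h2 : Continuous (fun q => phi (τ + σ) q) :=
      h.comp (by fun_prop : Continuous fun q : ℝ => (τ + σ, q))
    have h3 : Continuous (fun q => phi τ (phi σ q)) :=
      h.comp (by fun_prop : Continuous fun q : ℝ => (τ, phi σ q))
    exact h3.sub h2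
  by_contra hne
  have hne' : phi τ (phi σ q) - phi (τ + σ) q ≠ 0 := sub_ne_zero.mpr hne
  obtain ⟨k, hk⟩ := hint q
  have hk1 : 1 ≤ |(fun q => phi τ (phi σ q) - phi (τ + σ) q) q| := by
    simp only
    rw [hk]
    have : k ≠ 0 := by rintro rfl; simp at hk; exact hne' (by linarith)
    rw [← Int.cast_abs]
    exact_mod_cast Int.one_le_abs this
  have h0 : |(fun q => phi τ (phi σ q) - phi (τ + σ) q) 0| = 0 := by simp [phi_zero_right]
  have hivt := intermediate_value_uIcc (a := (0:ℝ)) (b := q)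
    (f := fun x => |(fun q => phi τ (phi σ q) - phi (τ + σ) q) x|) (hcont.abs.continuousOn)
  have hmem : (1/2 : ℝ) ∈ uIcc (|(fun q => phi τ (phi σ q) - phi (τ + σ) q) 0|)
      (|(fun q => phi τ (phi σ q) - phi (τ + σ) q) q|) := by
    rw [h0, uIcc_of_le (abs_nonneg _)]
    exact ⟨by norm_num, by linarith⟩
  obtain ⟨x, -, hx⟩ := hivt hmem
  obtain ⟨m, hm⟩ := hint x
  simp only at hx
  rw [hm, ← Int.cast_abs] at hx
  have h2 : (2 * |m| : ℤ) = 1 := by
    have : (2 * (|m| : ℤ) : ℝ) = 1 := by rw [hx]; norm_num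
    exact_mod_cast this
  omega

lemma phi_inv (τ q : ℝ) : phi (-τ) (phi τ q) = q := by
  rw [phi_add, neg_add_cancel, phi_zero_left]

lemma phi_inv' (τ q : ℝ) : phi τ (phi (-τ) q) = q := by
  rw [phi_add, add_neg_cancel, phi_zero_left]

lemma phi_quarter (T : ℝ) : phi T (1 / 4) = (1 / Real.pi) * Real.arctan (Real.exp (-2 * T)) := by
  have hq : 2 * Real.pi * (1 / 4) = Real.pi / 2 := by ring
  unfold phi
  rw [hq, Real.sin_pi_div_two, Real.cos_pi_div_two]
  simp only [mul_one, mul_zero, add_zero]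
  have hC := Real.cosh_pos T
  have h1 : Real.sinh T / Real.cosh T < 1 := by
    rw [div_lt_one hC]; exact lt_of_abs_lt (abs_sinh_lt_cosh T) |>.trans_le le_rfl
  have h2 : -1 < Real.sinh T / Real.cosh T := by
    rw [lt_div_iff₀ hC]
    have := abs_sinh_lt_cosh T
    have := neg_abs_le (Real.sinh T)
    linarith
  have key : Real.arctan (Real.exp (-2 * T)) = Real.pi / 4 - Real.arctan (Real.sinh T / Real.cosh T) := by
    have h3 : Real.arctan 1 = Real.pi / 4 := Real.arctan_one
    rw [← h3, sub_eq_add_neg, ← Real.arctan_neg]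
    rw [Real.arctan_add (by nlinarith)]
    congr 1
    have hsum : Real.cosh T + Real.sinh T = Real.exp T := Real.cosh_add_sinh T
    have hdif : Real.cosh T - Real.sinh T = Real.exp (-T) := Real.cosh_sub_sinh T
    have e1 : (1 + -(Real.sinh T / Real.cosh T)) / (1 - 1 * -(Real.sinh T / Real.cosh T)) =
        (Real.cosh T - Real.sinh T) / (Real.cosh T + Real.sinh T) := by
      have hne : Real.cosh T + Real.sinh T ≠ 0 := by rw [hsum]; exact (Real.exp_pos T).ne'
      have hne2 : 1 - 1 * -(Real.sinh T / Real.cosh T) ≠ 0 := by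
        have : 0 < 1 - 1 * -(Real.sinh T / Real.cosh T) := by linarith
        exact this.ne'
      rw [div_eq_div_iff hne2 hne]
      field_simp
      ring
    rw [e1, hsum, hdif, ← Real.exp_sub]
    congr 1; ring
  rw [key]
  have := Real.pi_pos
  field_simp

end

end Pool.Agent.H14.Lyap
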