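import Mathlib

open Set Filter Topology ContDiff

namespace Pool.Agent.H14.Lyap

/-- small smooth perturbations of the identity are smoothly invertible -/
lemma exists_smooth_inverse {E : Type} [NormedAddCommGroup E] [NormedSpace ℝ E]
    [FiniteDimensional ℝ E] {V : E → E} (hV : ContDiff ℝ ∞ V)
    (hb : ∀ x, ‖fderiv ℝ V x‖ ≤ 1 / 2) :
    ∃ Φ : E → E, ContDiff ℝ ∞ Φ ∧ (∀ x, Φ (x + V x) = x) ∧ (∀ x, Φ x + V (Φ x) = x) := by
  have : CompleteSpace E := FiniteDimensional.complete ℝ E
  have hVd : Differentiable ℝ V := hV.differentiable (by simp)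
  set f : E → E := fun x => x + V x with hf
  have happ : ApproximatesLinearOn f ((ContinuousLinearEquiv.refl ℝ E : E ≃L[ℝ] E) : E →L[ℝ] E)
      univ (1 / 2) := by
    intro x _ y _
    have h := Convex.norm_image_sub_le_of_norm_fderiv_le (𝕜 := ℝ) (f := V) (C := 1 / 2) (s := univ)
      (x := y) (y := x) (fun x _ => hVd x) (fun x _ => hb x) convex_univ (mem_univ _) (mem_univ _)
    have e : f x - f y - (x - y) = V x - V y := by simp only [hf]; abel
    simp only [ContinuousLinearEquiv.coe_refl, ContinuousLinearMap.id_apply]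
    rw [e]
    simpa using h
  have hc : Subsingleton E ∨ (1 / 2 : NNReal) <
      ‖((ContinuousLinearEquiv.refl ℝ E : E ≃L[ℝ] E).symm : E →L[ℝ] E)‖₊⁻¹ := by
    rcases subsingleton_or_nontrivial E with h | h
    · exact Or.inl h
    · right
      have : ((ContinuousLinearEquiv.refl ℝ E : E ≃L[ℝ] E).symm : E →L[ℝ] E) =
        ContinuousLinearMap.id ℝ E := rfl
      rw [this]
      have h1 : ‖ContinuousLinearMap.id ℝ E‖₊ = 1 := by
        ext; simp
      rw [h1, inv_one, ← NNReal.coe_lt_coe]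
      norm_num
  let h := happ.toHomeomorph f hc
  have hcoe : ∀ x, h x = f x := fun x => rfl
  have hfd : ∀ x, HasFDerivAt f (ContinuousLinearMap.id ℝ E + fderiv ℝ V x) x := fun x =>
    (hasFDerivAt_id x).add (hVd x).hasFDerivAt
  have hinj : ∀ x, Function.Injective (ContinuousLinearMap.id ℝ E + fderiv ℝ V x : E →L[ℝ] E) := by
    intro x
    rw [injective_iff_map_eq_zero]
    intro v hv
    have h1 : v = -(fderiv ℝ V x v) := by
      have : v + fderiv ℝ V x v = 0 := by simpa using hv
      exact eq_neg_of_add_eq_zero_left this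
    have h2 : ‖v‖ ≤ 1 / 2 * ‖v‖ := by
      calc ‖v‖ = ‖fderiv ℝ V x v‖ := by conv_lhs => rw [h1, norm_neg]
        _ ≤ ‖fderiv ℝ V x‖ * ‖v‖ := ContinuousLinearMap.le_opNorm _ _
        _ ≤ _ := by have := hb x; gcongr
    have h3 := norm_nonneg v
    exact norm_le_zero_iff.mp (by linarith)
  let e : E → E ≃L[ℝ] E := fun x =>
    (LinearEquiv.ofInjectiveEndo
      ((ContinuousLinearMap.id ℝ E + fderiv ℝ V x : E →L[ℝ] E) : E →ₗ[ℝ] E) (hinj x)).toContinuousLinearEquiv
  have he : ∀ x, ((e x : E ≃L[ℝ] E) : E →L[ℝ] E) = ContinuousLinearMap.id ℝ E + fderiv ℝ V x := by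
    intro x; ext v; rfl
  have hsm : ContDiff ℝ ∞ h.symm := by
    apply Homeomorph.contDiff_symm h (f₀' := e)
    · intro a
      rw [he]
      exact hfd a
    · exact contDiff_id.add hV
  refine ⟨h.symm, hsm, fun x => ?_, fun x => ?_⟩
  · exact h.symm_apply_apply x
  · exact h.apply_symm_apply x

end Pool.Agent.H14.Lyap
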