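import Pool.Agent.H14.LyapLift
import Pool.Agent.H14.LyapBump
import Pool.Agent.H14.LyapCircle
import Pool.Agent.H14.LyapInv

open MeasureTheory Set Filter Topology ContDiff

namespace Pool.Agent.H14.Lyap

noncomputable section

/-- the vector with given coordinates -/
def vec5 (a b c d e : ℝ) : Euc 5 := WithLp.toLp 2 ![a, b, c, d, e]

@[simp] lemma vec5_0 (a b c d e : ℝ) : vec5 a b c d e 0 = a := rfl
@[simp] lemma vec5_1 (a b c d e : ℝ) : vec5 a b c d e 1 = b := rfl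
@[simp] lemma vec5_2 (a b c d e : ℝ) : vec5 a b c d e 2 = c := rfl
@[simp] lemma vec5_3 (a b c d e : ℝ) : vec5 a b c d e 3 = d := rfl
@[simp] lemma vec5_4 (a b c d e : ℝ) : vec5 a b c d e 4 = e := rfl

lemma ext5 {x y : Euc 5} (h0 : x 0 = y 0) (h1 : x 1 = y 1) (h2 : x 2 = y 2) (h3 : x 3 = y 3)
    (h4 : x 4 = y 4) : x = y := by
  ext i
  fin_cases i
  · exact h0
  · exact h1
  · exact h2
  · exact h3
  · exact h4

lemma vec5_contDiff {E : Type*} [NormedAddCommGroup E] [NormedSpace ℝ E] {a b c d e : E → ℝ}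
    (ha : ContDiff ℝ ∞ a) (hb : ContDiff ℝ ∞ b) (hc : ContDiff ℝ ∞ c) (hd : ContDiff ℝ ∞ d)
    (he : ContDiff ℝ ∞ e) : ContDiff ℝ ∞ (fun x => vec5 (a x) (b x) (c x) (d x) (e x)) := by
  rw [contDiff_euclidean]
  intro i
  fin_cases i
  · exact ha
  · exact hb
  · exact hc
  · exact hd
  · exact he

lemma coord_contDiff {E : Type*} [NormedAddCommGroup E] [NormedSpace ℝ E] {f : E → Euc 5}
    (hf : ContDiff ℝ ∞ f) (i : Fin 5) : ContDiff ℝ ∞ (fun x => f x i) :=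
  (contDiff_euclidean.mp hf) i

section defs

variable (ν : ℝ)

/-- expanded covector -/
def pc : Euc 5 →L[ℝ] ℝ := ν • EuclideanSpace.proj 3 + EuclideanSpace.proj 4
/-- contracted covector -/
def wc : Euc 5 →L[ℝ] ℝ := -EuclideanSpace.proj 3 + ν • EuclideanSpace.proj 4

lemma pc_apply (x : Euc 5) : pc ν x = ν * x 3 + x 4 := by simp [pc]
lemma wc_apply (x : Euc 5) : wc ν x = -x 3 + ν * x 4 := by simp [wc]

def epv : Euc 5 := vec5 0 0 0 (ν / (ν ^ 2 + 1)) (1 / (ν ^ 2 + 1))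
def ewv : Euc 5 := vec5 0 0 0 (-1 / (ν ^ 2 + 1)) (ν / (ν ^ 2 + 1))

lemma nu_pos : 0 < ν ^ 2 + 1 := by positivity

lemma p_ep : pc ν (epv ν) = 1 := by
  have := nu_pos ν
  rw [pc_apply]; simp only [epv, vec5_3, vec5_4]; field_simp
lemma p_ew : pc ν (ewv ν) = 0 := by
  have := nu_pos ν
  rw [pc_apply]; simp only [ewv, vec5_3, vec5_4]; field_simp; ring
lemma w_ep : wc ν (epv ν) = 0 := by
  have := nu_pos ν
  rw [wc_apply]; simp only [epv, vec5_3, vec5_4]; field_simp; ring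
lemma w_ew : wc ν (ewv ν) = 1 := by
  have := nu_pos ν
  rw [wc_apply]; simp only [ewv, vec5_3, vec5_4]; field_simp; ring

lemma n_ep : ‖epv ν‖ ≤ 1 := by
  have h := nu_pos ν
  rw [EuclideanSpace.norm_eq, Real.sqrt_le_one]
  simp only [epv, Fin.sum_univ_five, vec5_0, vec5_1, vec5_2, vec5_3, vec5_4, Real.norm_eq_abs, sq_abs]
  have : (ν / (ν ^ 2 + 1)) ^ 2 + (1 / (ν ^ 2 + 1)) ^ 2 = 1 / (ν ^ 2 + 1) := by
    field_simp
  have h2 : 1 / (ν ^ 2 + 1) ≤ 1 := by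
    rw [div_le_one h]; nlinarith
  linarith

lemma n_ew : ‖ewv ν‖ ≤ 1 := by
  have h := nu_pos ν
  rw [EuclideanSpace.norm_eq, Real.sqrt_le_one]
  simp only [ewv, Fin.sum_univ_five, vec5_0, vec5_1, vec5_2, vec5_3, vec5_4, Real.norm_eq_abs, sq_abs]
  have : (-1 / (ν ^ 2 + 1)) ^ 2 + (ν / (ν ^ 2 + 1)) ^ 2 = 1 / (ν ^ 2 + 1) := by
    field_simp
    ring
  have h2 : 1 / (ν ^ 2 + 1) ≤ 1 := by
    rw [div_le_one h]; nlinarith
  linarith

/-- projection to the first three coordinates -/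
def pNm : Euc 5 →L[ℝ] Euc 5 :=
  ContinuousLinearMap.id ℝ (Euc 5) - (pc ν).smulRight (epv ν) - (wc ν).smulRight (ewv ν)

lemma pNm_def (v : Euc 5) : pNm ν v = v - (pc ν v) • epv ν - (wc ν v) • ewv ν := by
  simp [pNm]

lemma pNm_apply (v : Euc 5) : pNm ν v = vec5 (v 0) (v 1) (v 2) 0 0 := by
  have := nu_pos ν
  rw [pNm_def, pc_apply, wc_apply]
  apply ext5
  · simp [epv, ewv]
  · simp [epv, ewv]
  · simp [epv, ewv]
  · simp only [epv, ewv, PiLp.sub_apply, PiLp.smul_apply, smul_eq_mul, vec5_3]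
    field_simp; ring
  · simp only [epv, ewv, PiLp.sub_apply, PiLp.smul_apply, smul_eq_mul, vec5_4]
    field_simp; ring

lemma hpN (v : Euc 5) : v = pNm ν v + (pc ν v) • epv ν + (wc ν v) • ewv ν := by
  rw [pNm_def]; abel

lemma ppN (v : Euc 5) : pc ν (pNm ν v) = 0 := by
  rw [pNm_apply, pc_apply]; simp

lemma wpN (v : Euc 5) : wc ν (pNm ν v) = 0 := by
  rw [pNm_apply, wc_apply]; simp

/-- periodic functions with linear part `p`, `w` -/
def lp (x : Euc 5) : ℝ :=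
  (ν * Real.sin (2 * Real.pi * x 3) + Real.sin (2 * Real.pi * x 4)) / (2 * Real.pi)
def lw (x : Euc 5) : ℝ :=
  (-Real.sin (2 * Real.pi * x 3) + ν * Real.sin (2 * Real.pi * x 4)) / (2 * Real.pi)

def xip (x : Euc 5) : ℝ := -(bet (x 1) * Real.cos (2 * Real.pi * x 2)) * lw ν x
def xiw (x : Euc 5) : ℝ := (gam (x 1) * Real.cos (2 * Real.pi * x 2)) * lp ν x

lemma c_sin (i : Fin 5) : ContDiff ℝ ∞ (fun x : Euc 5 => Real.sin (2 * Real.pi * x i)) :=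
  Real.contDiff_sin.comp (contDiff_const.mul (coord_contDiff contDiff_id i))
lemma c_cos (i : Fin 5) : ContDiff ℝ ∞ (fun x : Euc 5 => Real.cos (2 * Real.pi * x i)) :=
  Real.contDiff_cos.comp (contDiff_const.mul (coord_contDiff contDiff_id i))

lemma lp_contDiff : ContDiff ℝ ∞ (lp ν) := by
  unfold lp
  exact ((contDiff_const.mul (c_sin 3)).add (c_sin 4)).div_const _
lemma lw_contDiff : ContDiff ℝ ∞ (lw ν) := by
  unfold lw
  exact ((c_sin 3).neg.add (contDiff_const.mul (c_sin 4))).div_const _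

lemma xip_contDiff : ContDiff ℝ ∞ (xip ν) := by
  unfold xip
  exact (((bet_contDiff.comp (coord_contDiff contDiff_id 1)).mul (c_cos 2)).neg).mul (lw_contDiff ν)
lemma xiw_contDiff : ContDiff ℝ ∞ (xiw ν) := by
  unfold xiw
  exact ((gam_contDiff.comp (coord_contDiff contDiff_id 1)).mul (c_cos 2)).mul (lp_contDiff ν)

lemma add_zvec_apply {d : ℕ} (x : Euc d) (k : Fin d → ℤ) (i : Fin d) : (x + zvec k) i = x i + k i := rfl

lemma sin_per (a : ℝ) (k : ℤ) : Real.sin (2 * Real.pi * (a + k)) = Real.sin (2 * Real.pi * a) := by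
  rw [show 2 * Real.pi * (a + k) = 2 * Real.pi * a + k * (2 * Real.pi) by ring,
    Real.sin_add_int_mul_two_pi]
lemma cos_per (a : ℝ) (k : ℤ) : Real.cos (2 * Real.pi * (a + k)) = Real.cos (2 * Real.pi * a) := by
  rw [show 2 * Real.pi * (a + k) = 2 * Real.pi * a + k * (2 * Real.pi) by ring,
    Real.cos_add_int_mul_two_pi]

lemma xip_per (x : Euc 5) (k : Fin 5 → ℤ) : xip ν (x + zvec k) = xip ν x := by
  unfold xip lw
  simp only [add_zvec_apply, sin_per, cos_per, bet_add_int]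
lemma xiw_per (x : Euc 5) (k : Fin 5 → ℤ) : xiw ν (x + zvec k) = xiw ν x := by
  unfold xiw lp
  simp only [add_zvec_apply, sin_per, cos_per, gam_add_int]

/-- the nonlinear perturbation -/
def Vf (dl : ℝ) (x : Euc 5) : Euc 5 := (dl * xip ν x) • epv ν + (dl * xiw ν x) • ewv ν

lemma Vf_contDiff (dl : ℝ) : ContDiff ℝ ∞ (Vf ν dl) := by
  unfold Vf
  exact ((contDiff_const.mul (xip_contDiff ν)).smul contDiff_const).add
    ((contDiff_const.mul (xiw_contDiff ν)).smul contDiff_const)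

lemma Vf_per (dl : ℝ) (x : Euc 5) (k : Fin 5 → ℤ) : Vf ν dl (x + zvec k) = Vf ν dl x := by
  unfold Vf; rw [xip_per, xiw_per]

lemma fderiv_Vf_bound {dl M : ℝ} (hdl : 0 ≤ dl)
    (h1 : ∀ x, ‖fderiv ℝ (xip ν) x‖ ≤ M) (h2 : ∀ x, ‖fderiv ℝ (xiw ν) x‖ ≤ M) (x : Euc 5) :
    ‖fderiv ℝ (Vf ν dl) x‖ ≤ 2 * (dl * M) := by
  have a1 : HasFDerivAt (xip ν) (fderiv ℝ (xip ν) x) x :=
    ((xip_contDiff ν).differentiable (by simp) x).hasFDerivAt
  have a2 : HasFDerivAt (xiw ν) (fderiv ℝ (xiw ν) x) x :=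
    ((xiw_contDiff ν).differentiable (by simp) x).hasFDerivAt
  have a3 : HasFDerivAt (Vf ν dl) ((dl • fderiv ℝ (xip ν) x).smulRight (epv ν) +
      (dl • fderiv ℝ (xiw ν) x).smulRight (ewv ν)) x :=
    ((a1.const_mul dl).smul_const (epv ν)).add ((a2.const_mul dl).smul_const (ewv ν))
  rw [a3.fderiv]
  have hM : 0 ≤ M := (norm_nonneg _).trans (h1 x)
  calc _ ≤ ‖(dl • fderiv ℝ (xip ν) x).smulRight (epv ν)‖ +
        ‖(dl • fderiv ℝ (xiw ν) x).smulRight (ewv ν)‖ := norm_add_le _ _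
    _ = (dl * ‖fderiv ℝ (xip ν) x‖) * ‖epv ν‖ + (dl * ‖fderiv ℝ (xiw ν) x‖) * ‖ewv ν‖ := by
        rw [ContinuousLinearMap.norm_smulRight_apply, ContinuousLinearMap.norm_smulRight_apply,
          norm_smul, norm_smul, Real.norm_eq_abs, abs_of_nonneg hdl]
    _ ≤ (dl * M) * 1 + (dl * M) * 1 := by
        have := n_ep ν; have := n_ew ν; have := h1 x; have := h2 x
        gcongr
    _ = 2 * (dl * M) := by ring

/-- the perturbed identity -/
def Psi (dl : ℝ) (x : Euc 5) : Euc 5 := x + Vf ν dl x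

lemma Psi_per (dl : ℝ) (x : Euc 5) (k : Fin 5 → ℤ) : Psi ν dl (x + zvec k) = Psi ν dl x + zvec k := by
  unfold Psi; rw [Vf_per]; abel

lemma Psi_contDiff (dl : ℝ) : ContDiff ℝ ∞ (Psi ν dl) := contDiff_id.add (Vf_contDiff ν dl)

lemma p_Psi (dl : ℝ) (x : Euc 5) : pc ν (Psi ν dl x) = pc ν x + dl * xip ν x := by
  unfold Psi Vf
  simp only [map_add, map_smul, p_ep, p_ew, smul_eq_mul]; ring
lemma w_Psi (dl : ℝ) (x : Euc 5) : wc ν (Psi ν dl x) = wc ν x + dl * xiw ν x := by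
  unfold Psi Vf
  simp only [map_add, map_smul, w_ep, w_ew, smul_eq_mul]; ring
lemma pN_Psi (dl : ℝ) (x : Euc 5) : pNm ν (Psi ν dl x) = pNm ν x := by
  rw [pNm_apply, pNm_apply]
  unfold Psi Vf
  simp [epv, ewv]

end defs

variable (n : ℕ)

/-- the skew-product part -/
def Qm (t : ℝ) (x : Euc 5) : Euc 5 :=
  vec5 (x 0) (x 1 + Real.sin (2 * Real.pi * x 0)) (phi (tau (x 1)) (x 2) + t * chi (x 1))
    (((n:ℝ) ^ 2 + 1) * x 3 + n * x 4) (n * x 3 + x 4)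

/-- its inverse -/
def Qi (t : ℝ) (x : Euc 5) : Euc 5 :=
  vec5 (x 0) (x 1 - Real.sin (2 * Real.pi * x 0))
    (phi (-tau (x 1 - Real.sin (2 * Real.pi * x 0)))
      (x 2 - t * chi (x 1 - Real.sin (2 * Real.pi * x 0))))
    (x 3 - n * x 4) (-(n * x 3) + ((n:ℝ) ^ 2 + 1) * x 4)

/-- the base part of the inverse -/
def Rm (t : ℝ) (x : Euc 5) : Euc 5 :=
  vec5 (x 0) (x 1 - Real.sin (2 * Real.pi * x 0))
    (phi (-tau (x 1 - Real.sin (2 * Real.pi * x 0)))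
      (x 2 - t * chi (x 1 - Real.sin (2 * Real.pi * x 0)))) 0 0

lemma Qi_Qm (t : ℝ) (x : Euc 5) : Qi n t (Qm n t x) = x := by
  unfold Qi Qm
  apply ext5
  · simp
  · simp
  · simp only [vec5_0, vec5_1, vec5_2, add_sub_cancel_right, phi_inv]
  · simp only [vec5_3, vec5_4]; ring
  · simp only [vec5_3, vec5_4]; ring

lemma Qm_Qi (t : ℝ) (x : Euc 5) : Qm n t (Qi n t x) = x := by
  unfold Qi Qm
  apply ext5
  · simp
  · simp
  · simp only [vec5_1, vec5_2, phi_inv', sub_add_cancel]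
  · simp only [vec5_3, vec5_4]; ring
  · simp only [vec5_3, vec5_4]; ring

lemma phi_comp_contDiff {E : Type*} [NormedAddCommGroup E] [NormedSpace ℝ E] {a b : E → ℝ}
    (ha : ContDiff ℝ ∞ a) (hb : ContDiff ℝ ∞ b) : ContDiff ℝ ∞ (fun x => phi (a x) (b x)) :=
  phi_contDiff.comp (ha.prodMk hb)

lemma Qm_contDiff : ContDiff ℝ ∞ (fun z : ℝ × Euc 5 => Qm n z.1 z.2) := by
  have c : ∀ i : Fin 5, ContDiff ℝ ∞ (fun z : ℝ × Euc 5 => z.2 i) := coord_contDiff contDiff_snd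
  have hs : ContDiff ℝ ∞ (fun z : ℝ × Euc 5 => Real.sin (2 * Real.pi * z.2 0)) :=
    Real.contDiff_sin.comp (contDiff_const.mul (c 0))
  unfold Qm
  apply vec5_contDiff (c 0) ((c 1).add hs)
  · exact (phi_comp_contDiff (tau_contDiff.comp (c 1)) (c 2)).add
      (contDiff_fst.mul (chi_contDiff.comp (c 1)))
  · exact (contDiff_const.mul (c 3)).add (contDiff_const.mul (c 4))
  · exact (contDiff_const.mul (c 3)).add (c 4)

lemma Qi_contDiff (t : ℝ) : ContDiff ℝ ∞ (Qi n t) := by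
  have c : ∀ i : Fin 5, ContDiff ℝ ∞ (fun z : Euc 5 => z i) := coord_contDiff contDiff_id
  have hs : ContDiff ℝ ∞ (fun z : Euc 5 => Real.sin (2 * Real.pi * z 0)) :=
    Real.contDiff_sin.comp (contDiff_const.mul (c 0))
  unfold Qi
  apply vec5_contDiff (c 0) ((c 1).sub hs)
  · exact (phi_comp_contDiff (tau_contDiff.comp ((c 1).sub hs)).neg ((c 2).sub
      (contDiff_const.mul (chi_contDiff.comp ((c 1).sub hs)))))
  · exact (c 3).sub (contDiff_const.mul (c 4))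
  · exact (contDiff_const.mul (c 3)).neg.add (contDiff_const.mul (c 4))

lemma Rm_contDiff : ContDiff ℝ ∞ (fun z : ℝ × Euc 5 => Rm z.1 z.2) := by
  have c : ∀ i : Fin 5, ContDiff ℝ ∞ (fun z : ℝ × Euc 5 => z.2 i) := coord_contDiff contDiff_snd
  have hs : ContDiff ℝ ∞ (fun z : ℝ × Euc 5 => Real.sin (2 * Real.pi * z.2 0)) :=
    Real.contDiff_sin.comp (contDiff_const.mul (c 0))
  unfold Rm
  apply vec5_contDiff (c 0) ((c 1).sub hs)
  · exact (phi_comp_contDiff (tau_contDiff.comp ((c 1).sub hs)).neg ((c 2).sub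
      (contDiff_fst.mul (chi_contDiff.comp ((c 1).sub hs)))))
  · exact contDiff_const
  · exact contDiff_const

lemma phi_add_int (τ q : ℝ) (k : ℤ) : phi τ (q + k) = phi τ q + k := by
  induction k using Int.induction_on with
  | zero => simp
  | succ i ih =>
    push_cast at ih ⊢
    rw [← add_assoc, phi_add_one, ih]; ring
  | pred i ih =>
    push_cast at ih ⊢
    have h := phi_add_one τ (q + (-i - 1))
    rw [show q + (-(i:ℝ) - 1) + 1 = q + -i by ring, ih] at h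
    linarith

/-- the integer matrix acting on lattice vectors -/
def Lm (k : Fin 5 → ℤ) : Fin 5 → ℤ :=
  ![k 0, k 1, k 2, ((n:ℤ) ^ 2 + 1) * k 3 + n * k 4, n * k 3 + k 4]
def Li (k : Fin 5 → ℤ) : Fin 5 → ℤ :=
  ![k 0, k 1, k 2, k 3 - n * k 4, -(n * k 3) + ((n:ℤ) ^ 2 + 1) * k 4]

lemma Qm_per (t : ℝ) (x : Euc 5) (k : Fin 5 → ℤ) :
    Qm n t (x + zvec k) = Qm n t x + zvec (Lm n k) := by
  apply ext5
  · simp [Qm, Lm]
  · simp only [Qm, vec5_1, PiLp.add_apply, zvec_apply, sin_per, Lm]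
    simp only [Matrix.cons_val_one, Matrix.cons_val_zero]; ring
  · simp only [Qm, vec5_2, PiLp.add_apply, zvec_apply, Lm, tau_add_int, chi_add_int, phi_add_int]
    simp only [Matrix.cons_val]; ring
  · simp only [Qm, vec5_3, PiLp.add_apply, zvec_apply, Lm]
    simp only [Matrix.cons_val]; push_cast; ring
  · simp only [Qm, vec5_4, PiLp.add_apply, zvec_apply, Lm]
    simp only [Matrix.cons_val]; push_cast; ring

lemma Qi_per (t : ℝ) (x : Euc 5) (k : Fin 5 → ℤ) :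
    Qi n t (x + zvec k) = Qi n t x + zvec (Li n k) := by
  have e1 : ∀ s : ℝ, x 1 + (k 1 : ℝ) - s = (x 1 - s) + (k 1 : ℤ) := fun s => by ring
  have e2 : ∀ s : ℝ, x 2 + (k 2 : ℝ) - s = (x 2 - s) + (k 2 : ℤ) := fun s => by ring
  apply ext5
  · simp [Qi, Li]
  · simp only [Qi, vec5_1, PiLp.add_apply, zvec_apply, sin_per, Li]
    simp only [Matrix.cons_val_one, Matrix.cons_val_zero]; ring
  · simp only [Qi, vec5_2, PiLp.add_apply, zvec_apply, Li, sin_per, e1, tau_add_int, chi_add_int,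
      e2, phi_add_int]
    simp only [Matrix.cons_val]
  · simp only [Qi, vec5_3, PiLp.add_apply, zvec_apply, Li]
    simp only [Matrix.cons_val]; push_cast; ring
  · simp only [Qi, vec5_4, PiLp.add_apply, zvec_apply, Li]
    simp only [Matrix.cons_val]; push_cast; ring

/-- base lattice vector -/
def Lb (k : Fin 5 → ℤ) : Fin 5 → ℤ := ![k 0, k 1, k 2, 0, 0]

lemma Rm_per (t : ℝ) (x : Euc 5) (k : Fin 5 → ℤ) :
    Rm t (x + zvec k) = Rm t x + zvec (Lb k) := by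
  have e1 : ∀ s : ℝ, x 1 + (k 1 : ℝ) - s = (x 1 - s) + (k 1 : ℤ) := fun s => by ring
  have e2 : ∀ s : ℝ, x 2 + (k 2 : ℝ) - s = (x 2 - s) + (k 2 : ℤ) := fun s => by ring
  apply ext5
  · simp [Rm, Lb]
  · simp only [Rm, vec5_1, PiLp.add_apply, zvec_apply, sin_per, Lb]
    simp only [Matrix.cons_val_one, Matrix.cons_val_zero]; ring
  · simp only [Rm, vec5_2, PiLp.add_apply, zvec_apply, Lb, sin_per, e1, tau_add_int, chi_add_int,
      e2, phi_add_int]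
    simp only [Matrix.cons_val]
  · simp [Rm, Lb]
  · simp [Rm, Lb]

/-- uniform bound for the derivative of the base part -/
lemma exists_Kg : ∃ Kg : ℝ, 1 ≤ Kg ∧ ∀ t ∈ Icc (-1:ℝ) 1, ∀ x, ‖fderiv ℝ (Rm t) x‖ ≤ Kg := by
  have hc : Continuous (fun z : ℝ × Euc 5 => fderiv ℝ (Rm z.1) z.2) := by
    have h1 : ContDiff ℝ ∞ (Function.uncurry fun (z : ℝ × Euc 5) (y : Euc 5) => Rm z.1 y) := by
      have : (Function.uncurry fun (z : ℝ × Euc 5) (y : Euc 5) => Rm z.1 y) =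
          (fun z : ℝ × Euc 5 => Rm z.1 z.2) ∘ (fun w : (ℝ × Euc 5) × Euc 5 => (w.1.1, w.2)) := rfl
      rw [this]
      exact Rm_contDiff.comp ((contDiff_fst.comp contDiff_fst).prodMk contDiff_snd)
    have h2 := ContDiff.fderiv (n := 0) h1 (contDiff_snd (n := 0)) (by simp)
    exact h2.continuous
  obtain ⟨C, hC⟩ := bounded_family (h := fun t x => fderiv ℝ (Rm t) x) hc
    (fun t x k => fderiv_periodic (fun x => Rm_per t x k) x)
  exact ⟨max 1 C, le_max_left _ _, fun t ht x => (hC t ht x).trans (le_max_right _ _)⟩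

lemma exists_M (ν : ℝ) : ∃ M : ℝ, 0 ≤ M ∧ (∀ x, ‖fderiv ℝ (xip ν) x‖ ≤ M) ∧
    (∀ x, ‖fderiv ℝ (xiw ν) x‖ ≤ M) := by
  obtain ⟨C1, h1⟩ := bounded_periodic (h := fun x => fderiv ℝ (xip ν) x)
    ((xip_contDiff ν).continuous_fderiv (by simp))
    (fun x k => fderiv_periodic (y := (0:ℝ)) (fun x => by rw [xip_per, add_zero]) x)
  obtain ⟨C2, h2⟩ := bounded_periodic (h := fun x => fderiv ℝ (xiw ν) x)
    ((xiw_contDiff ν).continuous_fderiv (by simp))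
    (fun x k => fderiv_periodic (y := (0:ℝ)) (fun x => by rw [xiw_per, add_zero]) x)
  refine ⟨max C1 C2, ?_, fun x => (h1 x).trans (le_max_left _ _),
    fun x => (h2 x).trans (le_max_right _ _)⟩
  exact ((norm_nonneg _).trans (h1 0)).trans (le_max_left _ _)

/-- the parameters -/
structure Par where
  n : ℕ
  ν : ℝ
  dl : ℝ
  Kg : ℝ
  M : ℝ
  hν : ν ^ 2 = n * ν + 1
  hν1 : 1 ≤ ν
  hμ : 10 ≤ ν ^ 2
  hKg : 1 ≤ Kg
  hμK : 8 * Kg ≤ ν ^ 2
  hdl : 0 < dl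
  hdl2 : dl ≤ 1 / 10
  hM : 0 ≤ M
  bp : ∀ x, ‖fderiv ℝ (xip ν) x‖ ≤ M
  bw : ∀ x, ‖fderiv ℝ (xiw ν) x‖ ≤ M
  hdsmall : 100 * (ν ^ 2 + 1) * Kg * (dl * M) ≤ 1
  hR : ∀ t ∈ Icc (-1:ℝ) 1, ∀ x, ‖fderiv ℝ (Rm t) x‖ ≤ Kg

lemma exists_par : Nonempty Par := by
  obtain ⟨Kg, hKg, hR⟩ := exists_Kg
  obtain ⟨n, hn⟩ := exists_nat_ge (max 10 (8 * Kg))
  have hn1 : (10:ℝ) ≤ n := (le_max_left _ _).trans hn
  have hn2 : 8 * Kg ≤ n := (le_max_right _ _).trans hn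
  set ν : ℝ := (n + Real.sqrt (n ^ 2 + 4)) / 2 with hν
  have hsq : Real.sqrt ((n:ℝ) ^ 2 + 4) ^ 2 = n ^ 2 + 4 := Real.sq_sqrt (by positivity)
  have hs0 : (n:ℝ) ≤ Real.sqrt ((n:ℝ) ^ 2 + 4) := by
    apply Real.le_sqrt_of_sq_le; linarith
  have hνn : (n:ℝ) ≤ ν := by rw [hν]; linarith
  have hν1 : 1 ≤ ν := by linarith
  have hνsq : (n:ℝ) ≤ ν ^ 2 := by nlinarith
  obtain ⟨M, hM, bp, bw⟩ := exists_M ν
  have hpos : 0 < 100 * (ν ^ 2 + 1) * Kg * (M + 1) := by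
    have : 0 < Kg := by linarith
    positivity
  refine ⟨⟨n, ν, min (1 / 10) (1 / (100 * (ν ^ 2 + 1) * Kg * (M + 1))), Kg, M, ?_, hν1, by linarith,
    hKg, by linarith, ?_, min_le_left _ _, hM, bp, bw, ?_, hR⟩⟩
  · rw [hν]; nlinarith
  · apply lt_min (by norm_num); positivity
  · have hKg0 : 0 < Kg := by linarith
    calc 100 * (ν ^ 2 + 1) * Kg * (min (1 / 10) (1 / (100 * (ν ^ 2 + 1) * Kg * (M + 1))) * M)
        ≤ 100 * (ν ^ 2 + 1) * Kg * ((1 / (100 * (ν ^ 2 + 1) * Kg * (M + 1))) * M) := by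
          gcongr
          exact min_le_right _ _
      _ = M / (M + 1) := by field_simp
      _ ≤ 1 := by rw [div_le_one (by linarith)]; linarith

namespace Par

variable (a : Par)

lemma exists_Phi : ∃ Φ : Euc 5 → Euc 5, ContDiff ℝ ∞ Φ ∧ (∀ x, Φ (Psi a.ν a.dl x) = x) ∧
    (∀ x, Psi a.ν a.dl (Φ x) = x) := by
  apply exists_smooth_inverse (Vf_contDiff a.ν a.dl)
  intro x
  have h1 := fderiv_Vf_bound a.ν a.hdl.le a.bp a.bw x
  have h2 := a.hdsmall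
  have h3 := a.hμ; have h4 := a.hKg
  have h5 : 0 ≤ a.dl * a.M := mul_nonneg a.hdl.le a.hM
  have h6 : 4 ≤ 100 * (a.ν ^ 2 + 1) * a.Kg := by nlinarith
  have h7 : 4 * (a.dl * a.M) ≤ 100 * (a.ν ^ 2 + 1) * a.Kg * (a.dl * a.M) := by gcongr
  linarith

def Phi : Euc 5 → Euc 5 := a.exists_Phi.choose
lemma Phi_contDiff : ContDiff ℝ ∞ a.Phi := a.exists_Phi.choose_spec.1
lemma Phi_Psi (x : Euc 5) : a.Phi (Psi a.ν a.dl x) = x := a.exists_Phi.choose_spec.2.1 x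
lemma Psi_Phi (x : Euc 5) : Psi a.ν a.dl (a.Phi x) = x := a.exists_Phi.choose_spec.2.2 x

lemma Phi_per (x : Euc 5) (k : Fin 5 → ℤ) : a.Phi (x + zvec k) = a.Phi x + zvec k := by
  conv_lhs => rw [← a.Psi_Phi x, ← Psi_per, a.Phi_Psi]

lemma pN_Phi (x : Euc 5) : pNm a.ν (a.Phi x) = pNm a.ν x := by
  conv_rhs => rw [← a.Psi_Phi x, pN_Psi]

/-- the family of lifts -/
def F (t : ℝ) (x : Euc 5) : Euc 5 := Qm a.n t (Psi a.ν a.dl x)
/-- inverses -/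
def G (t : ℝ) (x : Euc 5) : Euc 5 := a.Phi (Qi a.n t x)

lemma F_joint : ContDiff ℝ ∞ (fun z : ℝ × Euc 5 => a.F z.1 z.2) :=
  (Qm_contDiff a.n).comp (contDiff_fst.prodMk ((Psi_contDiff a.ν a.dl).comp contDiff_snd))

lemma F_contDiff (t : ℝ) : ContDiff ℝ ∞ (a.F t) :=
  a.F_joint.comp (contDiff_const.prodMk contDiff_id)

lemma G_contDiff (t : ℝ) : ContDiff ℝ ∞ (a.G t) := a.Phi_contDiff.comp (Qi_contDiff a.n t)

lemma GF (t : ℝ) (x : Euc 5) : a.G t (a.F t x) = x := by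
  unfold F G; rw [Qi_Qm, a.Phi_Psi]
lemma FG (t : ℝ) (x : Euc 5) : a.F t (a.G t x) = x := by
  unfold F G; rw [a.Psi_Phi, Qm_Qi]

lemma Feq (t : ℝ) (x : Euc 5) (k : Fin 5 → ℤ) : a.F t (x + zvec k) = a.F t x + zvec (Lm a.n k) := by
  unfold F; rw [Psi_per, Qm_per]
lemma Geq (t : ℝ) (x : Euc 5) (k : Fin 5 → ℤ) : a.G t (x + zvec k) = a.G t x + zvec (Li a.n k) := by
  unfold G; rw [Qi_per, a.Phi_per]

lemma p_Qm (t : ℝ) (x : Euc 5) : pc a.ν (Qm a.n t x) = a.ν ^ 2 * pc a.ν x := by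
  have h := a.hν
  rw [pc_apply, pc_apply]
  simp only [Qm, vec5_3, vec5_4]
  linear_combination (-(a.ν * x 3) - x 4 - a.n * x 3) * h

lemma w_Qm (t : ℝ) (x : Euc 5) : wc a.ν (Qm a.n t x) = (a.ν ^ 2)⁻¹ * wc a.ν x := by
  have h := a.hν
  have h1 := a.hν1
  have h0 : a.ν ≠ 0 := by linarith
  have h0' : a.ν ^ 2 ≠ 0 := by positivity
  rw [eq_inv_mul_iff_mul_eq₀ h0']
  rw [wc_apply, wc_apply]
  simp only [Qm, vec5_3, vec5_4]
  have hn : (a.n:ℝ) * a.ν = a.ν ^ 2 - 1 := by linarith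
  have e : a.ν ^ 2 * (-(((a.n:ℝ) ^ 2 + 1) * x 3 + a.n * x 4) + a.ν * (a.n * x 3 + x 4)) =
      -((a.n:ℝ) * a.ν) ^ 2 * x 3 - a.ν ^ 2 * x 3 - ((a.n:ℝ) * a.ν) * a.ν * x 4 +
        a.ν ^ 2 * ((a.n:ℝ) * a.ν) * x 3 + a.ν ^ 2 * a.ν * x 4 := by ring
  rw [e, hn]; ring

lemma pF (t : ℝ) (x : Euc 5) : pc a.ν (a.F t x) = a.ν ^ 2 * (pc a.ν x + a.dl * xip a.ν x) := by
  unfold F; rw [p_Qm, p_Psi]
lemma wF (t : ℝ) (x : Euc 5) : wc a.ν (a.F t x) = (a.ν ^ 2)⁻¹ * (wc a.ν x + a.dl * xiw a.ν x) := by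
  unfold F; rw [w_Qm, w_Psi]

lemma pN_Qm (t : ℝ) {x y : Euc 5} (h : pNm a.ν x = pNm a.ν y) :
    pNm a.ν (Qm a.n t x) = pNm a.ν (Qm a.n t y) := by
  rw [pNm_apply, pNm_apply] at h
  have h0 : x 0 = y 0 := by simpa using congrArg (fun z : Euc 5 => z 0) h
  have h1 : x 1 = y 1 := by simpa using congrArg (fun z : Euc 5 => z 1) h
  have h2 : x 2 = y 2 := by simpa using congrArg (fun z : Euc 5 => z 2) h
  rw [pNm_apply, pNm_apply]
  simp only [Qm, vec5_0, vec5_1, vec5_2, h0, h1, h2]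

lemma pN_Qi (t : ℝ) (x : Euc 5) : pNm a.ν (Qi a.n t x) = Rm t x := by
  rw [pNm_apply]; rfl

lemma pN_pNm (x : Euc 5) : pNm a.ν (pNm a.ν x) = pNm a.ν x := by
  rw [pNm_apply a.ν (pNm a.ν x)]
  rw [pNm_apply]
  simp

lemma NF (t : ℝ) (x : Euc 5) : pNm a.ν (a.F t x) = pNm a.ν (a.F t (pNm a.ν x)) := by
  unfold F
  apply pN_Qm
  rw [pN_Psi, pN_Psi, pN_pNm]

lemma pN_G (t : ℝ) (x : Euc 5) : pNm a.ν (a.G t x) = Rm t x := by
  unfold G
  rw [pN_Phi, pN_Qi]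

lemma NG (t : ℝ) (x : Euc 5) : pNm a.ν (a.G t x) = pNm a.ν (a.G t (pNm a.ν x)) := by
  rw [pN_G, pN_G, pNm_apply]
  rfl

/-- the lift data at parameter `t` -/
def D (t : ℝ) (ht : t ∈ Icc (-1:ℝ) 1) : Lift 5 where
  F := a.F t
  G := a.G t
  hF := a.F_contDiff t
  hG := a.G_contDiff t
  GF := a.GF t
  FG := a.FG t
  L := Lm a.n
  L' := Li a.n
  Feq := a.Feq t
  Geq := a.Geq t
  ep := epv a.ν
  ew := ewv a.ν
  p := pc a.ν
  w := wc a.ν
  ξp := xip a.ν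
  ξw := xiw a.ν
  hξp := xip_contDiff a.ν
  hξw := xiw_contDiff a.ν
  perp := xip_per a.ν
  perw := xiw_per a.ν
  μ := a.ν ^ 2
  Kg := a.Kg
  dl := a.dl
  M := a.M
  pep := p_ep a.ν
  pew := p_ew a.ν
  wep := w_ep a.ν
  wew := w_ew a.ν
  nep := n_ep a.ν
  new := n_ew a.ν
  hμ := a.hμ
  hKg := a.hKg
  hμK := a.hμK
  hdl := a.hdl.le
  hM := a.hM
  bp := a.bp
  bw := a.bw
  hdsmall := a.hdsmall
  pF := a.pF t
  wF := a.wF t
  pN := pNm a.ν
  hpN := Lyap.hpN a.ν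
  ppN := Lyap.ppN a.ν
  wpN := Lyap.wpN a.ν
  NF := a.NF t
  NG := a.NG t
  hR := by
    intro x
    have : (fun x => pNm a.ν (a.G t x)) = Rm t := funext (a.pN_G t)
    rw [this]
    exact a.hR t ht x

end Par

end

end Pool.Agent.H14.Lyap
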