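import Mathlib

open MeasureTheory Set Filter Topology ContDiff

namespace Pool.Agent.H14.Lyap

noncomputable section

/-!
Throughout, a flat closed manifold `T` is given by a covering map `c : E → T` from a Euclidean
space `E`, together with a (measurable) section `s : T → E` of `c`. Maps of `T` are given by
lifts `F : E → E`, and tangent spaces of `T` are identified with `E` by `c`.
-/

section General

variable {E T : Type} [NormedAddCommGroup E] [InnerProductSpace ℝ E]

/-- `F : E → E` is a lift, under `c : E → T`, of a `C^∞` diffeomorphism of `T`. -/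
def IsLiftedDiffeo (c : E → T) (F : E → E) : Prop :=
  ContDiff ℝ ∞ F ∧ (∀ x y, c x = c y ↔ c (F x) = c (F y)) ∧
    ∃ G : E → E, ContDiff ℝ ∞ G ∧ (∀ x, G (F x) = x) ∧ (∀ x, F (G x) = x)

/-- The projections `P θ` encode a dominated splitting `E₁ ⊕ E₂` (with `E₁ = range (P θ)` and
`E₂ = ker (P θ)`) of the tangent bundle of `T` for the map of `T` with lift `F`. -/
def IsDominatedSplitting [TopologicalSpace T] (c : E → T) (F : E → E) (P : T → E →L[ℝ] E) :
    Prop :=
  Continuous P ∧ (∀ θ u, P θ (P θ u) = P θ u) ∧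
    (∀ x u, fderiv ℝ F x (P (c x) u) = P (c (F x)) (fderiv ℝ F x u)) ∧
    ∃ C τ : ℝ, 0 < C ∧ 0 < τ ∧ τ < 1 ∧ ∀ (x : E) (n : ℕ) (u v : E),
      P (c x) u = u → P (c x) v = 0 → ‖u‖ = 1 → ‖v‖ = 1 →
        ‖fderiv ℝ F^[n] x u‖ ≤ C * τ ^ n * ‖fderiv ℝ F^[n] x v‖

/-- The absolute value of the determinant of the linear map `A : W → A(W)`: the square root of
the Gram determinant of the images of an orthonormal basis of `W`. -/
def absDetOn [FiniteDimensional ℝ E] (A : E →L[ℝ] E) (W : Submodule ℝ E) : ℝ :=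
  Real.sqrt (Matrix.gram ℝ (fun i => A (stdOrthonormalBasis ℝ W i))).det

/-- The integrated Lyapunov exponent, with respect to `μ`, of the sub-bundle `range P` for the
map of `T` with lift `F`. -/
def integratedExponent [FiniteDimensional ℝ E] [MeasurableSpace T] (s : T → E) (μ : Measure T)
    (F : E → E) (P : T → E →L[ℝ] E) : ℝ :=
  ∫ θ, Real.log (absDetOn (fderiv ℝ F (s θ)) (P θ).range) ∂μ

/-- `F` is a `C^∞` family, with parameter in `(-1,1)`, of lifts of `C^∞` diffeomorphisms of `T`,
each preserving `μ` and having the dominated splitting encoded by `P t`, whose first bundle is a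
line bundle. -/
def IsDominatedFamily [TopologicalSpace T] [MeasurableSpace T] (c : E → T) (s : T → E)
    (μ : Measure T) (F : ℝ → E → E) (P : ℝ → T → E →L[ℝ] E) : Prop :=
  ContDiff ℝ ∞ (fun z : ℝ × E => F z.1 z.2) ∧ ∀ t ∈ Ioo (-1 : ℝ) 1,
    IsLiftedDiffeo c (F t) ∧ IsDominatedSplitting c (F t) (P t) ∧
    (∀ θ, Module.finrank ℝ (P t θ).range = 1) ∧
    MeasurePreserving (fun θ => c (F t (s θ))) μ μ

end General

/-- Euclidean space `ℝ^d`. -/
abbrev Euc (d : ℕ) : Type := EuclideanSpace ℝ (Fin d)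

/-- The torus `(ℝ/ℤ)^d`. -/
abbrev Torus (d : ℕ) : Type := Fin d → UnitAddCircle

/-- The covering projection `ℝ^d → (ℝ/ℤ)^d`. -/
def proj {d : ℕ} (x : Euc d) : Torus d := fun i => ((x i : ℝ) : UnitAddCircle)

/-- The representative in `[0,1)^d` of a point of the torus. -/
def rep {d : ℕ} (θ : Torus d) : Euc d :=
  WithLp.toLp 2 (fun i => ((AddCircle.equivIco (1 : ℝ) 0 (θ i) : Ico (0 : ℝ) (0 + 1)) : ℝ))

end

end Pool.Agent.H14.Lyap
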