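import Pool.Agent.H14.LyapDefs

open MeasureTheory Set Filter Topology ContDiff

namespace Pool.Agent.H14.Lyap

noncomputable section

/-- the determinant on a line -/
lemma absDetOn_span {d : ℕ} (A : Euc d →L[ℝ] Euc d) (W : Submodule ℝ (Euc d)) {e : Euc d}
    (he : e ≠ 0) (hW : W = Submodule.span ℝ {e}) : absDetOn A W = ‖A e‖ / ‖e‖ := by
  have hfr : Module.finrank ℝ W = 1 := by
    rw [hW]; exact finrank_span_singleton he
  have hne : 0 < ‖e‖ := norm_pos_iff.mpr he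
  let k : Fin (Module.finrank ℝ W) := ⟨0, by rw [hfr]; norm_num⟩
  obtain ⟨c, hc⟩ : ∃ c : ℝ, c • e = ((stdOrthonormalBasis ℝ W k : W) : Euc d) := by
    have hx : ((stdOrthonormalBasis ℝ W k : W) : Euc d) ∈ Submodule.span ℝ {e} := by
      rw [← hW]; exact (stdOrthonormalBasis ℝ W k : W).2
    exact Submodule.mem_span_singleton.mp hx
  have hn : |c| * ‖e‖ = 1 := by
    rw [← Real.norm_eq_abs, ← norm_smul, hc]
    exact (stdOrthonormalBasis ℝ W).orthonormal.1 k
  have hdet : (Matrix.gram ℝ (fun i => A (stdOrthonormalBasis ℝ W i))).det =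
      ‖A ((stdOrthonormalBasis ℝ W k : W) : Euc d)‖ ^ 2 := by
    rw [Matrix.det_eq_elem_of_card_eq_one (by rw [Fintype.card_fin, hfr]) k]
    rw [Matrix.gram_apply, real_inner_self_eq_norm_sq]
  unfold absDetOn
  rw [hdet, Real.sqrt_sq (norm_nonneg _), ← hc, map_smul, norm_smul, Real.norm_eq_abs]
  rw [eq_div_iff hne.ne']
  calc |c| * ‖A e‖ * ‖e‖ = (|c| * ‖e‖) * ‖A e‖ := by ring
    _ = ‖A e‖ := by rw [hn, one_mul]

end

end Pool.Agent.H14.Lyap
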