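import Pool.Agent.H14.LyapKernel2

open MeasureTheory Set Filter Topology ContDiff

namespace Pool.Agent.H14.Lyap

noncomputable section

lemma dd_hasDeriv {h : ℝ} {G G' : ℝ → ℝ} (hG : ∀ t, HasDerivAt G (G' t) t) (t : ℝ) :
    HasDerivAt (dd h G) (dd h G' t) t := by
  unfold dd
  have h1 : HasDerivAt (fun t => G (t + h)) (G' (t + h)) t := (hG (t + h)).comp_add_const t h
  have h2 : HasDerivAt (fun t => G (t - h)) (G' (t - h)) t := (hG (t - h)).comp_sub_const t h
  exact (((hG t).const_mul 2).sub h1).sub h2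

lemma dd_iter_hasDeriv {h : ℝ} (l : ℕ) {G G' : ℝ → ℝ} (hG : ∀ t, HasDerivAt G (G' t) t) (t : ℝ) :
    HasDerivAt ((dd h)^[l] G) ((dd h)^[l] G' t) t := by
  induction l generalizing G G' t with
  | zero => exact hG t
  | succ l ih =>
    simp only [Function.iterate_succ_apply]
    exact ih (fun t => dd_hasDeriv hG t) t

lemma dd_le_of_deriv2 {h M : ℝ} (hh : 0 ≤ h) {G G' G'' : ℝ → ℝ} (hG : ∀ t, HasDerivAt G (G' t) t)
    (hG' : ∀ t, HasDerivAt G' (G'' t) t) (hM : ∀ t, |G'' t| ≤ M) (t : ℝ) :
    |dd h G t| ≤ M * h ^ 2 := by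
  have h1 : ∀ s, |G' (s + h) - G' s| ≤ M * h := by
    intro s
    have := Convex.norm_image_sub_le_of_norm_hasDerivWithin_le (f := G') (f' := G'') (s := univ)
      (x := s) (y := s + h) (C := M) (fun x _ => (hG' x).hasDerivWithinAt)
      (fun x _ => by simpa using hM x) convex_univ (mem_univ _) (mem_univ _)
    simpa [abs_of_nonneg hh] using this
  have h2 : |(fun s => G (s + h) - G s) t - (fun s => G (s + h) - G s) (t - h)| ≤ (M * h) * h := by
    have := Convex.norm_image_sub_le_of_norm_hasDerivWithin_le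
      (f := fun s => G (s + h) - G s) (f' := fun s => G' (s + h) - G' s) (s := univ)
      (x := t - h) (y := t) (C := M * h)
      (fun x _ => (((hG (x + h)).comp_add_const x h).sub (hG x)).hasDerivWithinAt)
      (fun x _ => by simpa using h1 x) convex_univ (mem_univ _) (mem_univ _)
    simpa [abs_of_nonneg hh] using this
  have e : dd h G t = -((fun s => G (s + h) - G s) t - (fun s => G (s + h) - G s) (t - h)) := by
    simp only [dd]; rw [show t - h + h = t by ring]; ring
  rw [e, abs_neg]
  calc _ ≤ (M * h) * h := h2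
    _ = M * h ^ 2 := by ring

lemma dd_iter_le {M : ℝ} (l : ℕ) {G : ℝ → ℝ} (hG : ContDiff ℝ ∞ G)
    (hM : ∀ t, |iteratedDeriv (2 * l) G t| ≤ M) {h : ℝ} (hh : 0 ≤ h) (t : ℝ) :
    |(dd h)^[l] G t| ≤ M * h ^ (2 * l) := by
  induction l generalizing G t with
  | zero => simpa using hM t
  | succ l ih =>
    have hd1 : ContDiff ℝ ∞ (deriv G) := (contDiff_infty_iff_deriv.mp hG).2
    have hd2 : ContDiff ℝ ∞ (deriv (deriv G)) := (contDiff_infty_iff_deriv.mp hd1).2
    have a1 : ∀ t, HasDerivAt G (deriv G t) t := fun t =>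
      (hG.differentiable (by simp) t).hasDerivAt
    have a2 : ∀ t, HasDerivAt (deriv G) (deriv (deriv G) t) t := fun t =>
      (hd1.differentiable (by simp) t).hasDerivAt
    have ih' := ih hd2 (fun t => by
      have : iteratedDeriv (2 * l) (deriv (deriv G)) = iteratedDeriv (2 * (l + 1)) G := by
        rw [show 2 * (l + 1) = 2 * l + 1 + 1 by ring, iteratedDeriv_succ', iteratedDeriv_succ']
      rw [this]; exact hM t)
    rw [Function.iterate_succ_apply']
    have := dd_le_of_deriv2 hh (G := (dd h)^[l] G) (G' := (dd h)^[l] (deriv G))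
      (G'' := (dd h)^[l] (deriv (deriv G))) (dd_iter_hasDeriv l a1) (dd_iter_hasDeriv l a2)
      (M := M * h ^ (2 * l)) ih' t
    calc _ ≤ M * h ^ (2 * l) * h ^ 2 := this
      _ = M * h ^ (2 * (l + 1)) := by ring

lemma dd_local {h : ℝ} (hh : 0 ≤ h) (l : ℕ) {G K : ℝ → ℝ} {ρ : ℝ}
    (heq : ∀ t, |t| ≤ ρ → G t = K t) (t : ℝ) (ht : |t| + l * h ≤ ρ) :
    (dd h)^[l] G t = (dd h)^[l] K t := by
  induction l generalizing t with
  | zero => exact heq t (by simpa using ht)
  | succ l ih =>
    simp only [Function.iterate_succ_apply', dd]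
    push_cast at ht
    have e0 : |t| + l * h ≤ ρ := by nlinarith [abs_nonneg t]
    have e1 : |t + h| + l * h ≤ ρ := by
      have := abs_add_le t h; rw [abs_of_nonneg hh] at this; nlinarith
    have e2 : |t - h| + l * h ≤ ρ := by
      have := abs_sub t h; rw [abs_of_nonneg hh] at this; nlinarith
    rw [ih t e0, ih _ e1, ih _ e2]

/-- A function smooth on `(-1,1)` has small iterated differences at `0`. -/
lemma smooth_dd_bound {G : ℝ → ℝ} (hG : ContDiffOn ℝ ∞ G (Ioo (-1) 1)) (l : ℕ) :
    ∃ C : ℝ, ∀ h : ℝ, 0 ≤ h → l * h ≤ 1 / 4 → |(dd h)^[l] G 0| ≤ C * h ^ (2 * l) := by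
  let f : ContDiffBump (0 : ℝ) := ⟨1 / 4, 1 / 2, by norm_num, by norm_num⟩
  let Gt : ℝ → ℝ := fun t => f t * G t
  have hGt : ContDiff ℝ ∞ Gt := by
    rw [contDiff_iff_contDiffAt]
    intro x
    by_cases hx : x ∈ Ioo (-1 : ℝ) 1
    · exact f.contDiff.contDiffAt.mul (hG.contDiffAt (isOpen_Ioo.mem_nhds hx))
    · have hev : Gt =ᶠ[𝓝 x] fun _ => 0 := by
        have hx2 : x ∈ (Metric.closedBall (0:ℝ) (1 / 2))ᶜ := by
          simp only [mem_compl_iff, Metric.mem_closedBall, dist_zero_right, Real.norm_eq_abs, not_le]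
          simp only [mem_Ioo, not_and_or, not_lt] at hx
          rcases hx with hx | hx
          · rw [abs_of_neg (by linarith)]; linarith
          · rw [abs_of_pos (by linarith)]; linarith
        filter_upwards [Metric.isClosed_closedBall.isOpen_compl.mem_nhds hx2] with y hy
        have : f y = 0 := by
          apply f.zero_of_le_dist
          simp only [mem_compl_iff, Metric.mem_closedBall, not_le] at hy
          exact hy.le
        simp [Gt, this]
      exact contDiffAt_const.congr_of_eventuallyEq hev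
  have hcs : HasCompactSupport Gt := f.hasCompactSupport.mul_right
  obtain ⟨C, hC⟩ : ∃ C, ∀ t, |iteratedDeriv (2 * l) Gt t| ≤ C := by
    have hcs2 : HasCompactSupport (iteratedDeriv (2 * l) Gt) := by
      have : ∀ m, HasCompactSupport (iteratedDeriv m Gt) := by
        intro m
        induction m with
        | zero => simpa using hcs
        | succ m ih => rw [iteratedDeriv_succ]; exact ih.deriv
      exact this _
    have hcont : Continuous (iteratedDeriv (2 * l) Gt) :=
      hGt.continuous_iteratedDeriv (2 * l) (WithTop.coe_le_coe.2 le_top)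
    obtain ⟨C, hC⟩ := hcs2.exists_bound_of_continuous hcont
    exact ⟨C, fun t => by simpa using hC t⟩
  refine ⟨C, fun h hh hl => ?_⟩
  have heq : ∀ t, |t| ≤ 1 / 4 → G t = Gt t := by
    intro t ht
    have : f t = 1 := f.one_of_mem_closedBall (by
      rw [mem_closedBall_zero_iff, Real.norm_eq_abs]; exact ht)
    simp [Gt, this]
  rw [dd_local hh l heq 0 (by simpa using hl)]
  exact dd_iter_le l hGt hC hh 0

end

end Pool.Agent.H14.Lyap
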