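import Pool.Agent.H14.LyapKernel2

open MeasureTheory Set Filter Topology

namespace Pool.Agent.H14.Lyap

noncomputable section

lemma circ_integral (f : UnitAddCircle → ℝ) :
    ∫ θ, f θ ∂hm = ∫ x in (0:ℝ)..1, f (x : UnitAddCircle) := by
  have h1 := AddCircle.intervalIntegral_preimage 1 0 f
  have h2 : (volume : Measure UnitAddCircle) = hm := by
    have := AddCircle.volume_eq_smul_haarAddCircle (T := 1)
    rw [this]; simp [hm]
  rw [← h2, ← h1]
  simp

/-- lower bound for the energy of the first difference -/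
lemma en_lower {g : C(UnitAddCircle, ℝ)} {r : ℝ} (hr : 0 < r) (hr1 : r ≤ 1)
    (h0 : g ((0:ℝ) : UnitAddCircle) = 1) (h1 : g (r : UnitAddCircle) = 0) :
    ∃ K₀ : ℕ, ∀ K : ℕ, K₀ ≤ K → 0 < K → r / (4 * (K:ℝ) ^ 2) ≤ en ((r / K : ℝ) : UnitAddCircle) g 1 := by
  set G : ℝ → ℝ := fun x => g (x : UnitAddCircle) with hG
  have hGc : Continuous G := g.continuous.comp (AddCircle.continuous_mk' 1)
  have hG0 : G 0 = 1 := h0
  have hGr : G r = 0 := h1
  have hF : Continuous (fun x => G x - G (x + r)) := hGc.sub (hGc.comp (by fun_prop))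
  have hev : ∀ᶠ x in 𝓝 (0:ℝ), 1 / 2 < G x - G (x + r) := by
    apply hF.continuousAt.eventually_const_lt
    simp only [zero_add, hG0, hGr]; norm_num
  obtain ⟨δ, hδ, hball⟩ := Metric.eventually_nhds_iff.mp hev
  obtain ⟨K₀, hK₀⟩ := exists_nat_gt (r / δ)
  refine ⟨K₀, fun K hK hKpos => ?_⟩
  have hKr : (0:ℝ) < K := by exact_mod_cast hKpos
  set η : ℝ := r / K with hη
  have hη0 : 0 < η := by positivity
  have hηδ : η < δ := by
    have h2 : r / δ < K := hK₀.trans_le (by exact_mod_cast hK)
    rw [hη, div_lt_iff₀ hKr]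
    rw [div_lt_iff₀ hδ] at h2
    linarith
  set D : ℝ → ℝ := fun x => (G (x + η) - G x) ^ 2 with hD
  have hDc : Continuous D := ((hGc.comp (by fun_prop)).sub hGc).pow 2
  have hint : ∀ a b, IntervalIntegrable D volume a b := fun a b => hDc.intervalIntegrable a b
  have hen : en ((r / K : ℝ) : UnitAddCircle) g 1 = ∫ x in (0:ℝ)..1, D x := by
    unfold en
    rw [circ_integral]
    apply intervalIntegral.integral_congr
    intro x _
    simp only [Function.iterate_one, sd, ContinuousMap.coe_mk, hD, hG, hη, AddCircle.coe_add]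
  have hpt : ∀ x ∈ Icc (0:ℝ) η, 1 / 4 ≤ K * ∑ j ∈ Finset.range K, D (x + j * η) := by
    intro x hx
    have hx2 : 1 / 2 < G x - G (x + r) := by
      apply hball
      rw [Real.dist_eq, sub_zero, abs_of_nonneg hx.1]
      exact lt_of_le_of_lt hx.2 hηδ
    have htel : ∑ j ∈ Finset.range K, (G (x + j * η + η) - G (x + j * η)) = G (x + r) - G x := by
      have := Finset.sum_range_sub (fun j : ℕ => G (x + j * η)) K
      have e1 : x + (K:ℝ) * η = x + r := by
        rw [hη]; field_simp
      simp only [e1, Nat.cast_zero, zero_mul, add_zero] at this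
      rw [← this]
      apply Finset.sum_congr rfl
      intro j _
      congr 2
      push_cast; ring
    have hcs : (∑ j ∈ Finset.range K, (G (x + j * η + η) - G (x + j * η))) ^ 2 ≤
        K * ∑ j ∈ Finset.range K, (G (x + j * η + η) - G (x + j * η)) ^ 2 := by
      have := sq_sum_le_card_mul_sum_sq (s := Finset.range K)
        (f := fun j : ℕ => G (x + j * η + η) - G (x + j * η))
      simpa using this
    rw [htel] at hcs
    calc (1:ℝ) / 4 ≤ (G (x + r) - G x) ^ 2 := by nlinarith
      _ ≤ _ := hcs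
  have hsumint : ∫ x in (0:ℝ)..η, (K * ∑ j ∈ Finset.range K, D (x + j * η)) =
      K * ∫ x in (0:ℝ)..r, D x := by
    rw [intervalIntegral.integral_const_mul, intervalIntegral.integral_finset_sum]
    · congr 1
      have h3 : ∀ j ∈ Finset.range K, ∫ x in (0:ℝ)..η, D (x + j * η) =
          ∫ x in ((j:ℝ) * η)..(((j + 1 : ℕ) : ℝ) * η), D x := by
        intro j _
        rw [intervalIntegral.integral_comp_add_right]
        congr 1
        · ring
        · push_cast; ring
      rw [Finset.sum_congr rfl h3]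
      rw [intervalIntegral.sum_integral_adjacent_intervals (a := fun j : ℕ => (j:ℝ) * η)
        (fun j _ => hint _ _)]
      congr 1
      · simp
      · rw [hη]; field_simp
    · intro j _
      exact (hDc.comp (by fun_prop)).intervalIntegrable _ _
  have hle1 : (1 / 4) * η ≤ K * ∫ x in (0:ℝ)..r, D x := by
    rw [← hsumint]
    have : (1 / 4) * η = ∫ _x in (0:ℝ)..η, (1 / 4 : ℝ) := by
      rw [intervalIntegral.integral_const]; simp; ring
    rw [this]
    apply intervalIntegral.integral_mono_on hη0.le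
    · exact _root_.intervalIntegrable_const
    · apply Continuous.intervalIntegrable
      refine continuous_const.mul (continuous_finset_sum _ fun j _ => hDc.comp (by fun_prop))
    · exact hpt
  have hle2 : ∫ x in (0:ℝ)..r, D x ≤ ∫ x in (0:ℝ)..1, D x := by
    apply intervalIntegral.integral_mono_interval le_rfl hr.le hr1
    · exact Eventually.of_forall fun x => sq_nonneg _
    · exact hint _ _
  rw [hen]
  have h5 : (1 / 4) * η ≤ K * ∫ x in (0:ℝ)..1, D x := by
    calc _ ≤ _ := hle1
      _ ≤ _ := by gcongr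
  have h6 : r / (4 * (K:ℝ) ^ 2) = (1 / 4 * η) / K := by
    rw [hη]; field_simp
  rw [h6, div_le_iff₀ hKr]
  linarith

end

end Pool.Agent.H14.Lyap
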