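import Pool.Agent.H14.LyapMeasure
import Pool.Agent.H14.LyapDiff
import Pool.Agent.H14.LyapEn

open MeasureTheory Set Filter Topology ContDiff

namespace Pool.Agent.H14.Lyap

noncomputable section

/-- angle where the transition function vanishes -/
def th2 (n : ℕ) : ℝ := phi (TT n) (1 / 4)

lemma th2_pos (n : ℕ) : 0 < th2 n := by
  unfold th2
  rw [phi_quarter]
  have h1 : 0 < Real.arctan (Real.exp (-2 * TT n)) := by
    rw [Real.arctan_pos]; exact Real.exp_pos _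
  have := Real.pi_pos
  positivity

lemma arctan_le_self' {x : ℝ} (hx : 0 ≤ x) : Real.arctan x ≤ x := by
  have h1 : 0 ≤ Real.arctan x := by rwa [Real.arctan_nonneg]
  have h2 := Real.le_tan h1 (Real.arctan_lt_pi_div_two x)
  rwa [Real.tan_arctan] at h2

lemma th2_le (n : ℕ) : th2 n ≤ Real.exp (-2 * TT n) := by
  unfold th2
  rw [phi_quarter]
  have h1 := arctan_le_self' (Real.exp_pos (-2 * TT n)).le
  have h2 : 1 / Real.pi ≤ 1 := by
    rw [div_le_one Real.pi_pos]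
    linarith [Real.pi_gt_three]
  have h3 : 0 ≤ Real.arctan (Real.exp (-2 * TT n)) := by
    rw [Real.arctan_nonneg]; exact (Real.exp_pos _).le
  have h4 : 0 ≤ 1 / Real.pi := by have := Real.pi_pos; positivity
  calc 1 / Real.pi * Real.arctan (Real.exp (-2 * TT n)) ≤ 1 * Real.exp (-2 * TT n) := by gcongr
    _ = _ := one_mul _

lemma th2_le_one (n : ℕ) : th2 n ≤ 1 := by
  refine (th2_le n).trans ?_
  rw [Real.exp_le_one_iff]
  have := TT_nonneg n
  linarith

lemma gC_zero (n : ℕ) : gC n ((0:ℝ) : UnitAddCircle) = 1 := by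
  rw [gC_coe, phi_zero_right]; simp

lemma gC_th2 (n : ℕ) : gC n (th2 n : UnitAddCircle) = 0 := by
  rw [gC_coe]
  unfold th2
  rw [phi_inv]
  have : 2 * Real.pi * (1 / 4) = Real.pi / 2 := by ring
  rw [this, Real.cos_pi_div_two]

variable (a : Par)

/-- chosen positive definite remainder -/
def kR (n : ℕ) : K2 := if hn : 0 < n then (exists_kernel a hn).choose else 0

lemma kR_spec {n : ℕ} (hn : 0 < n) : kR a n ∈ PD ∧ ‖zet a n + kR a n‖ ≤ 1 ∧
    ∀ (t : ℝ) (ht : t ∈ Icc (-1:ℝ) 1) (θ : UnitAddCircle),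
      ∑ i ∈ Finset.range (8 * n), Real.log ((a.D t ht).S.m (zz n t i θ)) =
        -((8 * n : ℕ) : ℝ) * Real.log (a.ν ^ 2) +
          (zet a n + kR a n) (θ, θ + ((TT n * t : ℝ) : UnitAddCircle)) := by
  unfold kR
  rw [dif_pos hn]
  exact (exists_kernel a hn).choose_spec

/-- summands of the exponent -/
def KK (j : ℕ) (t : ℝ) : ℝ := (1 / 2 : ℝ) ^ (j + 1) * (-Real.log (a.ν ^ 2) +
  (((8 * (4 * (j + 1)) : ℕ) : ℝ))⁻¹ * corr (TT (4 * (j + 1)))
    (zet a (4 * (j + 1)) + kR a (4 * (j + 1))) t)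

/-- global extension of the exponent -/
def GG (t : ℝ) : ℝ := ∑' j, KK a j t

lemma exponent_eq {t : ℝ} (ht : t ∈ Icc (-1:ℝ) 1) :
    integratedExponent rep muM (a.F t) (a.D t ht).S.P = GG a t := by
  rw [exponent_eq_integral, integral_muM]
  unfold GG KK
  congr 1
  funext j
  rw [integral_logm_nuN a ht (by omega) (kR_spec a (by omega)).2.2]

def Mj (j : ℕ) : ℝ := (1 / 2 : ℝ) ^ (j + 1) * (|Real.log (a.ν ^ 2)| + 1)

lemma Mj_summable : Summable (Mj a) := by
  unfold Mj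
  apply Summable.mul_right
  have := summable_geometric_of_lt_one (r := (1 / 2 : ℝ)) (by norm_num) (by norm_num)
  exact (summable_nat_add_iff 1).mpr this

lemma KK_bound (j : ℕ) (t : ℝ) : |KK a j t| ≤ Mj a j := by
  unfold KK Mj
  rw [abs_mul, abs_of_nonneg (by positivity : (0:ℝ) ≤ (1 / 2) ^ (j + 1))]
  have h1 := corr_bound (TT (4 * (j + 1))) (zet a (4 * (j + 1)) + kR a (4 * (j + 1))) t
  have h2 := (kR_spec a (n := 4 * (j + 1)) (by omega)).2.1
  have h3 : (((8 * (4 * (j + 1)) : ℕ) : ℝ))⁻¹ ≤ 1 := by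
    apply inv_le_one_of_one_le₀
    exact_mod_cast (by omega : 1 ≤ 8 * (4 * (j + 1)))
  have h4 : 0 ≤ (((8 * (4 * (j + 1)) : ℕ) : ℝ))⁻¹ := by positivity
  gcongr
  calc _ ≤ |-Real.log (a.ν ^ 2)| + |(((8 * (4 * (j + 1)) : ℕ) : ℝ))⁻¹ *
        corr (TT (4 * (j + 1))) (zet a (4 * (j + 1)) + kR a (4 * (j + 1))) t| := abs_add_le _ _
    _ ≤ |Real.log (a.ν ^ 2)| + 1 := by
        rw [abs_neg, abs_mul, abs_of_nonneg h4]
        gcongr
        calc _ ≤ (1:ℝ) * 1 := by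
              gcongr
              exact h1.trans h2
          _ = 1 := one_mul 1

/-- iterated differences of the summands -/
lemma dd_KK (h : ℝ) (l j : ℕ) (t : ℝ) : (dd h)^[l + 1] (KK a j) t =
    ((1 / 2 : ℝ) ^ (j + 1) * (((8 * (4 * (j + 1)) : ℕ) : ℝ))⁻¹) *
      (dd h)^[l + 1] (corr (TT (4 * (j + 1)))
        (zet a (4 * (j + 1)) + kR a (4 * (j + 1)))) t := by
  have e : KK a j = (fun _ : ℝ => (1 / 2 : ℝ) ^ (j + 1) * -Real.log (a.ν ^ 2)) +
      (fun t => ((1 / 2 : ℝ) ^ (j + 1) * (((8 * (4 * (j + 1)) : ℕ) : ℝ))⁻¹) *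
        corr (TT (4 * (j + 1))) (zet a (4 * (j + 1)) + kR a (4 * (j + 1))) t) := by
    funext s
    simp only [KK, Pi.add_apply]
    ring
  rw [e, dd_iter_add, dd_iter_const, dd_iter_smul]
  simp only [Pi.add_apply, zero_add]

lemma dd_kernel_lower (h : ℝ) (l n : ℕ) (hn : 0 < n) :
    (a.dl ^ 2 * (B0 a n * C0 a n)) * en ((TT n * h : ℝ) : UnitAddCircle) (gC n) l ≤
      (dd h)^[l] (corr (TT n) (zet a n + kR a n)) 0 := by
  rw [corr_add, dd_iter_add, Pi.add_apply]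
  have h1 := PD_dd_nonneg (TT n) h l (kR_spec a hn).1
  have h2 : corr (TT n) (zet a n) = fun t =>
      (a.dl ^ 2 * (B0 a n * C0 a n)) * corr (TT n) (tens (gC n)) t := by
    funext t
    unfold corr
    rw [← integral_const_mul]
    rfl
  rw [h2, dd_iter_smul, dd_iter_corr_tens]
  simp only [corr_tens_zero]
  unfold en
  linarith

lemma dd_kernel_nonneg (h : ℝ) (l n : ℕ) (hn : 0 < n) :
    0 ≤ (dd h)^[l] (corr (TT n) (zet a n + kR a n)) 0 :=
  PD_dd_nonneg (TT n) h l (PD.add_mem (zet_mem a n) (kR_spec a hn).1)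

lemma GG_lower (h : ℝ) (l j : ℕ) :
    ((1 / 2 : ℝ) ^ (j + 1) * (((8 * (4 * (j + 1)) : ℕ) : ℝ))⁻¹) *
      ((a.dl ^ 2 * (B0 a (4 * (j + 1)) * C0 a (4 * (j + 1)))) *
        en ((TT (4 * (j + 1)) * h : ℝ) : UnitAddCircle) (gC (4 * (j + 1))) (l + 1)) ≤
      (dd h)^[l + 1] (GG a) 0 := by
  have e := dd_iter_tsum (h := h) (l + 1) (Mj_summable a) (KK_bound a)
  have e2 : (dd h)^[l + 1] (GG a) 0 = ∑' j, (dd h)^[l + 1] (KK a j) 0 := by
    have := congrFun e 0
    exact this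
  rw [e2]
  have hsum : Summable (fun j => (dd h)^[l + 1] (KK a j) 0) :=
    Summable.of_norm_bounded ((Mj_summable a).mul_left (4 ^ (l + 1)))
      (fun j => by simpa using dd_iter_bound (h := h) (l + 1) (KK_bound a j) 0)
  have hnn : ∀ j, 0 ≤ (dd h)^[l + 1] (KK a j) 0 := by
    intro j
    rw [dd_KK]
    exact mul_nonneg (by positivity) (dd_kernel_nonneg a h (l + 1) _ (by omega))
  refine le_trans ?_ (hsum.le_tsum j (fun i _ => hnn i))
  rw [dd_KK]
  apply mul_le_mul_of_nonneg_left _ (by positivity)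
  exact dd_kernel_lower a h (l + 1) _ (by omega)

lemma coef_lower {b : ℝ} (hb : 0 ≤ b) (h : ∀ x ∈ Icc (1 / 32 : ℝ) (3 / 32), b ≤ bump x) {m : ℕ}
    (hm : 0 < m) : b ^ 2 * (kap a ^ 16) ^ m ≤ B0 a (4 * m) * C0 a (4 * m) := by
  have hm' : (0:ℝ) < m := by exact_mod_cast hm
  have hk := kap_pos a
  have h1 : kap a ^ (13 * m) * b ≤ B0 a (4 * m) := by
    unfold B0
    have hmem : 13 * m ∈ Finset.range (8 * (4 * m)) := by rw [Finset.mem_range]; omega
    refine le_trans ?_ (Finset.single_le_sum (f := fun j : ℕ =>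
      kap a ^ j * bet (j / (8 * ((4 * m : ℕ) : ℝ)))) (fun j _ => ?_) hmem)
    · gcongr
      unfold bet
      apply h
      have : (((13 * m : ℕ) : ℝ)) / (8 * ((4 * m : ℕ) : ℝ)) - 3 / 8 = 1 / 32 := by
        push_cast; field_simp; norm_num
      rw [this]; constructor <;> norm_num
    · exact mul_nonneg (pow_nonneg hk.le _) (bump_nonneg _)
  have h2 : kap a ^ (3 * m) * b ≤ C0 a (4 * m) := by
    unfold C0
    have hmem : 29 * m ∈ Finset.range (8 * (4 * m)) := by rw [Finset.mem_range]; omega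
    refine le_trans ?_ (Finset.single_le_sum (f := fun j : ℕ =>
      kap a ^ (8 * (4 * m) - j) * gam (j / (8 * ((4 * m : ℕ) : ℝ)))) (fun j _ => ?_) hmem)
    · have e : 8 * (4 * m) - 29 * m = 3 * m := by omega
      rw [e]
      gcongr
      unfold gam
      apply h
      have : (((29 * m : ℕ) : ℝ)) / (8 * ((4 * m : ℕ) : ℝ)) - 7 / 8 = 1 / 32 := by
        push_cast; field_simp; norm_num
      rw [this]; constructor <;> norm_num
    · exact mul_nonneg (pow_nonneg hk.le _) (bump_nonneg _)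
  calc b ^ 2 * (kap a ^ 16) ^ m = (kap a ^ (13 * m) * b) * (kap a ^ (3 * m) * b) := by
        rw [← pow_mul]
        have : kap a ^ (16 * m) = kap a ^ (13 * m) * kap a ^ (3 * m) := by
          rw [← pow_add]; congr 1; ring
        rw [this]; ring
    _ ≤ _ := by
        apply mul_le_mul h1 h2 (by positivity)
        exact B0_nonneg a _

/-- The exponent is not smooth. -/
theorem GG_not_smooth : ¬ ContDiffOn ℝ ∞ (GG a) (Ioo (-1) 1) := by
  intro hsm
  obtain ⟨b, hb, hbl⟩ := exists_bump_lower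
  have hk := kap_pos a
  set ρ : ℝ := kap a ^ 16 / 4 with hρ
  have hρ0 : 0 < ρ := by positivity
  -- choose `l`
  obtain ⟨l, hl⟩ : ∃ l : ℕ, Real.exp (-2 * b) ^ (l + 1) ≤ ρ / 2 := by
    have hlt : Real.exp (-2 * b) < 1 := by rw [Real.exp_lt_one_iff]; linarith
    have htend := tendsto_pow_atTop_nhds_zero_of_lt_one (Real.exp_pos (-2 * b)).le hlt
    have hev := htend.eventually_lt_const (show (0:ℝ) < ρ / 2 by positivity)
    obtain ⟨N, hN⟩ := (eventually_atTop.mp hev)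
    exact ⟨N, (hN (N + 1) (by omega)).le⟩
  obtain ⟨C, hC⟩ := smooth_dd_bound hsm (l + 1)
  set L : ℕ := l + 1 with hL
  -- the basic inequality
  have key : ∀ m : ℕ, 0 < m → 1 ≤ m * b →
      (1 / 32) * a.dl ^ 2 * b ^ 2 * 2 ^ m ≤ |C| * 4 ^ L := by
    intro m hm hmb
    have hm' : (0:ℝ) < m := by exact_mod_cast hm
    obtain ⟨j, rfl⟩ : ∃ j, m = j + 1 := ⟨m - 1, by omega⟩
    set n : ℕ := 4 * (j + 1) with hn
    set T : ℝ := TT n with hT
    have hTb : ((j + 1 : ℕ) : ℝ) * b ≤ T := TT_lower hb.le hbl (by omega)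
    have hT1 : 1 ≤ T := hmb.trans hTb
    have hTpos : 0 < T := by linarith
    set r : ℝ := th2 n with hr
    have hr0 : 0 < r := th2_pos n
    obtain ⟨K₀, hK₀⟩ := en_lower (g := gC n) hr0 (th2_le_one n) (gC_zero n) (gC_th2 n)
    obtain ⟨K₁, hK₁⟩ := exists_nat_ge (4 * L * r / T)
    set K : ℕ := max (max K₀ K₁) 1 with hKdef
    have hKpos : 0 < K := by omega
    have hKr : (0:ℝ) < K := by exact_mod_cast hKpos
    have hen := hK₀ K (by omega) hKpos
    set h : ℝ := r / (K * T) with hh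
    have hh0 : 0 ≤ h := by positivity
    have hTh : T * h = r / K := by rw [hh]; field_simp
    have hLh : (L:ℝ) * h ≤ 1 / 4 := by
      have h1 : 4 * L * r / T ≤ K := hK₁.trans (by exact_mod_cast (by omega : K₁ ≤ K))
      rw [div_le_iff₀ hTpos] at h1
      rw [hh, ← mul_div_assoc, div_le_iff₀ (by positivity)]
      linarith
    have hup := (le_abs_self _).trans (hC h hh0 hLh)
    have hlow := GG_lower a h l j
    rw [← hn, ← hT, hTh] at hlow
    have hpow := en_pow (a := ((r / K : ℝ) : UnitAddCircle)) (φ := gC n) (en_zero_le (gC_le n)) l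
    have hcoef := coef_lower a hb.le hbl hm
    rw [← hn] at hcoef
    have hE : (r / (4 * (K:ℝ) ^ 2)) ^ L ≤ en ((r / K : ℝ) : UnitAddCircle) (gC n) (l + 1) := by
      refine le_trans ?_ hpow
      have : 0 ≤ r / (4 * (K:ℝ) ^ 2) := by positivity
      exact pow_le_pow_left₀ this hen _
    have h2m : ((j + 1 : ℕ) : ℝ) ≤ 2 ^ (j + 1) := by
      exact_mod_cast (Nat.lt_two_pow_self (n := j + 1)).le
    have hN : (1 / 32) * (1 / 2 : ℝ) ^ (j + 1) ≤ (((8 * n : ℕ) : ℝ))⁻¹ := by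
      have e : ((8 * n : ℕ) : ℝ) = 32 * ((j + 1 : ℕ) : ℝ) := by rw [hn]; push_cast; ring
      rw [e, mul_inv, one_div, one_div, inv_pow]
      gcongr
    -- lower bound
    have hA : (1 / 32) * a.dl ^ 2 * b ^ 2 * ρ ^ (j + 1) * (r / (4 * (K:ℝ) ^ 2)) ^ L ≤
        |C| * h ^ (2 * L) := by
      calc (1 / 32) * a.dl ^ 2 * b ^ 2 * ρ ^ (j + 1) * (r / (4 * (K:ℝ) ^ 2)) ^ L
          = ((1 / 2 : ℝ) ^ (j + 1) * ((1 / 32) * (1 / 2 : ℝ) ^ (j + 1))) *
              ((a.dl ^ 2 * (b ^ 2 * (kap a ^ 16) ^ (j + 1))) * (r / (4 * (K:ℝ) ^ 2)) ^ L) := by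
            rw [hρ, div_pow]
            have : (4:ℝ) ^ (j + 1) = 2 ^ (j + 1) * 2 ^ (j + 1) := by rw [← mul_pow]; norm_num
            rw [this, one_div_pow]
            field_simp
        _ ≤ ((1 / 2 : ℝ) ^ (j + 1) * (((8 * n : ℕ) : ℝ))⁻¹) *
              ((a.dl ^ 2 * (B0 a n * C0 a n)) *
                en ((r / K : ℝ) : UnitAddCircle) (gC n) (l + 1)) := by
            have h3 := B0_nonneg a n; have h4 := C0_nonneg a n
            gcongr
        _ ≤ (dd h)^[L] (GG a) 0 := hlow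
        _ ≤ C * h ^ (2 * L) := hup
        _ ≤ |C| * h ^ (2 * L) := by gcongr; exact le_abs_self C
    -- simplify
    have hB : (1 / 32) * a.dl ^ 2 * b ^ 2 * ρ ^ (j + 1) ≤ |C| * 4 ^ L * (r ^ L / T ^ (2 * L)) := by
      have e1 : (r / (4 * (K:ℝ) ^ 2)) ^ L = r ^ L / (4 ^ L * K ^ (2 * L)) := by
        rw [div_pow, mul_pow, ← pow_mul]
      have e2 : h ^ (2 * L) = r ^ L * r ^ L / (K ^ (2 * L) * T ^ (2 * L)) := by
        rw [hh, div_pow, mul_pow, two_mul, pow_add]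
      rw [e1, e2] at hA
      have hrL : 0 < r ^ L := by positivity
      have hKL : (0:ℝ) < K ^ (2 * L) := by positivity
      have hTL : (0:ℝ) < T ^ (2 * L) := by positivity
      have h5 : (1 / 32) * a.dl ^ 2 * b ^ 2 * ρ ^ (j + 1) =
          ((1 / 32) * a.dl ^ 2 * b ^ 2 * ρ ^ (j + 1) * (r ^ L / (4 ^ L * K ^ (2 * L)))) *
            ((4 ^ L * K ^ (2 * L)) / r ^ L) := by
        field_simp
      rw [h5]
      calc _ ≤ (|C| * (r ^ L * r ^ L / (K ^ (2 * L) * T ^ (2 * L)))) *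
            ((4 ^ L * K ^ (2 * L)) / r ^ L) := by gcongr
        _ = |C| * 4 ^ L * (r ^ L / T ^ (2 * L)) := by field_simp
    have hrexp : r ^ L ≤ (ρ / 2) ^ (j + 1) := by
      calc r ^ L ≤ (Real.exp (-2 * T)) ^ L := by
            exact pow_le_pow_left₀ hr0.le (th2_le n) _
        _ ≤ (Real.exp (-2 * (((j + 1 : ℕ) : ℝ) * b))) ^ L :=
            pow_le_pow_left₀ (Real.exp_pos _).le (Real.exp_le_exp.mpr (by linarith)) _
        _ = (Real.exp (-2 * b) ^ L) ^ (j + 1) := by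
            rw [← Real.exp_nat_mul, ← Real.exp_nat_mul, ← Real.exp_nat_mul]
            congr 1; ring
        _ ≤ (ρ / 2) ^ (j + 1) := by
            gcongr
    have hTL : r ^ L / T ^ (2 * L) ≤ (ρ / 2) ^ (j + 1) := by
      rw [div_le_iff₀ (by positivity)]
      calc r ^ L ≤ (ρ / 2) ^ (j + 1) := hrexp
        _ = (ρ / 2) ^ (j + 1) * 1 := (mul_one _).symm
        _ ≤ _ := by
            gcongr
            exact one_le_pow₀ hT1
    have hfin : (1 / 32) * a.dl ^ 2 * b ^ 2 * ρ ^ (j + 1) ≤ |C| * 4 ^ L * (ρ / 2) ^ (j + 1) := by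
      refine hB.trans ?_
      gcongr
    rw [div_pow ρ 2 (j + 1)] at hfin
    have hρj : 0 < ρ ^ (j + 1) := by positivity
    have h2j : (0:ℝ) < 2 ^ (j + 1) := by positivity
    have e3 : |C| * 4 ^ L * (ρ ^ (j + 1) / 2 ^ (j + 1)) = (|C| * 4 ^ L / 2 ^ (j + 1)) * ρ ^ (j + 1) := by
      ring
    rw [e3] at hfin
    have h6 := le_of_mul_le_mul_right hfin hρj
    rwa [le_div_iff₀ h2j] at h6
  -- contradiction
  have hpos : 0 < (1 / 32) * a.dl ^ 2 * b ^ 2 := by
    have := a.hdl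
    positivity
  obtain ⟨m0, hm0⟩ := exists_nat_ge (1 / b)
  obtain ⟨m1, hm1⟩ := exists_nat_gt (|C| * 4 ^ L / ((1 / 32) * a.dl ^ 2 * b ^ 2))
  set m := max (max m0 m1) 1 with hm
  have h1 := key m (by omega) (by
    have : 1 / b ≤ m := hm0.trans (by exact_mod_cast (by omega : m0 ≤ m))
    rwa [div_le_iff₀ hb] at this)
  have h2 : (m:ℝ) ≤ 2 ^ m := by exact_mod_cast (Nat.lt_two_pow_self (n := m)).le
  have h3 : |C| * 4 ^ L / ((1 / 32) * a.dl ^ 2 * b ^ 2) < m :=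
    hm1.trans_le (by exact_mod_cast (by omega : m1 ≤ m))
  rw [div_lt_iff₀ hpos] at h3
  nlinarith

end

end Pool.Agent.H14.Lyap
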