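import Mathlib

open MeasureTheory Set Filter Topology

namespace Pool.Agent.H14.Lyap

noncomputable section

/-- normalised Haar measure on the circle -/
abbrev hm : Measure UnitAddCircle := AddCircle.haarAddCircle

/-- second difference operator -/
def dd (h : ℝ) (K : ℝ → ℝ) : ℝ → ℝ := fun t => 2 * K t - K (t + h) - K (t - h)

lemma dd_add (h : ℝ) (K L : ℝ → ℝ) : dd h (K + L) = dd h K + dd h L := by
  funext t; simp only [dd, Pi.add_apply]; ring

lemma dd_smul (h c : ℝ) (K : ℝ → ℝ) : dd h (fun t => c * K t) = fun t => c * dd h K t := by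
  funext t; simp only [dd]; ring

lemma dd_iter_add (h : ℝ) (l : ℕ) (K L : ℝ → ℝ) :
    (dd h)^[l] (K + L) = (dd h)^[l] K + (dd h)^[l] L := by
  induction l generalizing K L with
  | zero => rfl
  | succ l ih => simp only [Function.iterate_succ_apply, dd_add, ih]

lemma dd_iter_smul (h c : ℝ) (l : ℕ) (K : ℝ → ℝ) :
    (dd h)^[l] (fun t => c * K t) = fun t => c * (dd h)^[l] K t := by
  induction l generalizing K with
  | zero => rfl
  | succ l ih => simp only [Function.iterate_succ_apply, dd_smul, ih]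

lemma dd_const (h c : ℝ) : dd h (fun _ => c) = fun _ => 0 := by
  funext t; simp only [dd]; ring

lemma dd_iter_zero (h : ℝ) (l : ℕ) : (dd h)^[l] (fun _ => (0:ℝ)) = fun _ => 0 := by
  induction l with
  | zero => rfl
  | succ l ih => rw [Function.iterate_succ_apply, dd_const, ih]

lemma dd_iter_const (h c : ℝ) (l : ℕ) : (dd h)^[l + 1] (fun _ => c) = fun _ => 0 := by
  rw [Function.iterate_succ_apply, dd_const, dd_iter_zero]

lemma dd_bound {h M : ℝ} {K : ℝ → ℝ} (hK : ∀ t, |K t| ≤ M) (t : ℝ) : |dd h K t| ≤ 4 * M := by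
  have h1 := hK t; have h2 := hK (t + h); have h3 := hK (t - h)
  simp only [dd]
  rw [abs_le] at *
  constructor <;> linarith

lemma dd_iter_bound {h : ℝ} (l : ℕ) {M : ℝ} {K : ℝ → ℝ} (hK : ∀ t, |K t| ≤ M) (t : ℝ) :
    |(dd h)^[l] K t| ≤ 4 ^ l * M := by
  induction l generalizing K M with
  | zero => simpa using hK t
  | succ l ih =>
    rw [Function.iterate_succ_apply]
    have := ih (K := dd h K) (M := 4 * M) (fun t => dd_bound hK t)
    calc _ ≤ 4 ^ l * (4 * M) := this
      _ = 4 ^ (l + 1) * M := by ring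

lemma dd_tsum {h : ℝ} {K : ℕ → ℝ → ℝ} {M : ℕ → ℝ} (hM : Summable M)
    (hK : ∀ n t, |K n t| ≤ M n) :
    dd h (fun t => ∑' n, K n t) = fun t => ∑' n, dd h (K n) t := by
  have hs : ∀ t, Summable (fun n => K n t) := fun t =>
    Summable.of_norm_bounded hM (fun n => by simpa using hK n t)
  funext t
  simp only [dd]
  rw [Summable.tsum_sub, Summable.tsum_sub, tsum_mul_left]
  · exact (hs t).mul_left 2
  · exact hs (t + h)
  · exact ((hs t).mul_left 2).sub (hs (t + h))
  · exact hs (t - h)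

lemma dd_iter_tsum {h : ℝ} (l : ℕ) {K : ℕ → ℝ → ℝ} {M : ℕ → ℝ} (hM : Summable M)
    (hK : ∀ n t, |K n t| ≤ M n) :
    (dd h)^[l] (fun t => ∑' n, K n t) = fun t => ∑' n, (dd h)^[l] (K n) t := by
  induction l generalizing K M with
  | zero => rfl
  | succ l ih =>
    simp only [Function.iterate_succ_apply]
    rw [dd_tsum hM hK, ih (K := fun n => dd h (K n)) (M := fun n => 4 * M n)
      (hM.mul_left 4) (fun n t => dd_bound (hK n) t)]

/-- the correlation function of a kernel -/
def corr (T : ℝ) (k : C(UnitAddCircle × UnitAddCircle, ℝ)) (t : ℝ) : ℝ :=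
  ∫ θ, k (θ, θ + ((T * t : ℝ) : UnitAddCircle)) ∂hm

lemma integrable_cont {X : Type*} [TopologicalSpace X] [CompactSpace X] [MeasurableSpace X]
    [BorelSpace X] {μ : Measure X} [IsFiniteMeasure μ] {f : X → ℝ} (hf : Continuous f) :
    Integrable f μ := by
  obtain ⟨C, hC⟩ := (isCompact_univ (X := X)).exists_bound_of_continuousOn hf.continuousOn
  exact Integrable.of_bound hf.aestronglyMeasurable C (Eventually.of_forall fun x => hC x (mem_univ x))

lemma corr_integrable (T : ℝ) (k : C(UnitAddCircle × UnitAddCircle, ℝ)) (t : ℝ) :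
    Integrable (fun θ => k (θ, θ + ((T * t : ℝ) : UnitAddCircle))) hm := by
  apply integrable_cont
  fun_prop

lemma corr_add (T : ℝ) (k k' : C(UnitAddCircle × UnitAddCircle, ℝ)) :
    corr T (k + k') = corr T k + corr T k' := by
  funext t
  simp only [corr, ContinuousMap.add_apply, Pi.add_apply]
  rw [integral_add (corr_integrable T k t) (corr_integrable T k' t)]

lemma corr_bound (T : ℝ) (k : C(UnitAddCircle × UnitAddCircle, ℝ)) (t : ℝ) :
    |corr T k t| ≤ ‖k‖ := by
  unfold corr
  have h := norm_integral_le_of_norm_le_const (μ := hm)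
    (f := fun θ => k (θ, θ + ((T * t : ℝ) : UnitAddCircle))) (C := ‖k‖)
    (Eventually.of_forall fun θ => k.norm_coe_le_norm _)
  simpa using h

lemma corr_zero (T : ℝ) : corr T 0 = fun _ => 0 := by
  funext t; simp [corr]

lemma corr_neg (T : ℝ) (k : C(UnitAddCircle × UnitAddCircle, ℝ)) :
    corr T (-k) = fun t => (-1) * corr T k t := by
  funext t
  simp only [corr, ContinuousMap.neg_apply]
  rw [integral_neg]; ring

/-- shift-difference of a function on the circle -/
def sd (a : UnitAddCircle) (φ : C(UnitAddCircle, ℝ)) : C(UnitAddCircle, ℝ) :=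
  ⟨fun θ => φ (θ + a) - φ θ, by fun_prop⟩

/-- rank-one kernel -/
def tens (φ : C(UnitAddCircle, ℝ)) : C(UnitAddCircle × UnitAddCircle, ℝ) :=
  ⟨fun p => φ p.1 * φ p.2, by fun_prop⟩

lemma integral_shift (f : UnitAddCircle → ℝ) (a : UnitAddCircle) :
    ∫ θ, f (θ + a) ∂hm = ∫ θ, f θ ∂hm :=
  integral_add_right_eq_self f a

lemma dd_corr_tens (T h : ℝ) (φ : C(UnitAddCircle, ℝ)) :
    dd h (corr T (tens φ)) = corr T (tens (sd ((T * h : ℝ) : UnitAddCircle) φ)) := by
  funext t
  simp only [dd, corr, tens, sd, ContinuousMap.coe_mk]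
  set a : UnitAddCircle := ((T * h : ℝ) : UnitAddCircle) with ha
  set b : UnitAddCircle := ((T * t : ℝ) : UnitAddCircle) with hb
  have e1 : ((T * (t + h) : ℝ) : UnitAddCircle) = b + a := by
    rw [ha, hb, ← AddCircle.coe_add]; congr 1; ring
  have e2 : ((T * (t - h) : ℝ) : UnitAddCircle) = b - a := by
    rw [ha, hb, ← AddCircle.coe_sub]; congr 1; ring
  rw [e1, e2]
  have i1 : ∫ θ, φ (θ + a) * φ (θ + b + a) ∂hm = ∫ θ, φ θ * φ (θ + b) ∂hm := by
    have := integral_shift (fun θ => φ θ * φ (θ + b)) a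
    rw [← this]
    congr 1; funext θ
    congr 2
    abel
  have i2 : ∫ θ, φ (θ + a) * φ (θ + b) ∂hm = ∫ θ, φ θ * φ (θ + (b - a)) ∂hm := by
    have := integral_shift (fun θ => φ θ * φ (θ + (b - a))) a
    rw [← this]
    congr 1; funext θ
    congr 2
    abel
  have hexp : ∀ θ : UnitAddCircle, (φ (θ + a) - φ θ) * (φ (θ + b + a) - φ (θ + b)) =
      ((φ (θ + a) * φ (θ + b + a) + φ θ * φ (θ + b)) - φ (θ + a) * φ (θ + b)) -
        φ θ * φ (θ + (b + a)) := by
    intro θ
    rw [show θ + (b + a) = θ + b + a by abel]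
    ring
  have hint : ∀ f : UnitAddCircle → ℝ, Continuous f → Integrable f hm :=
    fun f hf => integrable_cont hf
  calc 2 * ∫ θ, φ θ * φ (θ + b) ∂hm - ∫ θ, φ θ * φ (θ + (b + a)) ∂hm
        - ∫ θ, φ θ * φ (θ + (b - a)) ∂hm
      = (((∫ θ, φ (θ + a) * φ (θ + b + a) ∂hm) + ∫ θ, φ θ * φ (θ + b) ∂hm)
          - ∫ θ, φ (θ + a) * φ (θ + b) ∂hm) - ∫ θ, φ θ * φ (θ + (b + a)) ∂hm := by
        rw [i1, i2]; ring
    _ = ∫ θ, (((φ (θ + a) * φ (θ + b + a) + φ θ * φ (θ + b)) - φ (θ + a) * φ (θ + b)) -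
        φ θ * φ (θ + (b + a))) ∂hm := by
        rw [integral_sub, integral_sub, integral_add]
        all_goals apply hint; fun_prop
    _ = _ := by
        congr 1; funext θ; rw [hexp θ]

lemma dd_iter_corr_tens (T h : ℝ) (l : ℕ) (φ : C(UnitAddCircle, ℝ)) :
    (dd h)^[l] (corr T (tens φ)) =
      corr T (tens ((sd ((T * h : ℝ) : UnitAddCircle))^[l] φ)) := by
  induction l generalizing φ with
  | zero => rfl
  | succ l ih => simp only [Function.iterate_succ_apply, dd_corr_tens, ih]

lemma corr_tens_zero (T : ℝ) (φ : C(UnitAddCircle, ℝ)) :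
    corr T (tens φ) 0 = ∫ θ, φ θ ^ 2 ∂hm := by
  simp only [corr, tens, ContinuousMap.coe_mk, mul_zero, AddCircle.coe_zero, add_zero]
  congr 1; funext θ; ring

/-- the multiplicative monoid of rank-one kernels -/
def genMonoid : Submonoid C(UnitAddCircle × UnitAddCircle, ℝ) where
  carrier := {k | ∃ φ : C(UnitAddCircle, ℝ), k = tens φ}
  mul_mem' := by
    rintro a b ⟨φ, rfl⟩ ⟨ψ, rfl⟩
    refine ⟨φ * ψ, ?_⟩
    ext p
    simp only [tens, ContinuousMap.mul_apply, ContinuousMap.coe_mk]; ring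
  one_mem' := by
    refine ⟨1, ?_⟩
    ext p
    simp [tens]

/-- positive definite kernels (closure of finite sums of rank-one kernels) -/
def PD : Subsemiring C(UnitAddCircle × UnitAddCircle, ℝ) :=
  genMonoid.subsemiringClosure.topologicalClosure

lemma tens_mem_PD (φ : C(UnitAddCircle, ℝ)) : tens φ ∈ PD := by
  apply Subsemiring.le_topologicalClosure
  have : (tens φ) ∈ (genMonoid.subsemiringClosure : Set _) := by
    rw [Submonoid.subsemiringClosure_coe]
    exact AddSubmonoid.subset_closure ⟨φ, rfl⟩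
  exact this

lemma const_mem_PD {c : ℝ} (hc : 0 ≤ c) :
    (ContinuousMap.const (UnitAddCircle × UnitAddCircle) c) ∈ PD := by
  have : ContinuousMap.const (UnitAddCircle × UnitAddCircle) c =
      tens (ContinuousMap.const UnitAddCircle (Real.sqrt c)) := by
    ext p
    simp [tens, Real.mul_self_sqrt hc]
  rw [this]; exact tens_mem_PD _

lemma isClosed_PD : IsClosed (PD : Set C(UnitAddCircle × UnitAddCircle, ℝ)) :=
  Subsemiring.isClosed_topologicalClosure _

lemma continuous_corr (T t : ℝ) :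
    Continuous (fun k : C(UnitAddCircle × UnitAddCircle, ℝ) => corr T k t) := by
  rw [Metric.continuous_iff]
  intro k ε hε
  refine ⟨ε, hε, fun k' hk' => ?_⟩
  have h1 : corr T k' t - corr T k t = corr T (k' - k) t := by
    rw [sub_eq_add_neg k' k, corr_add, corr_neg]; simp only [Pi.add_apply]; ring
  rw [Real.dist_eq, h1]
  calc _ ≤ ‖k' - k‖ := corr_bound _ _ _
    _ = dist k' k := (dist_eq_norm _ _).symm
    _ < ε := hk'

lemma continuous_dd_iter (T h : ℝ) (l : ℕ) (t : ℝ) :
    Continuous (fun k : C(UnitAddCircle × UnitAddCircle, ℝ) => (dd h)^[l] (corr T k) t) := by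
  induction l generalizing t with
  | zero => exact continuous_corr T t
  | succ l ih =>
    simp only [Function.iterate_succ_apply', dd]
    have h1 := ih t; have h2 := ih (t + h); have h3 := ih (t - h)
    exact ((continuous_const.mul h1).sub h2).sub h3

lemma PD_dd_nonneg (T h : ℝ) (l : ℕ) {k : C(UnitAddCircle × UnitAddCircle, ℝ)} (hk : k ∈ PD) :
    0 ≤ (dd h)^[l] (corr T k) 0 := by
  have hcl : IsClosed {k : C(UnitAddCircle × UnitAddCircle, ℝ) | 0 ≤ (dd h)^[l] (corr T k) 0} :=
    isClosed_le continuous_const (continuous_dd_iter T h l 0)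
  have hsub : (genMonoid.subsemiringClosure : Set C(UnitAddCircle × UnitAddCircle, ℝ)) ⊆
      {k | 0 ≤ (dd h)^[l] (corr T k) 0} := by
    rw [Submonoid.subsemiringClosure_coe]
    intro k hk
    induction hk using AddSubmonoid.closure_induction with
    | mem x hx =>
      obtain ⟨φ, rfl⟩ := hx
      simp only [mem_ofPred_eq]
      rw [dd_iter_corr_tens, corr_tens_zero]
      exact integral_nonneg fun θ => sq_nonneg _
    | zero =>
      simp only [mem_ofPred_eq, corr_zero, dd_iter_zero, le_refl]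
    | add x y _ _ hx hy =>
      simp only [mem_ofPred_eq] at *
      rw [corr_add, dd_iter_add, Pi.add_apply]
      exact add_nonneg hx hy
  have : (PD : Set C(UnitAddCircle × UnitAddCircle, ℝ)) ⊆ {k | 0 ≤ (dd h)^[l] (corr T k) 0} := by
    have := closure_minimal hsub hcl
    simpa [PD, Subsemiring.topologicalClosure_coe] using this
  exact this hk

end

end Pool.Agent.H14.Lyap
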