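import Pool.Agent.H14.LyapKernel

open MeasureTheory Set Filter Topology

namespace Pool.Agent.H14.Lyap

noncomputable section

lemma cs_circle {f g : UnitAddCircle → ℝ} (hf : Continuous f) (hg : Continuous g) :
    (∫ θ, f θ * g θ ∂hm) ^ 2 ≤ (∫ θ, f θ ^ 2 ∂hm) * ∫ θ, g θ ^ 2 ∂hm := by
  have hint : ∀ f : UnitAddCircle → ℝ, Continuous f → Integrable f hm :=
    fun f hf => integrable_cont hf
  have key : ∀ s : ℝ, 0 ≤ (∫ θ, g θ ^ 2 ∂hm) * (s * s) + (-2 * ∫ θ, f θ * g θ ∂hm) * s +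
      ∫ θ, f θ ^ 2 ∂hm := by
    intro s
    have h0 : 0 ≤ ∫ θ, (f θ - s * g θ) ^ 2 ∂hm := integral_nonneg fun θ => sq_nonneg _
    have h1 : ∫ θ, (f θ - s * g θ) ^ 2 ∂hm =
        ∫ θ, ((s * s) * g θ ^ 2 + (-2 * s) * (f θ * g θ)) + f θ ^ 2 ∂hm := by
      congr 1; funext θ; ring
    rw [h1, integral_add, integral_add, integral_const_mul, integral_const_mul] at h0
    · linarith
    all_goals apply hint; fun_prop
  have := discrim_le_zero key
  unfold discrim at this
  nlinarith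

/-- energy of iterated differences -/
def en (a : UnitAddCircle) (φ : C(UnitAddCircle, ℝ)) (j : ℕ) : ℝ :=
  ∫ θ, ((sd a)^[j] φ) θ ^ 2 ∂hm

lemma en_nonneg (a : UnitAddCircle) (φ : C(UnitAddCircle, ℝ)) (j : ℕ) : 0 ≤ en a φ j :=
  integral_nonneg fun θ => sq_nonneg _

lemma en_logconvex (a : UnitAddCircle) (φ : C(UnitAddCircle, ℝ)) (j : ℕ) :
    en a φ (j + 1) ^ 2 ≤ en a φ j * en a φ (j + 2) := by
  set ψ := (sd a)^[j] φ with hψ
  have e1 : (sd a)^[j + 1] φ = sd a ψ := by rw [Function.iterate_succ_apply']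
  have e2 : (sd a)^[j + 2] φ = sd a (sd a ψ) := by
    rw [Function.iterate_succ_apply', Function.iterate_succ_apply']
  have hint : ∀ f : UnitAddCircle → ℝ, Continuous f → Integrable f hm :=
    fun f hf => integrable_cont hf
  have key : en a φ (j + 1) = - ∫ θ, ψ (θ + a) * (sd a (sd a ψ)) θ ∂hm := by
    unfold en
    rw [e1]
    have s1 : ∫ θ, ψ θ * (sd a ψ) θ ∂hm = ∫ θ, ψ (θ + a) * (sd a ψ) (θ + a) ∂hm :=
      (integral_shift (fun θ => ψ θ * (sd a ψ) θ) a).symm
    have s2 : ∫ θ, (sd a ψ) θ ^ 2 ∂hm =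
        ∫ θ, ψ (θ + a) * (sd a ψ) θ ∂hm - ∫ θ, ψ θ * (sd a ψ) θ ∂hm := by
      rw [← integral_sub]
      · congr 1; funext θ; simp only [sd, ContinuousMap.coe_mk]; ring
      all_goals apply hint; fun_prop
    rw [s2, s1, ← integral_sub, ← integral_neg]
    · congr 1; funext θ; simp only [sd, ContinuousMap.coe_mk]; ring
    all_goals apply hint; fun_prop
  have hcs := cs_circle (f := fun θ => ψ (θ + a)) (g := fun θ => (sd a (sd a ψ)) θ)
    (by fun_prop) (by fun_prop)
  have sh : ∫ θ, ψ (θ + a) ^ 2 ∂hm = ∫ θ, ψ θ ^ 2 ∂hm := integral_shift (fun θ => ψ θ ^ 2) a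
  rw [sh] at hcs
  rw [key, neg_sq]
  unfold en
  rw [e2]
  exact hcs

lemma en_step {a : UnitAddCircle} {φ : C(UnitAddCircle, ℝ)} (h0 : en a φ 0 ≤ 1) (j : ℕ) :
    en a φ 1 * en a φ j ≤ en a φ (j + 1) := by
  induction j with
  | zero =>
    have := en_nonneg a φ 1
    calc en a φ 1 * en a φ 0 ≤ en a φ 1 * 1 := by gcongr
      _ = _ := by simp
  | succ j ih =>
    have hl := en_logconvex a φ j
    have n0 := en_nonneg a φ j
    have n1 := en_nonneg a φ (j + 1)
    have n2 := en_nonneg a φ (j + 2)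
    have m1 := en_nonneg a φ 1
    rcases eq_or_lt_of_le n0 with h | h
    · rw [← h] at hl
      have : en a φ (j + 1) = 0 := by nlinarith
      rw [this]; simpa using n2
    · have : en a φ 1 * en a φ (j + 1) * en a φ j ≤ en a φ (j + 2) * en a φ j := by
        calc en a φ 1 * en a φ (j + 1) * en a φ j = (en a φ 1 * en a φ j) * en a φ (j + 1) := by ring
          _ ≤ en a φ (j + 1) * en a φ (j + 1) := by gcongr
          _ = en a φ (j + 1) ^ 2 := by ring
          _ ≤ _ := by rw [mul_comm]; linarith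
      exact le_of_mul_le_mul_right this h

lemma en_pow {a : UnitAddCircle} {φ : C(UnitAddCircle, ℝ)} (h0 : en a φ 0 ≤ 1) (l : ℕ) :
    en a φ 1 ^ (l + 1) ≤ en a φ (l + 1) := by
  induction l with
  | zero => simp
  | succ l ih =>
    calc en a φ 1 ^ (l + 2) = en a φ 1 * en a φ 1 ^ (l + 1) := by ring
      _ ≤ en a φ 1 * en a φ (l + 1) := by
          have := en_nonneg a φ 1
          gcongr
      _ ≤ _ := en_step h0 (l + 1)

lemma en_zero_le {a : UnitAddCircle} {φ : C(UnitAddCircle, ℝ)} (h : ∀ θ, |φ θ| ≤ 1) :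
    en a φ 0 ≤ 1 := by
  unfold en
  simp only [Function.iterate_zero, id_eq]
  calc ∫ θ, φ θ ^ 2 ∂hm ≤ ∫ _θ, (1:ℝ) ∂hm := by
        apply integral_mono
        · exact integrable_cont (by fun_prop)
        · exact integrable_const _
        · intro θ
          have := h θ
          simp only
          rw [← sq_abs]
          have h2 := abs_nonneg (φ θ)
          nlinarith
    _ = 1 := by simp

abbrev K2 := C(UnitAddCircle × UnitAddCircle, ℝ)

lemma fixed_PD {ζ : K2} (hζ : ζ ∈ PD) (hn : ‖ζ‖ ≤ 1 / 10) {ε : ℝ} (h0 : 0 ≤ ε)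
    (h1 : ε ≤ 1 / 100) :
    ∃ Y ∈ PD, ‖Y‖ ≤ 1 / 2 ∧ ∀ p, Y p = ζ p * (1 + Y p) + ε * Y p + ε * Y p ^ 2 := by
  set c : ℝ := (1 - ε)⁻¹ with hc
  have hcpos : 0 < c := by rw [hc]; apply inv_pos.mpr; linarith
  have hc2 : c ≤ 100 / 99 := by
    rw [hc]; rw [inv_le_comm₀ (by linarith) (by norm_num)]; norm_num; linarith
  let Tm : K2 → K2 := fun Y => ContinuousMap.const _ c * (ζ * (1 + Y) + ContinuousMap.const _ ε * Y ^ 2)
  let s : Set K2 := (PD : Set K2) ∩ Metric.closedBall 0 (1 / 2)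
  have hs : IsComplete s := (isClosed_PD.inter Metric.isClosed_closedBall).isComplete
  have nconst : ∀ r : ℝ, 0 ≤ r → ‖(ContinuousMap.const (UnitAddCircle × UnitAddCircle) r : K2)‖ ≤ r := by
    intro r hr
    rw [ContinuousMap.norm_le _ hr]
    intro x; simp [abs_of_nonneg hr]
  have hmaps : Set.MapsTo Tm s s := by
    rintro Y ⟨hY1, hY2⟩
    rw [mem_closedBall_zero_iff] at hY2
    refine ⟨?_, ?_⟩
    · apply PD.mul_mem (const_mem_PD hcpos.le)
      apply PD.add_mem (PD.mul_mem hζ (PD.add_mem PD.one_mem hY1))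
      exact PD.mul_mem (const_mem_PD h0) (PD.pow_mem hY1 2)
    · rw [mem_closedBall_zero_iff]
      calc ‖Tm Y‖ ≤ c * (‖ζ‖ * (1 + ‖Y‖) + ε * ‖Y‖ ^ 2) := by
            refine (norm_mul_le _ _).trans ?_
            gcongr
            · exact nconst c hcpos.le
            refine (norm_add_le _ _).trans ?_
            gcongr
            · refine (norm_mul_le _ _).trans ?_
              gcongr
              refine (norm_add_le _ _).trans ?_
              gcongr
              exact (CStarRing.norm_one (E := K2)).le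
            · refine (norm_mul_le _ _).trans ?_
              gcongr
              · exact nconst ε h0
              · exact norm_pow_le Y 2
        _ ≤ 100 / 99 * (1 / 10 * (1 + 1 / 2) + 1 / 100 * (1 / 2) ^ 2) := by gcongr
        _ ≤ 1 / 2 := by norm_num
  have hcontr : ContractingWith (1 / 2 : NNReal) (hmaps.restrict Tm s s) := by
    refine ⟨by norm_num, ?_⟩
    apply LipschitzWith.of_dist_le_mul
    rintro ⟨Y, hY1, hY2⟩ ⟨Z, hZ1, hZ2⟩
    rw [mem_closedBall_zero_iff] at hY2 hZ2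
    simp only [Subtype.dist_eq, MapsTo.val_restrict_apply]
    rw [dist_eq_norm, dist_eq_norm]
    have e : Tm Y - Tm Z = ContinuousMap.const _ c * ((ζ + ContinuousMap.const _ ε * (Y + Z)) * (Y - Z)) := by
      simp only [Tm]; ring
    rw [e]
    calc ‖ContinuousMap.const _ c * ((ζ + ContinuousMap.const _ ε * (Y + Z)) * (Y - Z))‖
        ≤ c * ((‖ζ‖ + ε * (‖Y‖ + ‖Z‖)) * ‖Y - Z‖) := by
          refine (norm_mul_le _ _).trans ?_
          gcongr
          · exact nconst c hcpos.le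
          refine (norm_mul_le _ _).trans ?_
          gcongr
          refine (norm_add_le _ _).trans ?_
          gcongr
          refine (norm_mul_le _ _).trans ?_
          gcongr
          · exact nconst ε h0
          · exact norm_add_le _ _
      _ ≤ 100 / 99 * ((1 / 10 + 1 / 100 * (1 / 2 + 1 / 2)) * ‖Y - Z‖) := by gcongr
      _ ≤ 1 / 2 * ‖Y - Z‖ := by
          have := norm_nonneg (Y - Z)
          nlinarith
      _ = _ := by norm_num
  obtain ⟨Y, ⟨hY1, hY2⟩, hfix, -, -⟩ := ContractingWith.exists_fixedPoint' hs hmaps hcontr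
    (x := 0) ⟨PD.zero_mem, by simp⟩ (edist_ne_top _ _)
  refine ⟨Y, hY1, by simpa using hY2, fun p => ?_⟩
  have h2 : Tm Y = Y := hfix
  have h3 : (Tm Y) p = Y p := by rw [h2]
  simp only [Tm, ContinuousMap.mul_apply, ContinuousMap.add_apply, ContinuousMap.const_apply,
    ContinuousMap.one_apply, ContinuousMap.pow_apply] at h3
  have h4 : (1 - ε) * Y p = ζ p * (1 + Y p) + ε * Y p ^ 2 := by
    rw [← h3, hc]
    have : (1 - ε) ≠ 0 := by linarith
    rw [← mul_assoc, mul_inv_cancel₀ this, one_mul]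
    rw [hc] at h3
    rw [h3]
  linarith

/-- The logarithmic kernel minus `ζ` is positive definite. -/
lemma log_PD {ζ Y : K2} (hζ : ζ ∈ PD) (hn : ‖ζ‖ ≤ 1 / 10) {ε : ℝ} (h0 : 0 ≤ ε)
    (h1 : ε ≤ 1 / 100) (hY : Y ∈ PD) (hYn : ‖Y‖ ≤ 1 / 2) :
    ∃ k ∈ PD, ∀ p, -Real.log (1 - (ζ p + ε * Y p)) = ζ p + k p := by
  set x : K2 := ζ + ContinuousMap.const _ ε * Y with hx
  have hxPD : x ∈ PD := PD.add_mem hζ (PD.mul_mem (const_mem_PD h0) hY)
  have hxn : ‖x‖ ≤ 1 / 2 := by
    calc ‖x‖ ≤ ‖ζ‖ + ε * ‖Y‖ := by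
          refine (norm_add_le _ _).trans ?_
          gcongr
          refine (norm_mul_le _ _).trans ?_
          gcongr
          rw [ContinuousMap.norm_le _ h0]
          intro x; simp [abs_of_nonneg h0]
      _ ≤ 1 / 10 + 1 / 100 * (1 / 2) := by gcongr
      _ ≤ 1 / 2 := by norm_num
  have hsum : Summable (fun n : ℕ => ((n : ℝ) + 2)⁻¹ • x ^ (n + 2)) := by
    apply Summable.of_norm_bounded (g := fun n : ℕ => (1 / 2 : ℝ) ^ n)
    · exact summable_geometric_of_lt_one (by norm_num) (by norm_num)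
    · intro n
      rw [norm_smul, Real.norm_eq_abs, abs_of_pos (by positivity)]
      calc ((n : ℝ) + 2)⁻¹ * ‖x ^ (n + 2)‖ ≤ 1 * ‖x‖ ^ (n + 2) := by
            gcongr
            · rw [inv_le_one₀ (by positivity)]
              have : (0:ℝ) ≤ n := Nat.cast_nonneg n
              linarith
            · exact norm_pow_le x (n + 2)
        _ ≤ 1 * (1 / 2) ^ (n + 2) := by gcongr
        _ ≤ (1 / 2) ^ n := by
            rw [pow_add]; have : (0:ℝ) < (1 / 2) ^ n := by positivity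
            nlinarith
  have hmem : (∑' n : ℕ, ((n : ℝ) + 2)⁻¹ • x ^ (n + 2)) ∈ PD := by
    have hcl : IsClosed (PD : Set K2) := isClosed_PD
    refine hcl.mem_of_tendsto hsum.hasSum (Eventually.of_forall fun t => ?_)
    apply PD.sum_mem
    intro n _
    have : ((n : ℝ) + 2)⁻¹ • x ^ (n + 2) =
        ContinuousMap.const (UnitAddCircle × UnitAddCircle) ((n : ℝ) + 2)⁻¹ * x ^ (n + 2) := by
      ext p; simp
    rw [this]
    exact PD.mul_mem (const_mem_PD (by positivity)) (PD.pow_mem hxPD _)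
  refine ⟨ContinuousMap.const _ ε * Y + ∑' n : ℕ, ((n : ℝ) + 2)⁻¹ • x ^ (n + 2),
    PD.add_mem (PD.mul_mem (const_mem_PD h0) hY) hmem, fun p => ?_⟩
  have hxp : |x p| ≤ 1 / 2 := by
    have := x.norm_coe_le_norm p
    rw [Real.norm_eq_abs] at this; linarith
  have hs := Real.hasSum_pow_div_log_of_abs_lt_one (x := x p) (by linarith)
  have hev : (∑' n : ℕ, ((n : ℝ) + 2)⁻¹ • x ^ (n + 2)) p = ∑' n : ℕ, x p ^ (n + 2) / ((n:ℝ) + 2) := by
    rw [← ContinuousMap.tsum_apply hsum p]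
    congr 1; funext n
    simp only [ContinuousMap.smul_apply, ContinuousMap.pow_apply, smul_eq_mul]
    rw [div_eq_inv_mul]
  have hs2 : -Real.log (1 - x p) = x p + ∑' n : ℕ, x p ^ (n + 2) / ((n:ℝ) + 2) := by
    rw [← hs.tsum_eq, hs.summable.tsum_eq_zero_add]
    simp only [zero_add, pow_one, Nat.cast_zero, div_one, Nat.cast_add, Nat.cast_one]
    congr 1
    congr 1; funext n
    congr 1; ring
  have hxpe : x p = ζ p + ε * Y p := by simp [hx]
  have hR : (ContinuousMap.const (UnitAddCircle × UnitAddCircle) ε * Y +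
      ∑' n : ℕ, ((n : ℝ) + 2)⁻¹ • x ^ (n + 2) : K2) p =
      ε * Y p + (∑' n : ℕ, ((n : ℝ) + 2)⁻¹ • x ^ (n + 2)) p := rfl
  rw [hR, hev, ← hxpe, hs2]
  linarith

end

end Pool.Agent.H14.Lyap
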