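import Pool.Agent.H14.LyapSplit

open Set Filter Topology

namespace Pool.Agent.H14.Lyap

noncomputable section

namespace Coc

variable {K V : Type} [TopologicalSpace K] [CompactSpace K] [NormedAddCommGroup V]
    [NormedSpace ℝ V] (c : Coc K V)

lemma pN_ep : c.pN c.ep = 0 := by
  have h := c.hpN c.ep
  rw [c.pep, c.wep, one_smul, zero_smul, add_zero] at h
  have : c.pN c.ep + c.ep = 0 + c.ep := by rw [← h]; simp
  exact add_right_cancel this

lemma pN_ew : c.pN c.ew = 0 := by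
  have h := c.hpN c.ew
  rw [c.pew, c.wew, one_smul, zero_smul, add_zero] at h
  have : c.pN c.ew + c.ew = 0 + c.ew := by rw [← h]; simp
  exact add_right_cancel this

lemma exists_b {v : C(K, ℝ)} (hv : ∀ z, |v z| ≤ 1 / 2) (he : ∀ z,
    v (c.f z) * (c.μ * ((1 + c.ηp z c.ep) - v z * c.ηp z c.ew)) =
      c.μ⁻¹ * ((1 + c.ηw z c.ew) * v z - c.ηw z c.ep)) :
    ∃ b : C(K, V →L[ℝ] ℝ), (∀ z, ‖b z‖ ≤ 1 / 10) ∧
      ∀ z x, b (c.f z) x = c.kk v z * b z (c.pN (c.B (c.f z) x)) -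
        c.μ⁻¹ * c.ηw z (c.pN (c.B (c.f z) x)) -
        v (c.f z) * c.μ * c.ηp z (c.pN (c.B (c.f z) x)) := by
  have hμ := c.μ_pos
  have hμi : 0 < c.μ⁻¹ := inv_pos.mpr hμ
  have hKg := c.hKg
  have hkkc : Continuous (c.kk v) := by
    unfold kk
    have : Continuous fun z => v (c.f z) := v.continuous.comp c.f.continuous
    fun_prop
  let T : C(K, V →L[ℝ] ℝ) → C(K, V →L[ℝ] ℝ) := fun b =>
    ⟨fun y => ((c.kk v (c.f.symm y)) • b (c.f.symm y) - c.μ⁻¹ • c.ηw (c.f.symm y) -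
        (v y * c.μ) • c.ηp (c.f.symm y)).comp (c.pN.comp (c.B y)), by
      have hs : Continuous fun y => c.f.symm y := c.f.symm.continuous
      have h1 : Continuous fun y => c.kk v (c.f.symm y) := hkkc.comp hs
      have h2 : Continuous fun y => b (c.f.symm y) := b.continuous.comp hs
      have h3 : Continuous fun y => c.ηw (c.f.symm y) := c.ηw.continuous.comp hs
      have h4 : Continuous fun y => c.ηp (c.f.symm y) := c.ηp.continuous.comp hs
      have h5 : Continuous fun y => c.pN.comp (c.B y) :=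
        (continuous_const.clm_comp c.B.continuous)
      have h6 : Continuous fun y => ((c.kk v (c.f.symm y)) • b (c.f.symm y) -
          c.μ⁻¹ • c.ηw (c.f.symm y) - (v y * c.μ) • c.ηp (c.f.symm y)) := by
        have h7 : Continuous fun y => v y * c.μ := v.continuous.mul continuous_const
        exact ((h1.smul h2).sub (h3.const_smul (c.μ⁻¹ : ℝ))).sub (h7.smul h4)
      exact h6.clm_comp h5⟩
  have hopB : ∀ y, ‖c.pN.comp (c.B y)‖ ≤ c.Kg := fun y =>
    ContinuousLinearMap.opNorm_le_bound _ (by linarith) (fun x => c.hB y x)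
  have hkk := c.kk_bound hv he
  have hvs := c.v_small hv he
  have hμK := c.hμK
  have hratio : 2 * c.μ⁻¹ * c.Kg ≤ 1 / 4 := by
    have : c.μ⁻¹ * (8 * c.Kg) ≤ c.μ⁻¹ * c.μ := by gcongr
    rw [inv_mul_cancel₀ hμ.ne'] at this
    linarith
  have hT : ContractingWith (1 / 2 : NNReal) T := by
    refine ⟨by norm_num, ?_⟩
    apply LipschitzWith.of_dist_le_mul
    intro b b'
    rw [ContinuousMap.dist_le (by positivity)]
    intro y
    set z := c.f.symm y with hz
    rw [dist_eq_norm]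
    have e : T b y - T b' y = (c.kk v z • (b z - b' z)).comp (c.pN.comp (c.B y)) := by
      ext x
      simp only [T, ContinuousMap.coe_mk, _root_.sub_apply,
        ContinuousLinearMap.comp_apply, _root_.smul_apply, smul_eq_mul, ← hz]
      ring
    rw [e]
    have h3 : ‖b z - b' z‖ ≤ dist b b' := by
      have := ContinuousMap.dist_apply_le_dist (f := b) (g := b') z
      rwa [dist_eq_norm] at this
    calc ‖(c.kk v z • (b z - b' z)).comp (c.pN.comp (c.B y))‖
        ≤ ‖c.kk v z • (b z - b' z)‖ * ‖c.pN.comp (c.B y)‖ := ContinuousLinearMap.opNorm_comp_le _ _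
      _ ≤ (|c.kk v z| * ‖b z - b' z‖) * c.Kg := by
          rw [norm_smul, Real.norm_eq_abs]
          gcongr
          exact hopB y
      _ ≤ (2 * c.μ⁻¹ * dist b b') * c.Kg := by
          gcongr
          exact hkk z
      _ = (2 * c.μ⁻¹ * c.Kg) * dist b b' := by ring
      _ ≤ 1 / 4 * dist b b' := by gcongr
      _ ≤ _ := by
          have : (0:ℝ) ≤ dist b b' := dist_nonneg
          simp only [one_div, NNReal.coe_inv, NNReal.coe_ofNat]
          linarith
  obtain ⟨b, hb⟩ : ∃ b, T b = b := ⟨_, hT.fixedPoint_isFixedPt⟩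
  have hbe : ∀ y, b y = ((c.kk v (c.f.symm y)) • b (c.f.symm y) - c.μ⁻¹ • c.ηw (c.f.symm y) -
        (v y * c.μ) • c.ηp (c.f.symm y)).comp (c.pN.comp (c.B y)) := by
    intro y
    conv_lhs => rw [← hb]
    rfl
  have hbn : ‖b‖ ≤ 1 / 10 := by
    have h1 : ‖b‖ ≤ 1 / 4 * ‖b‖ + 1 / 50 := by
      rw [ContinuousMap.norm_le _ (by positivity)]
      intro y
      obtain ⟨z, rfl⟩ : ∃ z, c.f z = y := ⟨c.f.symm y, c.f.apply_symm_apply y⟩
      rw [hbe]
      rw [c.f.symm_apply_apply]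
      have hdK : c.d * c.Kg ≤ 1 / 100 := by
        have h1 := c.hdsmall; have h2 := c.hd; have h3 := c.hKg; have h4 := c.hμ
        have h5 : 0 ≤ c.Kg * c.d := by positivity
        nlinarith
      calc ‖((c.kk v z) • b z - c.μ⁻¹ • c.ηw z - (v (c.f z) * c.μ) • c.ηp z).comp
            (c.pN.comp (c.B (c.f z)))‖
          ≤ ‖(c.kk v z) • b z - c.μ⁻¹ • c.ηw z - (v (c.f z) * c.μ) • c.ηp z‖ *
            ‖c.pN.comp (c.B (c.f z))‖ := ContinuousLinearMap.opNorm_comp_le _ _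
        _ ≤ (‖(c.kk v z) • b z‖ + ‖c.μ⁻¹ • c.ηw z‖ + ‖(v (c.f z) * c.μ) • c.ηp z‖) * c.Kg := by
            gcongr
            · exact (norm_sub_le _ _).trans (add_le_add_left (norm_sub_le _ _) _)
            · exact hopB _
        _ ≤ (2 * c.μ⁻¹ * ‖b‖ + 1 * c.d + 1 * c.d) * c.Kg := by
            rw [norm_smul, norm_smul, norm_smul]
            simp only [Real.norm_eq_abs]
            rw [abs_mul, abs_of_pos hμi, abs_of_pos hμ]
            have hm1 := c.μinv_le
            have hv1 := hvs z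
            gcongr
            · exact hkk z
            · exact b.norm_coe_le_norm z
            · linarith
            · exact c.hηw z
            · linarith
            · exact c.hηp z
        _ = (2 * c.μ⁻¹ * c.Kg) * ‖b‖ + 2 * (c.d * c.Kg) := by ring
        _ ≤ 1 / 4 * ‖b‖ + 1 / 50 := by
            have := norm_nonneg b
            nlinarith
    linarith
  refine ⟨b, fun z => (b.norm_coe_le_norm z).trans hbn, fun z x => ?_⟩
  rw [hbe (c.f z), c.f.symm_apply_apply]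
  simp only [ContinuousLinearMap.comp_apply, _root_.sub_apply,
    _root_.smul_apply, smul_eq_mul]

/-- The full splitting data. -/
structure Split where
  u : C(K, ℝ)
  hu : ∀ z, |u z| ≤ 1 / 2
  hue : ∀ z, c.μ⁻¹ * (1 + c.ηw z ((u z) • c.ep + c.ew)) * u (c.f z) =
      c.μ * (u z + c.ηp z ((u z) • c.ep + c.ew))
  v : C(K, ℝ)
  hv : ∀ z, |v z| ≤ 1 / 2
  hve : ∀ z, v (c.f z) * (c.μ * ((1 + c.ηp z c.ep) - v z * c.ηp z c.ew)) =
      c.μ⁻¹ * ((1 + c.ηw z c.ew) * v z - c.ηw z c.ep)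
  b : C(K, V →L[ℝ] ℝ)
  hb : ∀ z, ‖b z‖ ≤ 1 / 10
  hbe : ∀ z x, b (c.f z) x = c.kk v z * b z (c.pN (c.B (c.f z) x)) -
        c.μ⁻¹ * c.ηw z (c.pN (c.B (c.f z) x)) -
        v (c.f z) * c.μ * c.ηp z (c.pN (c.B (c.f z) x))

lemma exists_split : Nonempty (Split c) := by
  obtain ⟨u, hu, hue⟩ := c.exists_u
  obtain ⟨v, hv, hve⟩ := c.exists_v
  obtain ⟨b, hb, hbe⟩ := c.exists_b hv hve
  exact ⟨⟨u, hu, hue, v, hv, hve, b, hb, hbe⟩⟩

variable {c} (S : Split c)

namespace Split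

/-- spanning vector of the strong bundle -/
def e (z : K) : V := (S.u z) • c.ep + c.ew

/-- multiplier along the strong bundle -/
def m (z : K) : ℝ := c.μ⁻¹ * (1 + c.ηw z (S.e z))

/-- covector whose kernel is the weak bundle -/
def α (z : K) : V →L[ℝ] ℝ := c.w + (S.v z) • c.p + S.b z

/-- multiplier of the covector -/
def k (z : K) : ℝ := c.kk S.v z

lemma e_cont : Continuous S.e := by
  unfold e
  have := S.u.continuous
  fun_prop

lemma m_cont : Continuous S.m := by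
  unfold m
  have h1 := S.e_cont
  have h2 : Continuous fun z => c.ηw z (S.e z) := c.ηw.continuous.clm_apply h1
  fun_prop

lemma α_cont : Continuous S.α := by
  unfold α
  have h1 := S.v.continuous
  have h2 := S.b.continuous
  have h3 : Continuous fun z => (S.v z) • c.p := h1.smul continuous_const
  exact (continuous_const.add h3).add h2

lemma p_e (z : K) : c.p (S.e z) = S.u z := by
  simp [e, c.pep, c.pew]

lemma w_e (z : K) : c.w (S.e z) = 1 := by
  simp [e, c.wep, c.wew]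

lemma pN_e (z : K) : c.pN (S.e z) = 0 := by
  simp [e, c.pN_ep, c.pN_ew]

lemma e_ne (z : K) : S.e z ≠ 0 := by
  intro h
  have := S.w_e z
  rw [h] at this
  simp at this

lemma norm_e (z : K) : ‖S.e z‖ ≤ 3 / 2 := by
  unfold e
  have h1 := S.hu z
  calc ‖S.u z • c.ep + c.ew‖ ≤ |S.u z| * ‖c.ep‖ + ‖c.ew‖ := by
        refine (norm_add_le _ _).trans ?_
        rw [norm_smul, Real.norm_eq_abs]
    _ ≤ 1 / 2 * 1 + 1 := by
        have := c.nep; have := c.new
        gcongr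
    _ = 3 / 2 := by norm_num

lemma A_e (z : K) : c.A z (S.e z) = S.m z • S.e (c.f z) := by
  have h := c.hpN (c.A z (S.e z))
  rw [h, c.NA, S.pN_e, map_zero, map_zero, zero_add, c.pA, c.wA, S.p_e, S.w_e]
  have h2 := S.hue z
  change c.μ⁻¹ * (1 + c.ηw z (S.e z)) * S.u (c.f z) = c.μ * (S.u z + c.ηp z (S.e z)) at h2
  rw [← h2]
  unfold m e
  rw [smul_add, smul_smul]

lemma ηw_e (z : K) : |c.ηw z (S.e z)| ≤ 1 / 500 := by
  have h1 := (c.ηw z).le_opNorm (S.e z)
  have h2 := c.hηw z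
  have h3 := S.norm_e z
  have h4 := c.d_le
  rw [Real.norm_eq_abs] at h1
  have h5 := norm_nonneg (c.ηw z)
  have h6 := norm_nonneg (S.e z)
  nlinarith

lemma m_pos (z : K) : 0 < S.m z := by
  unfold m
  have h := (abs_le.mp (S.ηw_e z)).1
  have hμ := c.μ_pos
  have : 0 < 1 + c.ηw z (S.e z) := by linarith
  positivity

lemma m_le (z : K) : S.m z ≤ 2 * c.μ⁻¹ := by
  unfold m
  have h := (abs_le.mp (S.ηw_e z)).2
  have hμ : 0 < c.μ⁻¹ := inv_pos.mpr c.μ_pos
  nlinarith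

lemma b_pN (z : K) (x : V) : S.b z (c.pN x) = S.b z x := by
  obtain ⟨y, rfl⟩ : ∃ y, c.f y = z := ⟨c.f.symm z, c.f.apply_symm_apply z⟩
  rw [S.hbe, S.hbe, ← c.NB]

lemma b_ep (z : K) : S.b z c.ep = 0 := by
  rw [← S.b_pN, c.pN_ep, map_zero]

lemma b_ew (z : K) : S.b z c.ew = 0 := by
  rw [← S.b_pN, c.pN_ew, map_zero]

lemma α_apply (z : K) (x : V) : S.α z x = c.w x + S.v z * c.p x + S.b z x := by
  simp [α]

lemma α_e (z : K) : S.α z (S.e z) = 1 + S.u z * S.v z := by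
  rw [S.α_apply, S.w_e, S.p_e]
  have : S.b z (S.e z) = 0 := by
    rw [← S.b_pN, S.pN_e, map_zero]
  rw [this]; ring

lemma α_e_pos (z : K) : 3 / 4 ≤ 1 + S.u z * S.v z := by
  have h1 := S.hu z; have h2 := S.hv z
  have : |S.u z * S.v z| ≤ 1 / 2 * (1 / 2) := by
    rw [abs_mul]; gcongr
  have := (abs_le.mp this).1
  linarith

lemma α_A (z : K) (x : V) : S.α (c.f z) (c.A z x) = S.k z * S.α z x := by
  rw [S.α_apply, S.α_apply, S.hbe, c.NBA, S.b_pN, c.wA, c.pA]
  have hx := c.hpN x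
  have e1 : c.ηw z x = c.ηw z (c.pN x) + c.p x * c.ηw z c.ep + c.w x * c.ηw z c.ew := by
    conv_lhs => rw [hx]
    simp only [map_add, map_smul, smul_eq_mul]
  have e2 : c.ηp z x = c.ηp z (c.pN x) + c.p x * c.ηp z c.ep + c.w x * c.ηp z c.ew := by
    conv_lhs => rw [hx]
    simp only [map_add, map_smul, smul_eq_mul]
  have hve := S.hve z
  unfold k
  have hk : c.kk S.v z = c.μ⁻¹ * (1 + c.ηw z c.ew) + S.v (c.f z) * (c.μ * c.ηp z c.ew) := rfl
  rw [e1, e2, hk]
  linear_combination (c.p x) * hve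

/-- projection onto the strong bundle along the weak bundle -/
def P (z : K) : V →L[ℝ] V := (1 + S.u z * S.v z)⁻¹ • (S.α z).smulRight (S.e z)

lemma P_apply (z : K) (x : V) : S.P z x = ((1 + S.u z * S.v z)⁻¹ * S.α z x) • S.e z := by
  simp [P, smul_smul]

lemma P_cont : Continuous S.P := by
  unfold P
  have h1 : Continuous fun z => 1 + S.u z * S.v z := by fun_prop
  have h2 : Continuous fun z => (1 + S.u z * S.v z)⁻¹ :=
    h1.inv₀ (fun z => by have := S.α_e_pos z; linarith)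
  have h3 : Continuous fun z => (S.α z).smulRight (S.e z) := by
    have := ContinuousLinearMap.smulRightL ℝ V V
    exact (ContinuousLinearMap.smulRightL ℝ V V).continuous₂.comp (S.α_cont.prodMk S.e_cont)
  exact h2.smul h3

lemma P_e (z : K) : S.P z (S.e z) = S.e z := by
  rw [S.P_apply, S.α_e, inv_mul_cancel₀ (by have := S.α_e_pos z; linarith), one_smul]

lemma P_idem (z : K) : (S.P z).comp (S.P z) = S.P z := by
  ext x
  rw [ContinuousLinearMap.comp_apply, S.P_apply z x, map_smul, S.P_e]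

lemma P_inv (z : K) : (c.A z).comp (S.P z) = (S.P (c.f z)).comp (c.A z) := by
  ext x
  rw [ContinuousLinearMap.comp_apply, ContinuousLinearMap.comp_apply, S.P_apply, S.P_apply,
    map_smul, S.A_e, S.α_A, smul_smul]
  congr 1
  have h1 : S.m z * (1 + S.u (c.f z) * S.v (c.f z)) = S.k z * (1 + S.u z * S.v z) := by
    have := S.α_A z (S.e z)
    rw [S.A_e, map_smul, S.α_e, S.α_e, smul_eq_mul] at this
    exact this
  have h2 : (1 + S.u z * S.v z) ≠ 0 := by have := S.α_e_pos z; linarith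
  have h3 : (1 + S.u (c.f z) * S.v (c.f z)) ≠ 0 := by have := S.α_e_pos (c.f z); linarith
  field_simp
  linear_combination (S.α z x) * h1

lemma P_range {z : K} {x : V} (h : S.P z x = x) : x = c.w x • S.e z := by
  rw [S.P_apply] at h
  have h2 : c.w x = (1 + S.u z * S.v z)⁻¹ * S.α z x := by
    conv_lhs => rw [← h]
    rw [map_smul, S.w_e, smul_eq_mul, mul_one]
  rw [h2, h]

lemma P_ker {z : K} {x : V} (h : S.P z x = 0) : S.α z x = 0 := by
  rw [S.P_apply] at h
  rcases smul_eq_zero.mp h with h | h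
  · rcases mul_eq_zero.mp h with h | h
    · exfalso
      have := S.α_e_pos z
      have h2 : (1 + S.u z * S.v z) ≠ 0 := by linarith
      exact inv_ne_zero h2 h
    · exact h
  · exact absurd h (S.e_ne z)

variable (c) in
/-- iterated cocycle -/
def An : ℕ → K → V →L[ℝ] V
  | 0, _ => ContinuousLinearMap.id ℝ V
  | n + 1, z => (An n (c.f z)).comp (c.A z)

lemma An_e (n : ℕ) (z : K) : ‖An c n z (S.e z)‖ ≤ 3 / 2 * (2 * c.μ⁻¹) ^ n := by
  have hμ : 0 < c.μ⁻¹ := inv_pos.mpr c.μ_pos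
  induction n generalizing z with
  | zero => simpa [An] using S.norm_e z
  | succ n ih =>
    simp only [An, ContinuousLinearMap.comp_apply]
    rw [S.A_e, map_smul, norm_smul, Real.norm_eq_abs, abs_of_pos (S.m_pos z)]
    calc S.m z * ‖An c n (c.f z) (S.e (c.f z))‖ ≤ (2 * c.μ⁻¹) * (3 / 2 * (2 * c.μ⁻¹) ^ n) := by
          have h1 := S.m_le z
          have h2 := ih (c.f z)
          have h3 := S.m_pos z
          gcongr
      _ = 3 / 2 * (2 * c.μ⁻¹) ^ (n + 1) := by ring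

variable (c) in
/-- adapted seminorm -/
def NN (x : V) : ℝ := ‖c.pN x‖ + |c.p x|

lemma norm_le_NN {z : K} {x : V} (h : S.α z x = 0) : ‖x‖ ≤ 2 * NN c x := by
  have hw : |c.w x| ≤ 1 / 2 * |c.p x| + 1 / 10 * ‖c.pN x‖ := by
    rw [S.α_apply] at h
    have e : c.w x = -(S.v z * c.p x) - S.b z (c.pN x) := by rw [S.b_pN]; linarith
    rw [e]
    calc |-(S.v z * c.p x) - S.b z (c.pN x)| ≤ |-(S.v z * c.p x)| + |S.b z (c.pN x)| := abs_sub _ _
      _ ≤ 1 / 2 * |c.p x| + 1 / 10 * ‖c.pN x‖ := by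
          rw [abs_neg, abs_mul]
          have h1 := S.hv z
          have h2 := (S.b z).le_opNorm (c.pN x)
          rw [Real.norm_eq_abs] at h2
          have h3 := S.hb z
          have h4 := norm_nonneg (c.pN x)
          gcongr
          nlinarith
  calc ‖x‖ = ‖c.pN x + (c.p x) • c.ep + (c.w x) • c.ew‖ := by rw [← c.hpN x]
    _ ≤ ‖c.pN x‖ + |c.p x| * ‖c.ep‖ + |c.w x| * ‖c.ew‖ := by
        refine (norm_add_le _ _).trans ?_
        rw [norm_smul, Real.norm_eq_abs]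
        gcongr
        refine (norm_add_le _ _).trans ?_
        rw [norm_smul, Real.norm_eq_abs]
    _ ≤ ‖c.pN x‖ + |c.p x| * 1 + (1 / 2 * |c.p x| + 1 / 10 * ‖c.pN x‖) * 1 := by
        have := c.nep; have := c.new
        gcongr
    _ ≤ 2 * NN c x := by
        unfold NN
        have := norm_nonneg (c.pN x); have := abs_nonneg (c.p x)
        linarith

lemma NN_step {z : K} {x : V} (h : S.α z x = 0) : NN c x ≤ 2 * c.Kg * NN c (c.A z x) := by
  have hn := S.norm_le_NN h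
  have h1 : ‖c.pN x‖ ≤ c.Kg * ‖c.pN (c.A z x)‖ := by
    calc ‖c.pN x‖ = ‖c.pN (c.B (c.f z) (c.pN (c.A z x)))‖ := by rw [← c.NB, c.NBA]
      _ ≤ _ := c.hB _ _
  have hηp : |c.ηp z x| ≤ c.d * ‖x‖ := by
    have := (c.ηp z).le_opNorm x
    rw [Real.norm_eq_abs] at this
    have h2 := c.hηp z
    calc _ ≤ ‖c.ηp z‖ * ‖x‖ := this
      _ ≤ _ := by gcongr
  have h2 : c.μ * |c.p x| ≤ |c.p (c.A z x)| + c.μ * (c.d * ‖x‖) := by
    rw [c.pA, abs_mul, abs_of_pos c.μ_pos]
    have : |c.p x| ≤ |c.p x + c.ηp z x| + |c.ηp z x| := by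
      have := abs_sub (c.p x + c.ηp z x) (c.ηp z x)
      simpa using this
    have hμ := c.μ_pos
    calc c.μ * |c.p x| ≤ c.μ * (|c.p x + c.ηp z x| + |c.ηp z x|) := by gcongr
      _ ≤ c.μ * |c.p x + c.ηp z x| + c.μ * (c.d * ‖x‖) := by
          rw [mul_add]; gcongr
  have hμ := c.μ_pos
  have hKg := c.hKg
  have hμK := c.hμK
  have hds := c.hdsmall
  have hd := c.hd
  set q := |c.p x| with hq
  set r := ‖c.pN x‖ with hr
  set q' := |c.p (c.A z x)| with hq'
  set r' := ‖c.pN (c.A z x)‖ with hr'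
  have hNN : NN c x = r + q := rfl
  have hNN' : NN c (c.A z x) = r' + q' := rfl
  have q0 : 0 ≤ q := abs_nonneg _
  have r0 : 0 ≤ r := norm_nonneg _
  have q0' : 0 ≤ q' := abs_nonneg _
  have r0' : 0 ≤ r' := norm_nonneg _
  rw [hNN] at hn
  rw [hNN, hNN']
  have h3 : c.μ * (c.d * ‖x‖) ≤ c.μ * (c.d * (2 * (r + q))) := by gcongr
  have h4 : c.Kg * (c.μ * (c.d * (2 * (r + q)))) ≤ 1 / 50 * (r + q) := by
    have : c.Kg * c.μ * c.d ≤ 1 / 100 := by nlinarith [mul_nonneg (by linarith : (0:ℝ) ≤ c.Kg) hd]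
    nlinarith
  have h5 : c.Kg * (c.μ * q) ≤ c.Kg * q' + 1 / 50 * (r + q) := by
    have : c.Kg * (c.μ * q) ≤ c.Kg * (q' + c.μ * (c.d * (2 * (r + q)))) := by
      gcongr; linarith
    linarith [mul_add c.Kg q' (c.μ * (c.d * (2 * (r + q))))]
  have h6 : q ≤ c.Kg * (c.μ * q) := by
    have h10 := c.hμ
    have : 1 ≤ c.Kg * c.μ := by nlinarith
    calc q = 1 * q := by ring
      _ ≤ (c.Kg * c.μ) * q := by gcongr
      _ = _ := by ring
  nlinarith

lemma NN_iter (n : ℕ) {z : K} {x : V} (h : S.α z x = 0) :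
    NN c x ≤ (2 * c.Kg) ^ n * NN c (An c n z x) := by
  have hKg := c.hKg
  induction n generalizing z x with
  | zero => simp [An]
  | succ n ih =>
    have h2 : S.α (c.f z) (c.A z x) = 0 := by rw [S.α_A, h, mul_zero]
    calc NN c x ≤ 2 * c.Kg * NN c (c.A z x) := S.NN_step h
      _ ≤ 2 * c.Kg * ((2 * c.Kg) ^ n * NN c (An c n (c.f z) (c.A z x))) := by
          have := ih h2
          gcongr
      _ = _ := by
          simp only [An, ContinuousLinearMap.comp_apply]; ring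

/-- domination -/
lemma domination : ∃ C : ℝ, 0 < C ∧ ∀ (z : K) (n : ℕ) (x y : V), S.P z x = x → S.P z y = 0 →
    ‖x‖ = 1 → ‖y‖ = 1 → ‖An c n z x‖ ≤ C * (1 / 2) ^ n * ‖An c n z y‖ := by
  have hμ : 0 < c.μ⁻¹ := inv_pos.mpr c.μ_pos
  have hKg := c.hKg
  have hμK := c.hμK
  have hp : 0 < ‖c.p‖ := by
    rw [norm_pos_iff]
    intro h
    have := c.pep
    rw [h] at this; simp at this
  have hw : 0 < ‖c.w‖ := by
    rw [norm_pos_iff]
    intro h
    have := c.wew
    rw [h] at this; simp at this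
  have hC2 : 0 < ‖c.pN‖ + ‖c.p‖ := by positivity
  refine ⟨3 * ‖c.w‖ * (‖c.pN‖ + ‖c.p‖), by positivity, fun z n x y hx hy nx ny => ?_⟩
  have h1 := S.P_range hx
  have hwx : |c.w x| ≤ ‖c.w‖ := by
    have := c.w.le_opNorm x
    rw [nx, mul_one, Real.norm_eq_abs] at this
    exact this
  have h2 : ‖An c n z x‖ ≤ ‖c.w‖ * (3 / 2 * (2 * c.μ⁻¹) ^ n) := by
    rw [h1, map_smul, norm_smul, Real.norm_eq_abs]
    have := S.An_e n z
    gcongr
  have h3 := S.P_ker hy
  have h4 : 1 ≤ 2 * NN c y := by rw [← ny]; exact S.norm_le_NN h3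
  have h5 := S.NN_iter n h3
  have h6 : NN c (An c n z y) ≤ (‖c.pN‖ + ‖c.p‖) * ‖An c n z y‖ := by
    unfold NN
    have a1 := c.pN.le_opNorm (An c n z y)
    have a2 := c.p.le_opNorm (An c n z y)
    rw [Real.norm_eq_abs] at a2
    linarith
  have h7 : 1 ≤ 2 * ((2 * c.Kg) ^ n * ((‖c.pN‖ + ‖c.p‖) * ‖An c n z y‖)) := by
    calc 1 ≤ 2 * NN c y := h4
      _ ≤ 2 * ((2 * c.Kg) ^ n * NN c (An c n z y)) := by gcongr
      _ ≤ _ := by gcongr
  have h8 : (2 * c.μ⁻¹) ^ n * (2 * c.Kg) ^ n ≤ (1 / 2) ^ n := by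
    rw [← mul_pow]
    apply pow_le_pow_left₀ (by positivity)
    have : c.μ⁻¹ * (8 * c.Kg) ≤ c.μ⁻¹ * c.μ := by gcongr
    rw [inv_mul_cancel₀ c.μ_pos.ne'] at this
    linarith
  calc ‖An c n z x‖ ≤ ‖c.w‖ * (3 / 2 * (2 * c.μ⁻¹) ^ n) * 1 := by linarith
    _ ≤ ‖c.w‖ * (3 / 2 * (2 * c.μ⁻¹) ^ n) *
        (2 * ((2 * c.Kg) ^ n * ((‖c.pN‖ + ‖c.p‖) * ‖An c n z y‖))) := by gcongr
    _ = 3 * ‖c.w‖ * (‖c.pN‖ + ‖c.p‖) * ((2 * c.μ⁻¹) ^ n * (2 * c.Kg) ^ n) * ‖An c n z y‖ := by ring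
    _ ≤ 3 * ‖c.w‖ * (‖c.pN‖ + ‖c.p‖) * (1 / 2) ^ n * ‖An c n z y‖ := by gcongr

end Split

end Coc

end

end Pool.Agent.H14.Lyap
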