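import Pool.Agent.H14.LyapTorus
import Pool.Agent.H14.LyapSplit2

open MeasureTheory Set Filter Topology ContDiff

namespace Pool.Agent.H14.Lyap

noncomputable section

/-- data of a lift of a torus diffeomorphism, from which the cocycle is built -/
structure Lift (d : ℕ) where
  F : Euc d → Euc d
  G : Euc d → Euc d
  hF : ContDiff ℝ ∞ F
  hG : ContDiff ℝ ∞ G
  GF : ∀ x, G (F x) = x
  FG : ∀ x, F (G x) = x
  L : (Fin d → ℤ) → (Fin d → ℤ)
  L' : (Fin d → ℤ) → (Fin d → ℤ)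
  Feq : ∀ x k, F (x + zvec k) = F x + zvec (L k)
  Geq : ∀ x k, G (x + zvec k) = G x + zvec (L' k)
  ep : Euc d
  ew : Euc d
  p : Euc d →L[ℝ] ℝ
  w : Euc d →L[ℝ] ℝ
  ξp : Euc d → ℝ
  ξw : Euc d → ℝ
  hξp : ContDiff ℝ ∞ ξp
  hξw : ContDiff ℝ ∞ ξw
  perp : ∀ x k, ξp (x + zvec k) = ξp x
  perw : ∀ x k, ξw (x + zvec k) = ξw x
  μ : ℝ
  Kg : ℝ
  dl : ℝ
  M : ℝ
  pep : p ep = 1
  pew : p ew = 0
  wep : w ep = 0
  wew : w ew = 1
  nep : ‖ep‖ ≤ 1
  new : ‖ew‖ ≤ 1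
  hμ : 10 ≤ μ
  hKg : 1 ≤ Kg
  hμK : 8 * Kg ≤ μ
  hdl : 0 ≤ dl
  hM : 0 ≤ M
  bp : ∀ x, ‖fderiv ℝ ξp x‖ ≤ M
  bw : ∀ x, ‖fderiv ℝ ξw x‖ ≤ M
  hdsmall : 100 * (μ + 1) * Kg * (dl * M) ≤ 1
  pF : ∀ x, p (F x) = μ * (p x + dl * ξp x)
  wF : ∀ x, w (F x) = μ⁻¹ * (w x + dl * ξw x)
  pN : Euc d →L[ℝ] Euc d
  hpN : ∀ v, v = pN v + (p v) • ep + (w v) • ew
  ppN : ∀ v, p (pN v) = 0
  wpN : ∀ v, w (pN v) = 0
  NF : ∀ x, pN (F x) = pN (F (pN x))
  NG : ∀ x, pN (G x) = pN (G (pN x))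
  hR : ∀ x, ‖fderiv ℝ (fun x => pN (G x)) x‖ ≤ Kg

namespace Lift

variable {d : ℕ} (D : Lift d)

lemma pN_pN (v : Euc d) : D.pN (D.pN v) = D.pN v := by
  have h := D.hpN (D.pN v)
  rw [D.ppN, D.wpN, zero_smul, zero_smul, add_zero, add_zero] at h
  exact h.symm

lemma F_diff : Differentiable ℝ D.F := D.hF.differentiable (by simp)
lemma G_diff : Differentiable ℝ D.G := D.hG.differentiable (by simp)

lemma dF_per (x : Euc d) (k : Fin d → ℤ) : fderiv ℝ D.F (x + zvec k) = fderiv ℝ D.F x :=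
  fderiv_periodic (fun x => D.Feq x k) x

lemma dG_per (x : Euc d) (k : Fin d → ℤ) : fderiv ℝ D.G (x + zvec k) = fderiv ℝ D.G x :=
  fderiv_periodic (fun x => D.Geq x k) x

lemma projF_per (x : Euc d) (k : Fin d → ℤ) : proj (D.F (x + zvec k)) = proj (D.F x) := by
  rw [D.Feq, proj_add_zvec]

lemma projG_per (x : Euc d) (k : Fin d → ℤ) : proj (D.G (x + zvec k)) = proj (D.G x) := by
  rw [D.Geq, proj_add_zvec]

lemma torusMap_proj (x : Euc d) : torusMap D.F (proj x) = proj (D.F x) := by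
  obtain ⟨k, hk⟩ := rep_proj x
  unfold torusMap
  rw [hk, D.projF_per]

lemma torusMap_proj' (x : Euc d) : torusMap D.G (proj x) = proj (D.G x) := by
  obtain ⟨k, hk⟩ := rep_proj x
  unfold torusMap
  rw [hk, D.projG_per]

/-- the torus homeomorphism -/
def f : Torus d ≃ₜ Torus d where
  toFun := torusMap D.F
  invFun := torusMap D.G
  left_inv := by
    intro θ
    obtain ⟨x, rfl⟩ := proj_surjective θ
    rw [D.torusMap_proj, D.torusMap_proj', D.GF]
  right_inv := by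
    intro θ
    obtain ⟨x, rfl⟩ := proj_surjective θ
    rw [D.torusMap_proj', D.torusMap_proj, D.FG]
  continuous_toFun := (descend (fun x => proj (D.F x)) (proj_continuous.comp D.hF.continuous)
    D.projF_per).continuous
  continuous_invFun := (descend (fun x => proj (D.G x)) (proj_continuous.comp D.hG.continuous)
    D.projG_per).continuous

lemma f_proj (x : Euc d) : D.f (proj x) = proj (D.F x) := D.torusMap_proj x

lemma f_eq (θ : Torus d) : D.f θ = torusMap D.F θ := rfl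

/-- derivative cocycle -/
def A : C(Torus d, Euc d →L[ℝ] Euc d) :=
  descend (fun x => fderiv ℝ D.F x) (D.hF.continuous_fderiv (by simp)) D.dF_per

def B : C(Torus d, Euc d →L[ℝ] Euc d) :=
  descend (fun x => fderiv ℝ D.G x) (D.hG.continuous_fderiv (by simp)) D.dG_per

lemma A_proj (x : Euc d) : D.A (proj x) = fderiv ℝ D.F x := descend_proj _ _ _ x
lemma B_proj (x : Euc d) : D.B (proj x) = fderiv ℝ D.G x := descend_proj _ _ _ x

lemma dξp_per (x : Euc d) (k : Fin d → ℤ) :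
    D.dl • fderiv ℝ D.ξp (x + zvec k) = D.dl • fderiv ℝ D.ξp x := by
  rw [fderiv_periodic (y := (0:ℝ)) (fun x => by rw [D.perp, add_zero]) x]

lemma dξw_per (x : Euc d) (k : Fin d → ℤ) :
    D.dl • fderiv ℝ D.ξw (x + zvec k) = D.dl • fderiv ℝ D.ξw x := by
  rw [fderiv_periodic (y := (0:ℝ)) (fun x => by rw [D.perw, add_zero]) x]

def ηp : C(Torus d, Euc d →L[ℝ] ℝ) :=
  descend (fun x => D.dl • fderiv ℝ D.ξp x)
    ((D.hξp.continuous_fderiv (by simp)).const_smul D.dl) D.dξp_per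

def ηw : C(Torus d, Euc d →L[ℝ] ℝ) :=
  descend (fun x => D.dl • fderiv ℝ D.ξw x)
    ((D.hξw.continuous_fderiv (by simp)).const_smul D.dl) D.dξw_per

lemma ηp_proj (x : Euc d) : D.ηp (proj x) = D.dl • fderiv ℝ D.ξp x := descend_proj _ _ _ x
lemma ηw_proj (x : Euc d) : D.ηw (proj x) = D.dl • fderiv ℝ D.ξw x := descend_proj _ _ _ x

lemma p_dF (x v : Euc d) : D.p (fderiv ℝ D.F x v) = D.μ * (D.p v + (D.dl • fderiv ℝ D.ξp x) v) := by
  have h1 : HasFDerivAt (fun x => D.p (D.F x)) (D.p.comp (fderiv ℝ D.F x)) x :=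
    D.p.hasFDerivAt.comp x (D.F_diff x).hasFDerivAt
  have h2 : HasFDerivAt (fun x => D.μ * (D.p x + D.dl * D.ξp x))
      (D.μ • (D.p + D.dl • fderiv ℝ D.ξp x)) x :=
    (D.p.hasFDerivAt.add ((D.hξp.differentiable (by simp) x).hasFDerivAt.const_mul D.dl)).const_mul D.μ
  have h3 : (fun x => D.p (D.F x)) = (fun x => D.μ * (D.p x + D.dl * D.ξp x)) := funext D.pF
  rw [h3] at h1
  have h4 := congrArg (fun A : Euc d →L[ℝ] ℝ => A v) (h1.unique h2)
  simpa [mul_add] using h4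

lemma w_dF (x v : Euc d) : D.w (fderiv ℝ D.F x v) = D.μ⁻¹ * (D.w v + (D.dl • fderiv ℝ D.ξw x) v) := by
  have h1 : HasFDerivAt (fun x => D.w (D.F x)) (D.w.comp (fderiv ℝ D.F x)) x :=
    D.w.hasFDerivAt.comp x (D.F_diff x).hasFDerivAt
  have h2 : HasFDerivAt (fun x => D.μ⁻¹ * (D.w x + D.dl * D.ξw x))
      (D.μ⁻¹ • (D.w + D.dl • fderiv ℝ D.ξw x)) x :=
    (D.w.hasFDerivAt.add ((D.hξw.differentiable (by simp) x).hasFDerivAt.const_mul D.dl)).const_mul D.μ⁻¹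
  have h3 : (fun x => D.w (D.F x)) = (fun x => D.μ⁻¹ * (D.w x + D.dl * D.ξw x)) := funext D.wF
  rw [h3] at h1
  have h4 := congrArg (fun A : Euc d →L[ℝ] ℝ => A v) (h1.unique h2)
  simpa [mul_add] using h4

lemma N_gen {H : Euc d → Euc d} (hH : Differentiable ℝ H) (hN : ∀ x, D.pN (H x) = D.pN (H (D.pN x)))
    (x v : Euc d) : D.pN (fderiv ℝ H x v) = D.pN (fderiv ℝ H x (D.pN v)) := by
  have h1 : HasFDerivAt (fun x => D.pN (H x)) (D.pN.comp (fderiv ℝ H x)) x :=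
    D.pN.hasFDerivAt.comp x (hH x).hasFDerivAt
  have h2 : HasFDerivAt (fun x => D.pN (H (D.pN x)))
      ((D.pN.comp (fderiv ℝ H (D.pN x))).comp D.pN) x := by
    have a1 : HasFDerivAt (fun x => D.pN (H x)) (D.pN.comp (fderiv ℝ H (D.pN x))) (D.pN x) :=
      D.pN.hasFDerivAt.comp _ (hH _).hasFDerivAt
    exact a1.comp x D.pN.hasFDerivAt
  have h3 : (fun x => D.pN (H x)) = (fun x => D.pN (H (D.pN x))) := funext hN
  rw [h3] at h1
  have h4 := h1.unique h2
  have e1 := congrArg (fun A : Euc d →L[ℝ] Euc d => A v) h4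
  have e2 := congrArg (fun A : Euc d →L[ℝ] Euc d => A (D.pN v)) h4
  simp only [ContinuousLinearMap.comp_apply] at e1 e2
  rw [e1, e2, D.pN_pN]

lemma BA (x v : Euc d) : fderiv ℝ D.G (D.F x) (fderiv ℝ D.F x v) = v := by
  have h1 : HasFDerivAt (fun x => D.G (D.F x)) ((fderiv ℝ D.G (D.F x)).comp (fderiv ℝ D.F x)) x :=
    (D.G_diff _).hasFDerivAt.comp x (D.F_diff x).hasFDerivAt
  have h3 : (fun x => D.G (D.F x)) = fun x => x := funext D.GF
  rw [h3] at h1
  have h4 := h1.unique (hasFDerivAt_id x)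
  have e1 := congrArg (fun A : Euc d →L[ℝ] Euc d => A v) h4
  simpa using e1

/-- the cocycle -/
def coc : Coc (Torus d) (Euc d) where
  f := D.f
  A := D.A
  B := D.B
  ep := D.ep
  ew := D.ew
  p := D.p
  w := D.w
  ηp := D.ηp
  ηw := D.ηw
  μ := D.μ
  Kg := D.Kg
  d := D.dl * D.M
  pep := D.pep
  pew := D.pew
  wep := D.wep
  wew := D.wew
  nep := D.nep
  new := D.new
  hμ := D.hμ
  hKg := D.hKg
  hμK := D.hμK
  hd := mul_nonneg D.hdl D.hM
  hηp := by
    intro θ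
    obtain ⟨x, rfl⟩ := proj_surjective θ
    rw [D.ηp_proj, norm_smul, Real.norm_eq_abs, abs_of_nonneg D.hdl]
    exact mul_le_mul_of_nonneg_left (D.bp x) D.hdl
  hηw := by
    intro θ
    obtain ⟨x, rfl⟩ := proj_surjective θ
    rw [D.ηw_proj, norm_smul, Real.norm_eq_abs, abs_of_nonneg D.hdl]
    exact mul_le_mul_of_nonneg_left (D.bw x) D.hdl
  hdsmall := D.hdsmall
  pA := by
    intro θ v
    obtain ⟨x, rfl⟩ := proj_surjective θ
    rw [D.A_proj, D.ηp_proj]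
    exact D.p_dF x v
  wA := by
    intro θ v
    obtain ⟨x, rfl⟩ := proj_surjective θ
    rw [D.A_proj, D.ηw_proj]
    exact D.w_dF x v
  pN := D.pN
  hpN := D.hpN
  ppN := D.ppN
  wpN := D.wpN
  NA := by
    intro θ v
    obtain ⟨x, rfl⟩ := proj_surjective θ
    rw [D.A_proj]
    exact D.N_gen D.F_diff D.NF x v
  NB := by
    intro θ v
    obtain ⟨x, rfl⟩ := proj_surjective θ
    rw [D.B_proj]
    exact D.N_gen D.G_diff D.NG x v
  NBA := by
    intro θ v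
    obtain ⟨x, rfl⟩ := proj_surjective θ
    rw [D.A_proj, D.f_proj, D.B_proj, D.BA]
  hB := by
    intro θ v
    obtain ⟨x, rfl⟩ := proj_surjective θ
    rw [D.B_proj]
    have h1 : HasFDerivAt (fun x => D.pN (D.G x)) (D.pN.comp (fderiv ℝ D.G x)) x :=
      D.pN.hasFDerivAt.comp x (D.G_diff x).hasFDerivAt
    have h2 := D.hR x
    rw [h1.fderiv] at h2
    calc ‖D.pN (fderiv ℝ D.G x v)‖ = ‖(D.pN.comp (fderiv ℝ D.G x)) v‖ := rfl
      _ ≤ ‖D.pN.comp (fderiv ℝ D.G x)‖ * ‖v‖ := ContinuousLinearMap.le_opNorm _ _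
      _ ≤ _ := by gcongr

/-- the splitting -/
def S : Coc.Split D.coc := Classical.choice D.coc.exists_split

lemma isTorusDiffeo : IsLiftedDiffeo (proj (d := d)) D.F := by
  refine ⟨D.hF, fun x y => ?_, D.G, D.hG, D.GF, D.FG⟩
  constructor
  · intro h
    obtain ⟨k, rfl⟩ := (proj_eq_iff _ _).mp h
    exact D.projF_per _ _
  · intro h
    obtain ⟨k, hk⟩ := (proj_eq_iff _ _).mp h
    have : x = y + zvec (D.L' k) := by
      rw [← D.GF x, hk, D.Geq, D.GF]
    rw [this, proj_add_zvec]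

lemma fderiv_iterate (n : ℕ) (x : Euc d) :
    fderiv ℝ D.F^[n] x = Coc.Split.An D.coc n (proj x) := by
  induction n generalizing x with
  | zero => simp only [Function.iterate_zero, Coc.Split.An]; exact fderiv_id
  | succ n ih =>
    rw [Function.iterate_succ]
    rw [fderiv_comp x ((D.F_diff.iterate n) _) (D.F_diff x), ih]
    simp only [Coc.Split.An]
    congr 1
    · change _ = Coc.Split.An D.coc n (D.f (proj x))
      rw [D.f_proj]
    · exact (D.A_proj x).symm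

lemma isDominatedSplitting : IsDominatedSplitting (proj (d := d)) D.F D.S.P := by
  refine ⟨D.S.P_cont, fun θ u => ?_, fun x u => ?_, ?_⟩
  · exact congrArg (fun A : Euc d →L[ℝ] Euc d => A u) (D.S.P_idem θ)
  · have h := D.S.P_inv (proj x)
    have e1 : D.coc.A (proj x) = fderiv ℝ D.F x := D.A_proj x
    have e2 : D.coc.f (proj x) = proj (D.F x) := D.f_proj x
    rw [e1, e2] at h
    exact congrArg (fun A : Euc d →L[ℝ] Euc d => A u) h
  · obtain ⟨C, hC, h⟩ := D.S.domination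
    refine ⟨C, 1 / 2, hC, by norm_num, by norm_num, fun x n u v hu hv nu nv => ?_⟩
    rw [D.fderiv_iterate]
    exact h (proj x) n u v hu hv nu nv

end Lift

end

end Pool.Agent.H14.Lyap
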