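import Pool.Agent.H14.LyapOrbit
import Pool.Agent.H14.LyapDet

open MeasureTheory Set Filter Topology ContDiff

namespace Pool.Agent.H14.Lyap

noncomputable section

/-- invariant measure carried by `8n` circles -/
def nuN (n : ℕ) : Measure (Torus 5) :=
  ∑ i ∈ Finset.range (8 * n), ((8 * n : ℕ) : ENNReal)⁻¹ • Measure.map (gm n i) hm

/-- the common invariant measure -/
def muM : Measure (Torus 5) :=
  Measure.sum (fun j : ℕ => (2⁻¹ : ENNReal) ^ (j + 1) • nuN (4 * (j + 1)))

lemma nuN_univ {n : ℕ} (hn : 0 < n) : nuN n univ = 1 := by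
  unfold nuN
  rw [Measure.finset_sum_apply]
  have h : ∀ i ∈ Finset.range (8 * n),
      (((8 * n : ℕ) : ENNReal)⁻¹ • Measure.map (gm n i) hm) univ = ((8 * n : ℕ) : ENNReal)⁻¹ := by
    intro i _
    rw [Measure.smul_apply, Measure.map_apply (gm n i).continuous.measurable MeasurableSet.univ,
      preimage_univ, measure_univ, smul_eq_mul, mul_one]
  rw [Finset.sum_congr rfl h, Finset.sum_const, Finset.card_range, nsmul_eq_mul]
  apply ENNReal.mul_inv_cancel
  · exact_mod_cast (by omega : 8 * n ≠ 0)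
  · exact ENNReal.natCast_ne_top _

instance muM_prob : IsProbabilityMeasure muM := by
  constructor
  unfold muM
  rw [Measure.sum_apply _ MeasurableSet.univ]
  have h : ∀ j : ℕ, ((2⁻¹ : ENNReal) ^ (j + 1) • nuN (4 * (j + 1))) univ = (2⁻¹ : ENNReal) ^ (j + 1) := by
    intro j
    rw [Measure.smul_apply, nuN_univ (by omega), smul_eq_mul, mul_one]
  simp only [h]
  rw [ENNReal.tsum_geometric_add_one, ENNReal.one_sub_inv_two, inv_inv]
  exact ENNReal.inv_mul_cancel (by norm_num) (by norm_num)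

lemma f_gm (a : Par) {t : ℝ} (ht : t ∈ Icc (-1:ℝ) 1) {n i : ℕ} (hn : 0 < n) (hi : i < 8 * n)
    (θ : UnitAddCircle) : (a.D t ht).f (gm n i θ) =
      gm n (i + 1) (θ + ((t * chi (i / (8 * n)) : ℝ) : UnitAddCircle)) := by
  obtain ⟨x, rfl⟩ := circ_surj θ
  rw [gm_coe, Lift.f_proj, ← AddCircle.coe_add, gm_coe]
  change proj (a.F t _) = _
  rw [F_gl a t hn hi]

lemma map_nuN (a : Par) {t : ℝ} (ht : t ∈ Icc (-1:ℝ) 1) {n : ℕ} (hn : 0 < n) :
    Measure.map (a.D t ht).f (nuN n) = nuN n := by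
  have hfm : Measurable (a.D t ht).f := (a.D t ht).f.continuous.measurable
  have h1 : ∀ μ : Measure (Torus 5), Measure.map (a.D t ht).f μ = Measure.mapₗ (a.D t ht).f μ := by
    intro μ
    rw [Measure.mapₗ_apply_of_measurable hfm]
  unfold nuN
  rw [h1, map_sum]
  have h2 : ∀ i ∈ Finset.range (8 * n),
      Measure.mapₗ (a.D t ht).f (((8 * n : ℕ) : ENNReal)⁻¹ • Measure.map (gm n i) hm) =
        ((8 * n : ℕ) : ENNReal)⁻¹ • Measure.map (gm n (i + 1)) hm := by
    intro i hi
    rw [Finset.mem_range] at hi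
    rw [← h1, Measure.map_smul, Measure.map_map hfm (gm n i).continuous.measurable]
    congr 1
    have h3 : ((a.D t ht).f : Torus 5 → Torus 5) ∘ (gm n i) =
        (gm n (i + 1)) ∘ (fun θ => θ + ((t * chi (i / (8 * n)) : ℝ) : UnitAddCircle)) := by
      funext θ
      exact f_gm a ht hn hi θ
    rw [h3, ← Measure.map_map (gm n (i + 1)).continuous.measurable (measurable_add_const _),
      map_add_right_eq_self]
  rw [Finset.sum_congr rfl h2]
  obtain ⟨M, hM⟩ : ∃ M, 8 * n = M + 1 := ⟨8 * n - 1, by omega⟩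
  rw [hM, Finset.sum_range_succ, Finset.sum_range_succ', ← hM, gm_full hn]

lemma map_muM (a : Par) {t : ℝ} (ht : t ∈ Icc (-1:ℝ) 1) :
    Measure.map (a.D t ht).f muM = muM := by
  have hfm : Measurable (a.D t ht).f := (a.D t ht).f.continuous.measurable
  ext s hs
  rw [Measure.map_apply hfm hs]
  unfold muM
  rw [Measure.sum_apply _ (hfm hs), Measure.sum_apply _ hs]
  congr 1
  funext j
  rw [Measure.smul_apply, Measure.smul_apply]
  congr 1
  rw [← Measure.map_apply hfm hs, map_nuN a ht (by omega)]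

lemma measurePreserving (a : Par) {t : ℝ} (ht : t ∈ Icc (-1:ℝ) 1) :
    MeasurePreserving (torusMap (a.F t)) muM muM :=
  ⟨(a.D t ht).f.continuous.measurable, map_muM a ht⟩

lemma integral_nuN {n : ℕ} (h : C(Torus 5, ℝ)) :
    ∫ θ, h θ ∂(nuN n) = (((8 * n : ℕ) : ℝ))⁻¹ *
      ∑ i ∈ Finset.range (8 * n), ∫ θ, h (gm n i θ) ∂hm := by
  unfold nuN
  have hfin : ∀ i, IsFiniteMeasure (Measure.map (gm n i) hm) := fun i =>
    Measure.isFiniteMeasure_map _ _
  rw [integral_finset_sum_measure]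
  · rw [Finset.mul_sum]
    apply Finset.sum_congr rfl
    intro i _
    rw [integral_smul_measure, integral_map (gm n i).continuous.measurable.aemeasurable
      h.continuous.aestronglyMeasurable, ENNReal.toReal_inv, ENNReal.toReal_natCast, smul_eq_mul]
  · intro i hi
    apply Integrable.smul_measure
    · exact integrable_cont h.continuous
    · rw [Finset.mem_range] at hi
      apply ENNReal.inv_ne_top.mpr
      exact_mod_cast (by omega : 8 * n ≠ 0)

lemma integral_muM (h : C(Torus 5, ℝ)) :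
    ∫ θ, h θ ∂muM = ∑' j : ℕ, (1 / 2 : ℝ) ^ (j + 1) * ∫ θ, h θ ∂(nuN (4 * (j + 1))) := by
  have hint : Integrable h muM := integrable_cont h.continuous
  unfold muM at hint ⊢
  rw [integral_sum_measure hint]
  congr 1
  funext j
  rw [integral_smul_measure, ENNReal.toReal_pow, ENNReal.toReal_inv, smul_eq_mul]
  norm_num

section exponent

variable (a : Par) {t : ℝ} (ht : t ∈ Icc (-1:ℝ) 1)

lemma range_P (θ : Torus 5) :
    LinearMap.range ((a.D t ht).S.P θ : Euc 5 →ₗ[ℝ] Euc 5) = Submodule.span ℝ {(a.D t ht).S.e θ} := by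
  apply le_antisymm
  · rintro x ⟨y, rfl⟩
    rw [Submodule.mem_span_singleton]
    exact ⟨_, ((a.D t ht).S.P_apply θ y).symm⟩
  · rw [Submodule.span_singleton_le_iff_mem]
    exact ⟨(a.D t ht).S.e θ, (a.D t ht).S.P_e θ⟩

lemma log_absDet (θ : Torus 5) :
    Real.log (absDetOn (fderiv ℝ (a.F t) (rep θ))
      (LinearMap.range ((a.D t ht).S.P θ : Euc 5 →ₗ[ℝ] Euc 5))) =
    Real.log ((a.D t ht).S.m θ) + Real.log ‖(a.D t ht).S.e ((a.D t ht).f θ)‖ -
      Real.log ‖(a.D t ht).S.e θ‖ := by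
  rw [absDetOn_span _ _ ((a.D t ht).S.e_ne θ) (range_P a ht θ)]
  have h1 : fderiv ℝ (a.F t) (rep θ) ((a.D t ht).S.e θ) =
      (a.D t ht).S.m θ • (a.D t ht).S.e ((a.D t ht).f θ) := (a.D t ht).S.A_e θ
  rw [h1, norm_smul, Real.norm_eq_abs, abs_of_pos ((a.D t ht).S.m_pos θ)]
  have n1 : 0 < ‖(a.D t ht).S.e θ‖ := norm_pos_iff.mpr ((a.D t ht).S.e_ne θ)
  have n2 : 0 < ‖(a.D t ht).S.e ((a.D t ht).f θ)‖ := norm_pos_iff.mpr ((a.D t ht).S.e_ne _)
  have n3 := (a.D t ht).S.m_pos θ
  rw [Real.log_div (by positivity) n1.ne', Real.log_mul n3.ne' n2.ne']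

/-- the function `log m` -/
def logm : C(Torus 5, ℝ) :=
  ⟨fun θ => Real.log ((a.D t ht).S.m θ),
    (a.D t ht).S.m_cont.log (fun θ => ((a.D t ht).S.m_pos θ).ne')⟩

def loge : C(Torus 5, ℝ) :=
  ⟨fun θ => Real.log ‖(a.D t ht).S.e θ‖,
    (a.D t ht).S.e_cont.norm.log (fun θ => (norm_pos_iff.mpr ((a.D t ht).S.e_ne θ)).ne')⟩

lemma exponent_eq_integral : integratedExponent rep muM (a.F t) (a.D t ht).S.P =
    ∫ θ, logm a ht θ ∂muM := by
  unfold integratedExponent
  have h1 : (fun θ => Real.log (absDetOn (fderiv ℝ (a.F t) (rep θ))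
      (LinearMap.range ((a.D t ht).S.P θ : Euc 5 →ₗ[ℝ] Euc 5)))) =
      fun θ => logm a ht θ + loge a ht ((a.D t ht).f θ) - loge a ht θ := by
    funext θ; exact log_absDet a ht θ
  rw [h1]
  have i1 : Integrable (fun θ => logm a ht θ) muM := integrable_cont (logm a ht).continuous
  have i2 : Integrable (fun θ => loge a ht ((a.D t ht).f θ)) muM :=
    integrable_cont ((loge a ht).continuous.comp (a.D t ht).f.continuous)
  have i3 : Integrable (fun θ => loge a ht θ) muM := integrable_cont (loge a ht).continuous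
  have i12 : Integrable (fun θ => logm a ht θ + loge a ht ((a.D t ht).f θ)) muM := i1.add i2
  rw [integral_sub i12 i3, integral_add i1 i2]
  have h2 : ∫ θ, loge a ht ((a.D t ht).f θ) ∂muM = ∫ θ, loge a ht θ ∂muM := by
    conv_rhs => rw [← map_muM a ht]
    rw [integral_map (a.D t ht).f.continuous.measurable.aemeasurable
      (loge a ht).continuous.aestronglyMeasurable]
  rw [h2]; ring

lemma integral_logm_nuN {n : ℕ} (hn : 0 < n) {k : K2}
    (hk : ∀ (t : ℝ) (ht : t ∈ Icc (-1:ℝ) 1) (θ : UnitAddCircle),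
      ∑ i ∈ Finset.range (8 * n), Real.log ((a.D t ht).S.m (zz n t i θ)) =
        -((8 * n : ℕ) : ℝ) * Real.log (a.ν ^ 2) + k (θ, θ + ((TT n * t : ℝ) : UnitAddCircle))) :
    ∫ θ, logm a ht θ ∂(nuN n) = -Real.log (a.ν ^ 2) + (((8 * n : ℕ) : ℝ))⁻¹ * corr (TT n) k t := by
  have hN : ((8 * n : ℕ) : ℝ) ≠ 0 := by exact_mod_cast (by omega : 8 * n ≠ 0)
  rw [integral_nuN]
  have h1 : ∀ i ∈ Finset.range (8 * n), ∫ θ, logm a ht (gm n i θ) ∂hm =
      ∫ θ, logm a ht (zz n t i θ) ∂hm := by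
    intro i _
    unfold zz
    exact (integral_shift (fun θ => logm a ht (gm n i θ)) _).symm
  have hzc : ∀ i, Continuous (fun θ => logm a ht (zz n t i θ)) := by
    intro i
    unfold zz
    exact (logm a ht).continuous.comp ((gm n i).continuous.comp (by fun_prop))
  rw [Finset.sum_congr rfl h1, ← integral_finsetSum _ (fun i _ => integrable_cont (hzc i))]
  have h2 : (fun θ => ∑ i ∈ Finset.range (8 * n), logm a ht (zz n t i θ)) =
      fun θ => -((8 * n : ℕ) : ℝ) * Real.log (a.ν ^ 2) +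
        k (θ, θ + ((TT n * t : ℝ) : UnitAddCircle)) := by
    funext θ; exact hk t ht θ
  rw [h2, integral_add (integrable_const _) (corr_integrable _ _ _), integral_const]
  simp only [probReal_univ, smul_eq_mul, one_mul]
  rw [mul_add]
  congr 1
  field_simp

end exponent

end

end Pool.Agent.H14.Lyap
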