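import Mathlib

open Set Filter Topology

namespace Pool.Agent.H14.Lyap

noncomputable section

lemma rec_solve {N i1 : ℕ} {μ dl : ℝ} (hμ : μ ≠ 0) {b c u m : ℕ → ℝ}
    (hb : ∀ i < N, i1 ≤ i → b i = 0) (hc : ∀ i < i1, c i = 0)
    (hm : ∀ i < N, m i = μ⁻¹ * (1 + dl * (c i * u i)))
    (hmu : ∀ i < N, m i * u (i + 1) = μ * (u i - dl * b i)) (hper : u N = u 0) :
    let P := μ ^ N
    let κ := (μ ^ 2)⁻¹
    let Bs := ∑ j ∈ Finset.range N, κ ^ j * b j
    let Cs := ∑ j ∈ Finset.range N, κ ^ (N - j) * c j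
    let X := P * ∏ j ∈ Finset.range N, m j
    X * (1 - dl * Cs * u 0) = 1 ∧ u 0 * (1 - (P ^ 2)⁻¹ * X) = dl * Bs := by
  intro P κ Bs Cs X
  have hκ : κ ≠ 0 := inv_ne_zero (pow_ne_zero _ hμ)
  have key : ∀ i ≤ N, (∏ j ∈ Finset.range i, m j) * u i =
        μ ^ i * (u 0 - dl * ∑ j ∈ Finset.range i, κ ^ j * b j) ∧
      (∏ j ∈ Finset.range i, m j) =
        (μ ^ i)⁻¹ * (1 + dl * ((u 0 - dl * Bs) * ∑ j ∈ Finset.range i, c j * μ ^ (2 * j))) := by
    intro i hi
    induction i with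
    | zero => simp
    | succ i ih =>
      obtain ⟨h1, h2⟩ := ih (by omega)
      have hiN : i < N := by omega
      have hbM : b i * (∏ j ∈ Finset.range i, m j) = b i * (μ ^ i)⁻¹ := by
        rcases le_or_gt i1 i with h | h
        · rw [hb i hiN h, zero_mul, zero_mul]
        · have : ∑ j ∈ Finset.range i, c j * μ ^ (2 * j) = 0 := by
            apply Finset.sum_eq_zero
            intro j hj
            rw [Finset.mem_range] at hj
            rw [hc j (by omega), zero_mul]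
          rw [h2, this]; ring
      have hcM : c i * ((∏ j ∈ Finset.range i, m j) * u i) = c i * (μ ^ i * (u 0 - dl * Bs)) := by
        rcases le_or_gt i1 i with h | h
        · have : ∑ j ∈ Finset.range i, κ ^ j * b j = Bs := by
            apply Finset.sum_subset (by intro x; simp only [Finset.mem_range]; omega)
            intro x hx hx2
            rw [Finset.mem_range] at hx hx2
            rw [hb x hx (by omega), mul_zero]
          rw [h1, this]
        · rw [hc i h, zero_mul, zero_mul]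
      constructor
      · rw [Finset.prod_range_succ, Finset.sum_range_succ, mul_assoc, hmu i hiN]
        have : κ ^ i = (μ ^ i)⁻¹ * (μ ^ i)⁻¹ := by
          simp only [κ]
          rw [inv_pow, ← pow_mul, mul_comm 2 i, pow_mul, sq, mul_inv]
        rw [this]
        have e1 : (∏ j ∈ Finset.range i, m j) * (μ * (u i - dl * b i)) =
            μ * ((∏ j ∈ Finset.range i, m j) * u i) -
              μ * dl * (b i * (∏ j ∈ Finset.range i, m j)) := by ring
        rw [e1, h1, hbM]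
        have hp : μ ^ i ≠ 0 := pow_ne_zero _ hμ
        field_simp
        ring
      · rw [Finset.prod_range_succ, Finset.sum_range_succ, hm i hiN]
        have e1 : (∏ j ∈ Finset.range i, m j) * (μ⁻¹ * (1 + dl * (c i * u i))) =
            μ⁻¹ * ((∏ j ∈ Finset.range i, m j) +
              dl * (c i * ((∏ j ∈ Finset.range i, m j) * u i))) := by ring
        rw [e1, hcM, h2]
        have hp : μ ^ i ≠ 0 := pow_ne_zero _ hμ
        have e2 : μ ^ (2 * i) = μ ^ i * μ ^ i := by rw [two_mul, pow_add]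
        rw [e2]
        field_simp
        ring
  obtain ⟨k1, k2⟩ := key N le_rfl
  have hP : P ≠ 0 := pow_ne_zero _ hμ
  have hsum : ∑ j ∈ Finset.range N, c j * μ ^ (2 * j) = P ^ 2 * Cs := by
    simp only [Cs, P, κ]
    rw [Finset.mul_sum]
    apply Finset.sum_congr rfl
    intro j hj
    rw [Finset.mem_range] at hj
    obtain ⟨r, rfl⟩ := Nat.exists_eq_add_of_lt hj
    have : j + r + 1 - j = r + 1 := by omega
    rw [this, inv_pow, ← pow_mul, ← pow_mul]
    have hp2 : μ ^ (2 * (r + 1)) ≠ 0 := pow_ne_zero _ hμ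
    field_simp
    rw [mul_assoc, ← pow_add]
    congr 2
    ring
  rw [hper] at k1
  have hX1 : X * u 0 = P ^ 2 * (u 0 - dl * Bs) := by
    simp only [X]
    rw [mul_assoc, k1]; ring
  have hX2 : X = 1 + dl * ((u 0 - dl * Bs) * (P ^ 2 * Cs)) := by
    simp only [X]
    rw [k2, hsum]
    field_simp
    rfl
  constructor
  · linear_combination hX2 - dl * Cs * hX1
  · have hP2 : P ^ 2 ≠ 0 := pow_ne_zero _ hP
    have : (P ^ 2)⁻¹ * (X * u 0) = u 0 - dl * Bs := by
      rw [hX1, ← mul_assoc, inv_mul_cancel₀ hP2, one_mul]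
    linear_combination -this

/-- the quadratic equation satisfied by the normalised eigenvalue -/
lemma quad_of_rec {dl Bs Cs u0 ε X : ℝ} (h1 : X * (1 - dl * Cs * u0) = 1)
    (h2 : u0 * (1 - ε * X) = dl * Bs) :
    X - 1 = (dl ^ 2 * (Bs * Cs)) * (1 + (X - 1)) + ε * (X - 1) + ε * (X - 1) ^ 2 := by
  have h3 : X - 1 = dl * Cs * u0 * X := by linarith
  have h4 : (1 - ε * X) * (X - 1) = (dl ^ 2 * (Bs * Cs)) * X := by
    rw [h3]; linear_combination (dl * Cs * X) * h2
  linarith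

lemma bound_of_rec {w X : ℝ} (hw : |w| ≤ 1 / 10) (h1 : X * (1 - w) = 1) :
    |X - 1| ≤ 1 / 2 := by
  have h2 := abs_le.mp hw
  have hpos : 0 < 1 - w := by linarith
  have hX : X = 1 / (1 - w) := by rw [eq_div_iff hpos.ne']; exact h1
  rw [hX]
  rw [abs_le]
  constructor
  · rw [neg_le_sub_iff_le_add]
    have : 1 / 2 ≤ 1 / (1 - w) := by
      rw [div_le_div_iff₀ (by norm_num) hpos]; linarith
    linarith
  · have : 1 / (1 - w) ≤ 3 / 2 := by
      rw [div_le_div_iff₀ hpos (by norm_num)]; linarith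
    linarith

lemma quad_unique {ζ ε Y Z : ℝ} (hζ : |ζ| ≤ 1 / 10) (h0 : 0 ≤ ε) (h1 : ε ≤ 1 / 100)
    (hY : |Y| ≤ 1 / 2) (hZ : |Z| ≤ 1 / 2) (eY : Y = ζ * (1 + Y) + ε * Y + ε * Y ^ 2)
    (eZ : Z = ζ * (1 + Z) + ε * Z + ε * Z ^ 2) : Y = Z := by
  have h : (Y - Z) * (1 - ζ - ε - ε * (Y + Z)) = 0 := by linear_combination eY - eZ
  rcases mul_eq_zero.mp h with h | h
  · linarith
  · exfalso
    have a1 := abs_le.mp hζ
    have a2 := abs_le.mp hY
    have a3 := abs_le.mp hZ
    nlinarith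

/-- the logarithm of the normalised eigenvalue -/
lemma log_of_quad {ζ ε Y : ℝ} (hζ : |ζ| ≤ 1 / 10) (h0 : 0 ≤ ε) (h1 : ε ≤ 1 / 100)
    (hY : |Y| ≤ 1 / 2) (eY : Y = ζ * (1 + Y) + ε * Y + ε * Y ^ 2) :
    Real.log (1 + Y) = -Real.log (1 - (ζ + ε * Y)) := by
  have a1 := abs_le.mp hζ
  have a2 := abs_le.mp hY
  have h2 : (1 + Y) * (1 - (ζ + ε * Y)) = 1 := by linear_combination eY
  have h3 : 0 < 1 + Y := by linarith
  have h4 : 1 + Y = (1 - (ζ + ε * Y))⁻¹ := eq_inv_of_mul_eq_one_left h2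
  rw [h4, Real.log_inv]

end

end Pool.Agent.H14.Lyap
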