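import Pool.Agent.H14.LyapConc
import Pool.Agent.H14.LyapRec
import Pool.Agent.H14.LyapKernel2

open MeasureTheory Set Filter Topology ContDiff

namespace Pool.Agent.H14.Lyap

noncomputable section

/-- descend a 1-periodic continuous function to the circle -/
def circDescend {Y : Type*} [TopologicalSpace Y] (h : ℝ → Y) (hc : Continuous h)
    (hper : Function.Periodic h 1) : C(UnitAddCircle, Y) :=
  ⟨hper.lift, by
    rw [QuotientAddGroup.isOpenQuotientMap_mk.isQuotientMap.continuous_iff]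
    exact hc⟩

lemma circDescend_coe {Y : Type*} [TopologicalSpace Y] (h : ℝ → Y) (hc : Continuous h)
    (hper : Function.Periodic h 1) (x : ℝ) : circDescend h hc hper (x : UnitAddCircle) = h x := rfl

lemma circ_surj (θ : UnitAddCircle) : ∃ x : ℝ, (x : UnitAddCircle) = θ :=
  QuotientAddGroup.mk_surjective θ

/-- height of the invariant circles -/
def sN (n : ℕ) : ℝ := Real.arcsin (1 / (8 * n)) / (2 * Real.pi)

lemma sin_sN {n : ℕ} (hn : 0 < n) : Real.sin (2 * Real.pi * sN n) = 1 / (8 * n) := by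
  have hn' : (1:ℝ) ≤ n := by exact_mod_cast hn
  unfold sN
  rw [mul_div_cancel₀ _ (by positivity)]
  apply Real.sin_arcsin
  · have : 0 ≤ 1 / (8 * (n:ℝ)) := by positivity
    linarith
  · rw [div_le_one (by positivity)]; linarith

/-- the lifted circles -/
def gl (n i : ℕ) (x : ℝ) : Euc 5 := vec5 (sN n) (i / (8 * n)) (phi (SS n i) x) 0 0

lemma gl_continuous (n i : ℕ) : Continuous (gl n i) := by
  have : ContDiff ℝ ∞ (gl n i) := by
    unfold gl
    exact vec5_contDiff contDiff_const contDiff_const (phi_comp_contDiff contDiff_const contDiff_id)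
      contDiff_const contDiff_const
  exact this.continuous

lemma gl_add_one (n i : ℕ) (x : ℝ) : gl n i (x + 1) = gl n i x + zvec ![0, 0, 1, 0, 0] := by
  unfold gl
  rw [phi_add_one]
  apply ext5 <;> simp

lemma proj_gl_periodic (n i : ℕ) : Function.Periodic (fun x => proj (gl n i x)) 1 := by
  intro x
  simp only [gl_add_one, proj_add_zvec]

/-- the invariant circles -/
def gm (n i : ℕ) : C(UnitAddCircle, Torus 5) :=
  circDescend (fun x => proj (gl n i x)) (proj_continuous.comp (gl_continuous n i))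
    (proj_gl_periodic n i)

lemma gm_coe (n i : ℕ) (x : ℝ) : gm n i (x : UnitAddCircle) = proj (gl n i x) := rfl

lemma gl_full {n : ℕ} (hn : 0 < n) (x : ℝ) : gl n (8 * n) x = gl n 0 x + zvec ![0, 1, 0, 0, 0] := by
  have hn' : (n:ℝ) ≠ 0 := by exact_mod_cast hn.ne'
  unfold gl
  rw [SS_full hn, SS_zero]
  apply ext5
  · simp
  · simp only [vec5_1, PiLp.add_apply, zvec_apply]
    push_cast
    simp [hn']
  · simp
  · simp
  · simp

lemma gm_full {n : ℕ} (hn : 0 < n) : gm n (8 * n) = gm n 0 := by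
  ext1 θ
  obtain ⟨x, rfl⟩ := circ_surj θ
  rw [gm_coe, gm_coe, gl_full hn, proj_add_zvec]

lemma xip_flat (ν a b c : ℝ) : xip ν (vec5 a b c 0 0) = 0 := by simp [xip, lw]
lemma xiw_flat (ν a b c : ℝ) : xiw ν (vec5 a b c 0 0) = 0 := by simp [xiw, lp]

lemma Psi_flat (ν dl a b c : ℝ) : Psi ν dl (vec5 a b c 0 0) = vec5 a b c 0 0 := by
  unfold Psi Vf; rw [xip_flat, xiw_flat]; simp

lemma SS_succ_of_chi {n i : ℕ} (hn : 0 < n) (hi : i < 8 * n) (h : chi (i / (8 * n : ℝ)) ≠ 0) :
    SS n (i + 1) = 0 := by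
  have h2 : (1 * n < i ∧ i < 2 * n) ∨ (5 * n < i ∧ i < 6 * n) := by
    by_contra hcon
    push Not at hcon
    apply h
    unfold chi
    have e1 : bump (i / (8 * n : ℝ) - 1 / 8) = 0 := by
      rcases le_or_gt i (1 * n) with h1 | h1
      · exact_mod_cast bump_zero_low (k := 1) hn (by norm_num) h1
      · exact_mod_cast bump_zero_high (k := 1) hn (by have := hcon.1 h1; omega) hi.le
    have e2 : bump (i / (8 * n : ℝ) - 5 / 8) = 0 := by
      rcases le_or_gt i (5 * n) with h1 | h1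
      · exact_mod_cast bump_zero_low (k := 5) hn (by norm_num) h1
      · exact_mod_cast bump_zero_high (k := 5) hn (by have := hcon.2 h1; omega) hi.le
    rw [e1, e2, sub_zero]
  rw [SS_expand]
  rcases h2 with ⟨h1, h2⟩ | ⟨h1, h2⟩
  · rw [bump_sum_high hn (by norm_num) (by omega) (by omega),
      bump_sum_low hn (by norm_num) (by omega), bump_sum_low hn (by norm_num) (by omega),
      bump_sum_low hn (by norm_num) (by omega)]
    ring
  · rw [bump_sum_high hn (by norm_num) (by omega) (by omega),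
      bump_sum_high hn (by norm_num) (by omega) (by omega),
      bump_sum_high hn (by norm_num) (by omega) (by omega),
      bump_sum_low hn (by norm_num) (by omega)]
    ring

lemma F_gl (a : Par) (t : ℝ) {n i : ℕ} (hn : 0 < n) (hi : i < 8 * n) (x : ℝ) :
    a.F t (gl n i x) = gl n (i + 1) (x + t * chi (i / (8 * n))) := by
  have hn' : (n:ℝ) ≠ 0 := by exact_mod_cast hn.ne'
  unfold Par.F gl
  rw [Psi_flat]
  unfold Qm
  apply ext5
  · simp
  · simp only [vec5_0, vec5_1]
    rw [sin_sN hn]; push_cast; field_simp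
  · simp only [vec5_1, vec5_2]
    rw [phi_add, SS_succ, add_comm (tau _)]
    by_cases h : chi (i / (8 * n : ℝ)) = 0
    · rw [h]; simp
    · have := SS_succ_of_chi hn hi h
      rw [SS_succ] at this
      rw [this, phi_zero_left, phi_zero_left]
  · simp
  · simp

/-- points of the orbit of a point of the base circle -/
def zz (n : ℕ) (t : ℝ) (i : ℕ) (θ : UnitAddCircle) : Torus 5 :=
  gm n i (θ + ((t * XX n i : ℝ) : UnitAddCircle))

lemma zz_coe (n : ℕ) (t : ℝ) (i : ℕ) (x : ℝ) :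
    zz n t i (x : UnitAddCircle) = proj (gl n i (x + t * XX n i)) := by
  unfold zz
  rw [← AddCircle.coe_add, gm_coe]

lemma f_zz (a : Par) {t : ℝ} (ht : t ∈ Icc (-1:ℝ) 1) {n i : ℕ} (hn : 0 < n) (hi : i < 8 * n)
    (θ : UnitAddCircle) : (a.D t ht).f (zz n t i θ) = zz n t (i + 1) θ := by
  obtain ⟨x, rfl⟩ := circ_surj θ
  rw [zz_coe, zz_coe, Lift.f_proj]
  change proj (a.F t _) = _
  rw [F_gl a t hn hi, XX_succ]
  congr 2; ring

lemma zz_full {n : ℕ} (hn : 0 < n) (t : ℝ) (θ : UnitAddCircle) :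
    zz n t (8 * n) θ = zz n t 0 θ := by
  unfold zz
  rw [XX_full hn, XX_zero, gm_full hn]

lemma hasFDerivAt_sin_coord (i : Fin 5) {x : Euc 5} (hx : x i = 0) :
    HasFDerivAt (fun x : Euc 5 => Real.sin (2 * Real.pi * x i))
      ((2 * Real.pi) • (EuclideanSpace.proj i : Euc 5 →L[ℝ] ℝ)) x := by
  have h1 : HasFDerivAt (fun x : Euc 5 => 2 * Real.pi * x i)
      ((2 * Real.pi) • (EuclideanSpace.proj i : Euc 5 →L[ℝ] ℝ)) x :=
    ((EuclideanSpace.proj i : Euc 5 →L[ℝ] ℝ).hasFDerivAt (x := x)).const_mul (2 * Real.pi)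
  have h2 := (Real.hasDerivAt_sin (2 * Real.pi * x i)).comp_hasFDerivAt x h1
  rw [hx, mul_zero, Real.cos_zero, one_smul] at h2
  exact h2

lemma hasFDerivAt_lw (ν a b c : ℝ) : HasFDerivAt (lw ν) (wc ν) (vec5 a b c 0 0) := by
  have h3 := hasFDerivAt_sin_coord 3 (x := vec5 a b c 0 0) rfl
  have h4 := hasFDerivAt_sin_coord 4 (x := vec5 a b c 0 0) rfl
  have h5 := (h3.neg.add (h4.const_mul ν)).mul_const (2 * Real.pi)⁻¹
  have e : (2 * Real.pi)⁻¹ • (-((2 * Real.pi) • (EuclideanSpace.proj 3 : Euc 5 →L[ℝ] ℝ)) +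
      ν • ((2 * Real.pi) • (EuclideanSpace.proj 4 : Euc 5 →L[ℝ] ℝ))) = wc ν := by
    have hpi : 2 * Real.pi ≠ 0 := by positivity
    ext v
    simp only [wc, _root_.smul_apply, _root_.add_apply,
      _root_.neg_apply, smul_eq_mul]
    field_simp
  rw [e] at h5
  exact h5

lemma hasFDerivAt_lp (ν a b c : ℝ) : HasFDerivAt (lp ν) (pc ν) (vec5 a b c 0 0) := by
  have h3 := hasFDerivAt_sin_coord 3 (x := vec5 a b c 0 0) rfl
  have h4 := hasFDerivAt_sin_coord 4 (x := vec5 a b c 0 0) rfl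
  have h5 := ((h3.const_mul ν).add h4).mul_const (2 * Real.pi)⁻¹
  have e : (2 * Real.pi)⁻¹ • (ν • ((2 * Real.pi) • (EuclideanSpace.proj 3 : Euc 5 →L[ℝ] ℝ)) +
      ((2 * Real.pi) • (EuclideanSpace.proj 4 : Euc 5 →L[ℝ] ℝ))) = pc ν := by
    have hpi : 2 * Real.pi ≠ 0 := by positivity
    ext v
    simp only [pc, _root_.smul_apply, _root_.add_apply, smul_eq_mul]
    field_simp
  rw [e] at h5
  exact h5

lemma fderiv_xip_flat (ν a b c : ℝ) (v : Euc 5) : fderiv ℝ (xip ν) (vec5 a b c 0 0) v =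
    -(bet b * Real.cos (2 * Real.pi * c)) * wc ν v := by
  have hg : ContDiff ℝ ∞ (fun x : Euc 5 => -(bet (x 1) * Real.cos (2 * Real.pi * x 2))) :=
    ((bet_contDiff.comp (coord_contDiff contDiff_id 1)).mul (c_cos 2)).neg
  have h1 := (hg.differentiable (by simp) (vec5 a b c 0 0)).hasFDerivAt
  have h2 := h1.mul (hasFDerivAt_lw ν a b c)
  have h3 : HasFDerivAt (xip ν) _ (vec5 a b c 0 0) := h2
  rw [h3.fderiv]
  simp [lw]

lemma fderiv_xiw_flat (ν a b c : ℝ) (v : Euc 5) : fderiv ℝ (xiw ν) (vec5 a b c 0 0) v =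
    (gam b * Real.cos (2 * Real.pi * c)) * pc ν v := by
  have hg : ContDiff ℝ ∞ (fun x : Euc 5 => (gam (x 1) * Real.cos (2 * Real.pi * x 2))) :=
    ((gam_contDiff.comp (coord_contDiff contDiff_id 1)).mul (c_cos 2))
  have h1 := (hg.differentiable (by simp) (vec5 a b c 0 0)).hasFDerivAt
  have h2 := h1.mul (hasFDerivAt_lp ν a b c)
  have h3 : HasFDerivAt (xiw ν) _ (vec5 a b c 0 0) := h2
  rw [h3.fderiv]
  simp [lp]

section orbit

variable (a : Par) {t : ℝ} (ht : t ∈ Icc (-1:ℝ) 1)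

/-- the function seen by the perturbations -/
def bco (n i : ℕ) (y : ℝ) : ℝ := bet (i / (8 * n)) * Real.cos (2 * Real.pi * phi (SS n i) y)
def cco (n i : ℕ) (y : ℝ) : ℝ := gam (i / (8 * n)) * Real.cos (2 * Real.pi * phi (SS n i) y)

lemma m_gl (n i : ℕ) (y : ℝ) : (a.D t ht).S.m (proj (gl n i y)) =
    (a.ν ^ 2)⁻¹ * (1 + a.dl * (cco n i y * (a.D t ht).S.u (proj (gl n i y)))) := by
  unfold Coc.Split.m
  have e1 : (a.D t ht).coc.ηw (proj (gl n i y)) = (a.D t ht).dl • fderiv ℝ (a.D t ht).ξw (gl n i y) :=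
    (a.D t ht).ηw_proj _
  rw [e1]
  set e := (a.D t ht).S.e (proj (gl n i y)) with he
  have e2 : (a.D t ht).coc.μ = a.ν ^ 2 := rfl
  have e3 : ((a.D t ht).dl • fderiv ℝ (a.D t ht).ξw (gl n i y)) e =
      a.dl * (fderiv ℝ (xiw a.ν) (gl n i y) e) := rfl
  rw [e2, e3]
  unfold gl
  rw [fderiv_xiw_flat]
  have e4 : pc a.ν e = (a.D t ht).S.u (proj (gl n i y)) := (a.D t ht).S.p_e _
  rw [e4]
  rfl

lemma mu_gl (n i : ℕ) (y : ℝ) : (a.D t ht).S.m (proj (gl n i y)) *
      (a.D t ht).S.u ((a.D t ht).f (proj (gl n i y))) =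
    (a.ν ^ 2) * ((a.D t ht).S.u (proj (gl n i y)) - a.dl * bco n i y) := by
  have h := (a.D t ht).S.hue (proj (gl n i y))
  have e0 : (a.D t ht).coc.μ = a.ν ^ 2 := rfl
  have e1 : (a.D t ht).coc.ηp (proj (gl n i y)) = (a.D t ht).dl • fderiv ℝ (a.D t ht).ξp (gl n i y) :=
    (a.D t ht).ηp_proj _
  have e2 : (a.D t ht).coc.f (proj (gl n i y)) = (a.D t ht).f (proj (gl n i y)) := rfl
  change (a.D t ht).S.m (proj (gl n i y)) * (a.D t ht).S.u ((a.D t ht).f (proj (gl n i y))) =
    (a.ν ^ 2) * ((a.D t ht).S.u (proj (gl n i y)) +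
      (a.D t ht).coc.ηp (proj (gl n i y)) ((a.D t ht).S.e (proj (gl n i y)))) at h
  rw [h, e1]
  have e3 : ((a.D t ht).dl • fderiv ℝ (a.D t ht).ξp (gl n i y)) ((a.D t ht).S.e (proj (gl n i y))) =
      a.dl * (fderiv ℝ (xip a.ν) (gl n i y) ((a.D t ht).S.e (proj (gl n i y)))) := rfl
  rw [e3]
  have e4 : wc a.ν ((a.D t ht).S.e (proj (gl n i y))) = 1 := (a.D t ht).S.w_e _
  have e5 : fderiv ℝ (xip a.ν) (gl n i y) ((a.D t ht).S.e (proj (gl n i y))) = -(bco n i y) := by
    have := fderiv_xip_flat a.ν (sN n) (i / (8 * n)) (phi (SS n i) y)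
      ((a.D t ht).S.e (proj (gl n i y)))
    rw [e4, mul_one] at this
    exact this
  rw [e5]; ring

end orbit

/-- the transition function on the circle -/
def gC (n : ℕ) : C(UnitAddCircle, ℝ) :=
  circDescend (fun x => Real.cos (2 * Real.pi * phi (-TT n) x))
    ((Real.contDiff_cos.comp (contDiff_const.mul
      (phi_comp_contDiff contDiff_const contDiff_id))).continuous)
    (by
      intro x
      simp only [phi_add_one]
      have := cos_per (phi (-TT n) x) 1
      simpa using this)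

lemma gC_coe (n : ℕ) (x : ℝ) : gC n (x : UnitAddCircle) = Real.cos (2 * Real.pi * phi (-TT n) x) := rfl

lemma gC_le (n : ℕ) (θ : UnitAddCircle) : |gC n θ| ≤ 1 := by
  obtain ⟨x, rfl⟩ := circ_surj θ
  rw [gC_coe]
  exact Real.abs_cos_le_one _

def kap (a : Par) : ℝ := ((a.ν ^ 2) ^ 2)⁻¹

lemma kap_pos (a : Par) : 0 < kap a := by
  unfold kap
  have := a.hν1
  positivity

lemma kap_le (a : Par) : kap a ≤ 1 / 100 := by
  unfold kap
  have := a.hμ
  rw [inv_le_comm₀ (by positivity) (by norm_num)]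
  norm_num
  nlinarith

def B0 (a : Par) (n : ℕ) : ℝ := ∑ j ∈ Finset.range (8 * n), kap a ^ j * bet (j / (8 * n))
def C0 (a : Par) (n : ℕ) : ℝ := ∑ j ∈ Finset.range (8 * n), kap a ^ (8 * n - j) * gam (j / (8 * n))

lemma B0_nonneg (a : Par) (n : ℕ) : 0 ≤ B0 a n := Finset.sum_nonneg fun j _ =>
  mul_nonneg (pow_nonneg (kap_pos a).le _) (bump_nonneg _)
lemma C0_nonneg (a : Par) (n : ℕ) : 0 ≤ C0 a n := Finset.sum_nonneg fun j _ =>
  mul_nonneg (pow_nonneg (kap_pos a).le _) (bump_nonneg _)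

lemma B0_le (a : Par) (n : ℕ) : B0 a n ≤ 2 := by
  have h0 := kap_pos a
  have h1 := kap_le a
  calc B0 a n ≤ ∑ j ∈ Finset.range (8 * n), kap a ^ j := by
        apply Finset.sum_le_sum
        intro j _
        have h2 : bet (j / (8 * n)) ≤ 1 := bump_le_one _
        have h3 : 0 ≤ kap a ^ j := by positivity
        nlinarith
    _ ≤ 1 / (1 - kap a) := by
        rw [geom_sum_eq (by linarith), ← neg_div_neg_eq]
        have : 0 < 1 - kap a := by linarith
        rw [neg_sub, neg_sub]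
        gcongr
        have : 0 ≤ kap a ^ (8 * n) := by positivity
        linarith
    _ ≤ 2 := by rw [div_le_iff₀ (by linarith)]; linarith

lemma C0_le (a : Par) (n : ℕ) : C0 a n ≤ 1 / 10 := by
  have h0 := kap_pos a
  have h1 := kap_le a
  calc C0 a n ≤ ∑ j ∈ Finset.range (8 * n), kap a ^ (8 * n - j) := by
        apply Finset.sum_le_sum
        intro j _
        have h2 : gam (j / (8 * n)) ≤ 1 := bump_le_one _
        have h3 : 0 ≤ kap a ^ (8 * n - j) := by positivity
        nlinarith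
    _ = ∑ j ∈ Finset.range (8 * n), kap a * kap a ^ j := by
        rw [← Finset.sum_range_reflect]
        apply Finset.sum_congr rfl
        intro j hj
        rw [Finset.mem_range] at hj
        rw [← pow_succ']
        congr 1; omega
    _ = kap a * ∑ j ∈ Finset.range (8 * n), kap a ^ j := by rw [Finset.mul_sum]
    _ ≤ kap a * (1 / (1 - kap a)) := by
        gcongr
        rw [geom_sum_eq (by linarith), ← neg_div_neg_eq]
        have : 0 < 1 - kap a := by linarith
        rw [neg_sub, neg_sub]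
        gcongr
        have : 0 ≤ kap a ^ (8 * n) := by positivity
        linarith
    _ ≤ 1 / 100 * 2 := by
        have h3 : 1 / (1 - kap a) ≤ 2 := by
          rw [div_le_iff₀ (by linarith)]; linarith
        have h4 : 0 ≤ 1 / (1 - kap a) := by
          apply div_nonneg (by norm_num); linarith
        exact mul_le_mul h1 h3 h4 (by norm_num)
    _ ≤ 1 / 10 := by norm_num

/-- the leading kernel -/
def zet (a : Par) (n : ℕ) : K2 :=
  ContinuousMap.const _ (a.dl ^ 2 * (B0 a n * C0 a n)) * tens (gC n)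

lemma zet_apply (a : Par) (n : ℕ) (p : UnitAddCircle × UnitAddCircle) :
    zet a n p = (a.dl ^ 2 * (B0 a n * C0 a n)) * (gC n p.1 * gC n p.2) := rfl

lemma coef_le (a : Par) (n : ℕ) : a.dl ^ 2 * (B0 a n * C0 a n) ≤ 1 / 10 := by
  have h1 := B0_le a n; have h2 := C0_le a n
  have h3 := B0_nonneg a n; have h4 := C0_nonneg a n
  have h5 := a.hdl; have h6 := a.hdl2
  calc a.dl ^ 2 * (B0 a n * C0 a n) ≤ (1 / 10) ^ 2 * (2 * (1 / 10)) := by gcongr
    _ ≤ 1 / 10 := by norm_num

lemma coef_nonneg (a : Par) (n : ℕ) : 0 ≤ a.dl ^ 2 * (B0 a n * C0 a n) := by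
  have h3 := B0_nonneg a n; have h4 := C0_nonneg a n
  positivity

lemma zet_mem (a : Par) (n : ℕ) : zet a n ∈ PD :=
  PD.mul_mem (const_mem_PD (coef_nonneg a n)) (tens_mem_PD _)

lemma zet_norm (a : Par) (n : ℕ) : ‖zet a n‖ ≤ 1 / 10 := by
  rw [ContinuousMap.norm_le _ (by norm_num)]
  intro p
  rw [zet_apply, Real.norm_eq_abs, abs_mul, abs_mul (gC n p.1), abs_of_nonneg (coef_nonneg a n)]
  have h1 := gC_le n p.1; have h2 := gC_le n p.2
  have h3 := coef_le a n
  calc a.dl ^ 2 * (B0 a n * C0 a n) * (|gC n p.1| * |gC n p.2|) ≤ (1 / 10) * (1 * 1) := by gcongr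
    _ = 1 / 10 := by norm_num

section main

variable (a : Par)

lemma sum_b {t : ℝ} {n : ℕ} (hn : 0 < n) (x : ℝ) :
    ∑ j ∈ Finset.range (8 * n), kap a ^ j * bco n j (x + t * XX n j) =
      B0 a n * gC n ((x + t * TT n : ℝ) : UnitAddCircle) := by
  unfold B0
  rw [Finset.sum_mul]
  apply Finset.sum_congr rfl
  intro j hj
  rw [Finset.mem_range] at hj
  unfold bco
  by_cases h : bet (j / (8 * n : ℝ)) = 0
  · rw [h]; ring
  · rw [SS_of_bet hn hj h, XX_of_bet hn hj h, gC_coe]; ring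

lemma sum_c {t : ℝ} {n : ℕ} (hn : 0 < n) (x : ℝ) :
    ∑ j ∈ Finset.range (8 * n), kap a ^ (8 * n - j) * cco n j (x + t * XX n j) =
      C0 a n * gC n (x : UnitAddCircle) := by
  unfold C0
  rw [Finset.sum_mul]
  apply Finset.sum_congr rfl
  intro j hj
  rw [Finset.mem_range] at hj
  unfold cco
  by_cases h : gam (j / (8 * n : ℝ)) = 0
  · rw [h]; ring
  · rw [SS_of_gam hn hj h, XX_of_gam hn hj h, gC_coe]
    rw [mul_zero, add_zero]; ring

/-- the logarithm of the contraction along the periodic orbits is a kernel -/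
lemma exists_kernel {n : ℕ} (hn : 0 < n) :
    ∃ k ∈ PD, ‖zet a n + k‖ ≤ 1 ∧ ∀ (t : ℝ) (ht : t ∈ Icc (-1:ℝ) 1) (θ : UnitAddCircle),
      ∑ i ∈ Finset.range (8 * n), Real.log ((a.D t ht).S.m (zz n t i θ)) =
        -((8 * n : ℕ) : ℝ) * Real.log (a.ν ^ 2) +
          (zet a n + k) (θ, θ + ((TT n * t : ℝ) : UnitAddCircle)) := by
  have hμ := a.hμ
  set μ : ℝ := a.ν ^ 2 with hμdef
  have hμ0 : 0 < μ := by linarith
  set ε : ℝ := ((μ ^ (8 * n)) ^ 2)⁻¹ with hε
  have hε0 : 0 ≤ ε := by positivity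
  have hε1 : ε ≤ 1 / 100 := by
    rw [hε, inv_le_comm₀ (by positivity) (by norm_num)]
    have h1 : (10:ℝ) ^ 1 ≤ μ ^ (8 * n) := by
      calc (10:ℝ) ^ 1 ≤ μ ^ 1 := by gcongr
        _ ≤ μ ^ (8 * n) := pow_le_pow_right₀ (by linarith) (by omega)
    norm_num
    nlinarith
  obtain ⟨Y, hY, hYn, hYe⟩ := fixed_PD (zet_mem a n) (zet_norm a n) hε0 hε1
  obtain ⟨k, hk, hke⟩ := log_PD (zet_mem a n) (zet_norm a n) hε0 hε1 hY hYn
  have hζp : ∀ p, |zet a n p| ≤ 1 / 10 := fun p =>
    ((zet a n).norm_coe_le_norm p).trans (zet_norm a n)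
  have hYp : ∀ p, |Y p| ≤ 1 / 2 := fun p => (Y.norm_coe_le_norm p).trans hYn
  have hsum : ∀ p, (zet a n + k) p = Real.log (1 + Y p) := by
    intro p
    rw [ContinuousMap.add_apply, ← hke p]
    exact (log_of_quad (hζp p) hε0 hε1 (hYp p) (hYe p)).symm
  refine ⟨k, hk, ?_, ?_⟩
  · rw [ContinuousMap.norm_le _ (by norm_num)]
    intro p
    rw [hsum, Real.norm_eq_abs]
    have h1 := abs_le.mp (hYp p)
    have hpos : 0 < 1 + Y p := by linarith
    rw [abs_le]
    constructor
    · have h2 := Real.one_sub_inv_le_log_of_pos hpos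
      have h3 : (1 + Y p)⁻¹ ≤ 2 := by
        rw [inv_le_comm₀ hpos (by norm_num)]; linarith
      linarith
    · have := Real.log_le_sub_one_of_pos hpos
      linarith
  · intro t ht θ
    obtain ⟨x, rfl⟩ := circ_surj θ
    set u : ℕ → ℝ := fun i => (a.D t ht).S.u (zz n t i (x : UnitAddCircle)) with hu
    set m : ℕ → ℝ := fun i => (a.D t ht).S.m (zz n t i (x : UnitAddCircle)) with hm
    set b : ℕ → ℝ := fun i => bco n i (x + t * XX n i) with hb
    set c : ℕ → ℝ := fun i => if i < 8 * n then cco n i (x + t * XX n i) else 0 with hc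
    have hcc : ∀ i < 8 * n, c i = cco n i (x + t * XX n i) := fun i hi => by
      simp only [hc, if_pos hi]
    have H := rec_solve (N := 8 * n) (i1 := 4 * n) (μ := μ) (dl := a.dl) hμ0.ne'
      (b := b) (c := c) (u := u) (m := m)
      (by
        intro i hi h4
        simp only [hb, bco]
        have : bet (i / (8 * n : ℝ)) = 0 := by
          by_contra hne
          have := range_of_bet hn hi hne
          omega
        rw [this, zero_mul])
      (by
        intro i hi
        simp only [hc]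
        split_ifs with h8
        · unfold cco
          have : gam (i / (8 * n : ℝ)) = 0 := by
            by_contra hne
            have := range_of_gam hn h8 hne
            omega
          rw [this, zero_mul]
        · rfl)
      (by
        intro i hi
        simp only [hm, hu]
        rw [hcc i hi, zz_coe]
        exact m_gl a ht n i _)
      (by
        intro i hi
        simp only [hm, hu, hb]
        rw [← f_zz a ht hn hi, zz_coe]
        exact mu_gl a ht n i _)
      (by simp only [hu]; rw [zz_full hn])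
    simp only at H
    obtain ⟨H1, H2⟩ := H
    have hB : ∑ j ∈ Finset.range (8 * n), (μ ^ 2)⁻¹ ^ j * b j =
        B0 a n * gC n ((x + t * TT n : ℝ) : UnitAddCircle) := sum_b a hn x
    have hC : ∑ j ∈ Finset.range (8 * n), (μ ^ 2)⁻¹ ^ (8 * n - j) * c j =
        C0 a n * gC n (x : UnitAddCircle) := by
      rw [← sum_c a hn x (t := t)]
      apply Finset.sum_congr rfl
      intro j hj
      rw [Finset.mem_range] at hj
      rw [hcc j hj]; rfl
    rw [hC] at H1
    rw [hB] at H2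
    set X : ℝ := μ ^ (8 * n) * ∏ j ∈ Finset.range (8 * n), m j with hX
    have hq := quad_of_rec H1 H2
    set p : UnitAddCircle × UnitAddCircle :=
      ((x : UnitAddCircle), (x : UnitAddCircle) + ((TT n * t : ℝ) : UnitAddCircle)) with hp
    have hzp : zet a n p = a.dl ^ 2 * (B0 a n * gC n ((x + t * TT n : ℝ) : UnitAddCircle) *
        (C0 a n * gC n (x : UnitAddCircle))) := by
      rw [zet_apply, hp]
      simp only
      rw [← AddCircle.coe_add, mul_comm (TT n) t]
      ring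
    rw [← hzp] at hq
    have hXb : |X - 1| ≤ 1 / 2 := by
      apply bound_of_rec (w := a.dl * (C0 a n * gC n (x : UnitAddCircle)) * u 0) ?_ H1
      have h1 := (a.D t ht).S.hu (zz n t 0 (x : UnitAddCircle))
      have h2 := gC_le n (x : UnitAddCircle)
      have h3 := C0_le a n
      have h4 := C0_nonneg a n
      have h5 := a.hdl; have h6 := a.hdl2
      rw [abs_mul, abs_mul, abs_mul, abs_of_pos h5, abs_of_nonneg h4]
      calc a.dl * (C0 a n * |gC n (x : UnitAddCircle)|) * |u 0|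
          ≤ (1 / 10) * ((1 / 10) * 1) * (1 / 2) := by
            gcongr
        _ ≤ 1 / 10 := by norm_num
    have hXY : X - 1 = Y p := quad_unique (hζp p) hε0 hε1 hXb (hYp p) hq (hYe p)
    have hmpos : ∀ i, 0 < m i := fun i => (a.D t ht).S.m_pos _
    have hlogX : Real.log X = ((8 * n : ℕ) : ℝ) * Real.log μ +
        ∑ i ∈ Finset.range (8 * n), Real.log (m i) := by
      rw [hX, Real.log_mul (by positivity) (Finset.prod_pos fun i _ => hmpos i).ne', Real.log_pow,
        Real.log_prod (fun i _ => (hmpos i).ne')]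
    have hfin : (zet a n + k) p = Real.log X := by
      rw [hsum, ← hXY]; congr 1; ring
    rw [hfin, hlogX]
    ring

end main

end

end Pool.Agent.H14.Lyap
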