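import Mathlib

open Set Filter Topology

namespace Pool.Agent.H14.Lyap

noncomputable section

/-- data of an almost block-diagonal cocycle over a homeomorphism of a compact space -/
structure Coc (K V : Type) [TopologicalSpace K] [CompactSpace K] [NormedAddCommGroup V]
    [NormedSpace ℝ V] where
  f : K ≃ₜ K
  A : C(K, V →L[ℝ] V)
  B : C(K, V →L[ℝ] V)
  ep : V
  ew : V
  p : V →L[ℝ] ℝ
  w : V →L[ℝ] ℝ
  ηp : C(K, V →L[ℝ] ℝ)
  ηw : C(K, V →L[ℝ] ℝ)
  μ : ℝ
  Kg : ℝ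
  d : ℝ
  pep : p ep = 1
  pew : p ew = 0
  wep : w ep = 0
  wew : w ew = 1
  nep : ‖ep‖ ≤ 1
  new : ‖ew‖ ≤ 1
  hμ : 10 ≤ μ
  hKg : 1 ≤ Kg
  hμK : 8 * Kg ≤ μ
  hd : 0 ≤ d
  -- `d` bounds the norms of `ηp, ηw`
  hηp : ∀ z, ‖ηp z‖ ≤ d
  hηw : ∀ z, ‖ηw z‖ ≤ d
  hdsmall : 100 * (μ + 1) * Kg * d ≤ 1
  pA : ∀ z v, p (A z v) = μ * (p v + ηp z v)
  wA : ∀ z v, w (A z v) = μ⁻¹ * (w v + ηw z v)
  -- the complement projection
  pN : V →L[ℝ] V
  hpN : ∀ v, v = pN v + (p v) • ep + (w v) • ew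
  ppN : ∀ v, p (pN v) = 0
  wpN : ∀ v, w (pN v) = 0
  NA : ∀ z v, pN (A z v) = pN (A z (pN v))
  NB : ∀ z v, pN (B z v) = pN (B z (pN v))
  NBA : ∀ z v, pN (B (f z) (A z v)) = pN v
  hB : ∀ z v, ‖pN (B z v)‖ ≤ Kg * ‖v‖

namespace Coc

variable {K V : Type} [TopologicalSpace K] [CompactSpace K] [NormedAddCommGroup V]
    [NormedSpace ℝ V] (c : Coc K V)

lemma d_le : c.d ≤ 1 / 1000 := by
  have h1 := c.hμ; have h2 := c.hKg; have h3 := c.hd; have h4 := c.hdsmall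
  have h5 : 1100 * c.d ≤ 100 * (c.μ + 1) * c.Kg * c.d := by
    have : (1100 : ℝ) ≤ 100 * (c.μ + 1) * c.Kg := by nlinarith
    exact mul_le_mul_of_nonneg_right this h3
  linarith

lemma μ_pos : 0 < c.μ := by linarith [c.hμ]

lemma μinv_le : c.μ⁻¹ ≤ 1 / 10 := by
  rw [inv_le_comm₀ c.μ_pos (by norm_num)]
  have := c.hμ
  norm_num; linarith

lemma abs_eta {η : V →L[ℝ] ℝ} {e : V} (h : ‖η‖ ≤ c.d) (he : ‖e‖ ≤ 1) : |η e| ≤ c.d := by
  have h1 := η.le_opNorm e
  rw [Real.norm_eq_abs] at h1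
  have h2 := norm_nonneg e
  have h3 := norm_nonneg η
  calc |η e| ≤ ‖η‖ * ‖e‖ := h1
    _ ≤ c.d * 1 := by apply mul_le_mul h he h2 c.hd
    _ = c.d := mul_one _

/-- clip to `[-1,1]` -/
def clip (r : ℝ) : ℝ := max (-1) (min 1 r)

lemma clip_cont : Continuous clip := by unfold clip; fun_prop

lemma abs_clip (r : ℝ) : |clip r| ≤ 1 := by
  unfold clip
  rw [abs_le]
  constructor
  · exact le_max_left _ _
  · exact max_le (by norm_num) (min_le_left _ _)

lemma clip_eq {r : ℝ} (h : |r| ≤ 1) : clip r = r := by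
  rw [abs_le] at h
  unfold clip
  rw [min_eq_right h.2, max_eq_right h.1]

lemma clip_lip (r s : ℝ) : |clip r - clip s| ≤ |r - s| := by
  unfold clip
  calc |max (-1) (min 1 r) - max (-1) (min 1 s)| ≤ |min 1 r - min 1 s| := by
        have := abs_max_sub_max_le_max (-1 : ℝ) (min 1 r) (-1) (min 1 s)
        simpa using this
    _ ≤ |r - s| := by
        have := abs_min_sub_min_le_max (1 : ℝ) r 1 s
        simpa using this

/-- the generic Moebius contraction -/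
lemma moebius {κ a b c' e d r s : ℝ} (hκ : |κ| ≤ 1 / 10) (hd : d ≤ 1 / 1000)
    (ha : |a| ≤ d) (hb : |b| ≤ d) (hc : |c'| ≤ d) (he : |e| ≤ d) (hr : |r| ≤ 1) (hs : |s| ≤ 1) :
    |(κ * r * (1 + a) - b) / ((1 + c') - κ * r * e)| ≤ 1 / 2 ∧
    |(κ * r * (1 + a) - b) / ((1 + c') - κ * r * e) -
      (κ * s * (1 + a) - b) / ((1 + c') - κ * s * e)| ≤ 1 / 2 * |r - s| := by
  have key : ∀ r : ℝ, |r| ≤ 1 → |κ * r| ≤ 1 / 10 := by
    intro r hr
    rw [abs_mul]
    have := abs_nonneg κ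
    have := abs_nonneg r
    nlinarith
  have h1 := key r hr
  have h2 := key s hs
  have kr : ∀ r : ℝ, |κ * r| ≤ 1 / 10 → 9 / 10 ≤ (1 + c') - κ * r * e := by
    intro r h
    have h3 : |κ * r * e| ≤ 1 / 1000 := by
      rw [abs_mul]
      have := abs_nonneg (κ * r); have := abs_nonneg e
      nlinarith
    have := (abs_le.mp h3).2
    have := (abs_le.mp hc).1
    linarith
  have d1 := kr r h1
  have d2 := kr s h2
  have d1p : 0 < (1 + c') - κ * r * e := by linarith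
  have d2p : 0 < (1 + c') - κ * s * e := by linarith
  constructor
  · rw [abs_div, abs_of_pos d1p, div_le_iff₀ d1p]
    have h4 : |κ * r * (1 + a) - b| ≤ 1 / 5 := by
      have e1 : |κ * r * (1 + a)| ≤ 11 / 100 := by
        rw [abs_mul]
        have : |1 + a| ≤ 11 / 10 := by
          calc |1 + a| ≤ |1| + |a| := abs_add_le _ _
            _ ≤ 11 / 10 := by rw [abs_one]; linarith
        have := abs_nonneg (κ * r); have := abs_nonneg (1 + a)
        nlinarith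
      calc |κ * r * (1 + a) - b| ≤ |κ * r * (1 + a)| + |b| := abs_sub _ _
        _ ≤ 1 / 5 := by linarith
    linarith
  · have e1 : (κ * r * (1 + a) - b) / ((1 + c') - κ * r * e) -
        (κ * s * (1 + a) - b) / ((1 + c') - κ * s * e) =
        (κ * (r - s)) * (((1 + a) * (1 + c') - b * e) / (((1 + c') - κ * r * e) * ((1 + c') - κ * s * e))) := by
      rw [div_sub_div _ _ d1p.ne' d2p.ne', ← mul_div_assoc]
      congr 1; ring
    rw [e1, abs_mul, abs_mul]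
    have hprod : 81 / 100 ≤ ((1 + c') - κ * r * e) * ((1 + c') - κ * s * e) := by nlinarith
    have hnum : |(1 + a) * (1 + c') - b * e| ≤ 2 := by
      have p1 := abs_le.mp ha; have p2 := abs_le.mp hc; have p3 := abs_le.mp hb
      have p4 := abs_le.mp he
      have q1 : |b * e| ≤ 1 / 1000 := by
        rw [abs_mul]; have := abs_nonneg b; have := abs_nonneg e; nlinarith
      have q2 := abs_le.mp q1
      rw [abs_le]
      constructor <;> nlinarith
    have hq : |((1 + a) * (1 + c') - b * e) / (((1 + c') - κ * r * e) * ((1 + c') - κ * s * e))| ≤ 3 := by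
      rw [abs_div, abs_of_pos (by linarith : 0 < ((1 + c') - κ * r * e) * ((1 + c') - κ * s * e)),
        div_le_iff₀ (by linarith)]
      linarith
    have n1 := abs_nonneg κ
    have n2 := abs_nonneg (r - s)
    have n3 := abs_nonneg (((1 + a) * (1 + c') - b * e) / (((1 + c') - κ * r * e) * ((1 + c') - κ * s * e)))
    calc |κ| * |r - s| * _ ≤ (1 / 10) * |r - s| * 3 := by
          gcongr
      _ ≤ 1 / 2 * |r - s| := by linarith

lemma κ_abs : |c.μ⁻¹ * c.μ⁻¹| ≤ 1 / 10 := by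
  have h := c.μinv_le
  have h2 : 0 < c.μ⁻¹ := inv_pos.mpr c.μ_pos
  rw [abs_of_pos (by positivity)]
  nlinarith

/-- slope of the strong direction -/
lemma exists_u : ∃ u : C(K, ℝ), (∀ z, |u z| ≤ 1 / 2) ∧ ∀ z,
    c.μ⁻¹ * (1 + c.ηw z ((u z) • c.ep + c.ew)) * u (c.f z) =
      c.μ * (u z + c.ηp z ((u z) • c.ep + c.ew)) := by
  set κ := c.μ⁻¹ * c.μ⁻¹ with hκdef
  have hκ : |κ| ≤ 1 / 10 := c.κ_abs
  have hd := c.d_le
  have bpp : ∀ z, |c.ηp z c.ep| ≤ c.d := fun z => c.abs_eta (c.hηp z) c.nep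
  have bpw : ∀ z, |c.ηp z c.ew| ≤ c.d := fun z => c.abs_eta (c.hηp z) c.new
  have bwp : ∀ z, |c.ηw z c.ep| ≤ c.d := fun z => c.abs_eta (c.hηw z) c.nep
  have bww : ∀ z, |c.ηw z c.ew| ≤ c.d := fun z => c.abs_eta (c.hηw z) c.new
  let Γ : K → ℝ → ℝ := fun z r =>
    (κ * r * (1 + c.ηw z c.ew) - c.ηp z c.ew) / ((1 + c.ηp z c.ep) - κ * r * c.ηw z c.ep)
  have hden : ∀ z r, |r| ≤ 1 → 0 < (1 + c.ηp z c.ep) - κ * r * c.ηw z c.ep := by
    intro z r hr
    have h1 : |κ * r * c.ηw z c.ep| ≤ 1 / 10 * 1 * 1 := by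
      rw [abs_mul, abs_mul]
      have := bwp z
      gcongr
      linarith
    have h2 := (abs_le.mp h1).2
    have h3 := (abs_le.mp (bpp z)).1
    linarith
  let T : C(K, ℝ) → C(K, ℝ) := fun u =>
    ⟨fun z => Γ z (clip (u (c.f z))), by
      have hc1 : Continuous fun z => clip (u (c.f z)) :=
        clip_cont.comp (u.continuous.comp c.f.continuous)
      have e1 : Continuous fun z => c.ηw z c.ew := by fun_prop
      have e2 : Continuous fun z => c.ηp z c.ew := by fun_prop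
      have e3 : Continuous fun z => c.ηp z c.ep := by fun_prop
      have e4 : Continuous fun z => c.ηw z c.ep := by fun_prop
      refine Continuous.div ?_ ?_ ?_
      · fun_prop
      · fun_prop
      · intro z; exact (hden z _ (abs_clip _)).ne'⟩
  have hT : ContractingWith (1 / 2 : NNReal) T := by
    refine ⟨by norm_num, ?_⟩
    apply LipschitzWith.of_dist_le_mul
    intro u u'
    rw [ContinuousMap.dist_le (by positivity)]
    intro z
    have h := (moebius (κ := κ) (a := c.ηw z c.ew) (b := c.ηp z c.ew) (c' := c.ηp z c.ep)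
      (e := c.ηw z c.ep) (d := c.d) (r := clip (u (c.f z))) (s := clip (u' (c.f z))) hκ hd
      (bww z) (bpw z) (bpp z) (bwp z) (abs_clip _) (abs_clip _)).2
    have h2 := clip_lip (u (c.f z)) (u' (c.f z))
    have h3 : |u (c.f z) - u' (c.f z)| ≤ dist u u' := by
      have := ContinuousMap.dist_apply_le_dist (f := u) (g := u') (c.f z)
      rwa [Real.dist_eq] at this
    rw [Real.dist_eq]
    change |Γ z (clip (u (c.f z))) - Γ z (clip (u' (c.f z)))| ≤ _
    calc _ ≤ 1 / 2 * |clip (u (c.f z)) - clip (u' (c.f z))| := h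
      _ ≤ 1 / 2 * dist u u' := by linarith
      _ = _ := by norm_num
  obtain ⟨u, hu⟩ : ∃ u, T u = u := ⟨_, hT.fixedPoint_isFixedPt⟩
  have hub : ∀ z, |u z| ≤ 1 / 2 := by
    intro z
    have e : u z = Γ z (clip (u (c.f z))) := by
      conv_lhs => rw [← hu]
      rfl
    rw [e]
    exact (moebius (κ := κ) (a := c.ηw z c.ew) (b := c.ηp z c.ew) (c' := c.ηp z c.ep)
      (e := c.ηw z c.ep) (d := c.d) (r := clip (u (c.f z))) (s := 0) hκ hd
      (bww z) (bpw z) (bpp z) (bwp z) (abs_clip _) (by simp)).1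
  refine ⟨u, hub, fun z => ?_⟩
  have e : u z = Γ z (clip (u (c.f z))) := by
    conv_lhs => rw [← hu]
    rfl
  rw [clip_eq (by have := hub (c.f z); linarith)] at e
  have hdz := hden z (u (c.f z)) (by have := hub (c.f z); linarith)
  have e2 : u z * ((1 + c.ηp z c.ep) - κ * u (c.f z) * c.ηw z c.ep) =
      κ * u (c.f z) * (1 + c.ηw z c.ew) - c.ηp z c.ew := by
    rw [e]; exact div_mul_cancel₀ _ hdz.ne'
  simp only [map_add, map_smul, smul_eq_mul]
  have hμ := c.μ_pos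
  have hμi : c.μ * c.μ⁻¹ = 1 := mul_inv_cancel₀ hμ.ne'
  rw [hκdef] at e2
  linear_combination (-c.μ) * e2 +
    (-(c.μ⁻¹ * u (c.f z) * (u z * c.ηw z c.ep + 1 + c.ηw z c.ew))) * hμi

/-- the generic Moebius contraction, second form -/
lemma moebius' {κ a b c' e d r s : ℝ} (hκ : |κ| ≤ 1 / 10) (hd : d ≤ 1 / 1000)
    (ha : |a| ≤ d) (hb : |b| ≤ d) (hc : |c'| ≤ d) (he : |e| ≤ d) (hr : |r| ≤ 1) (hs : |s| ≤ 1) :
    |(κ * r * (1 + a) - b) / ((1 + c') - r * e)| ≤ 1 / 2 ∧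
    |(κ * r * (1 + a) - b) / ((1 + c') - r * e) -
      (κ * s * (1 + a) - b) / ((1 + c') - s * e)| ≤ 1 / 2 * |r - s| := by
  have kr : ∀ r : ℝ, |r| ≤ 1 → 9 / 10 ≤ (1 + c') - r * e := by
    intro r h
    have h3 : |r * e| ≤ 1 / 1000 := by
      rw [abs_mul]
      have := abs_nonneg r; have := abs_nonneg e
      nlinarith
    have := (abs_le.mp h3).2
    have := (abs_le.mp hc).1
    linarith
  have d1 := kr r hr
  have d2 := kr s hs
  have d1p : 0 < (1 + c') - r * e := by linarith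
  have d2p : 0 < (1 + c') - s * e := by linarith
  have ha1 : |1 + a| ≤ 11 / 10 := by
    calc |1 + a| ≤ |1| + |a| := abs_add_le _ _
      _ ≤ 11 / 10 := by rw [abs_one]; linarith
  have hc1 : |1 + c'| ≤ 11 / 10 := by
    calc |1 + c'| ≤ |1| + |c'| := abs_add_le _ _
      _ ≤ 11 / 10 := by rw [abs_one]; linarith
  constructor
  · rw [abs_div, abs_of_pos d1p, div_le_iff₀ d1p]
    have h4 : |κ * r * (1 + a) - b| ≤ 1 / 5 := by
      have e1 : |κ * r * (1 + a)| ≤ 1 / 10 * 1 * (11 / 10) := by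
        rw [abs_mul, abs_mul]; gcongr
      calc |κ * r * (1 + a) - b| ≤ |κ * r * (1 + a)| + |b| := abs_sub _ _
        _ ≤ 1 / 5 := by linarith
    linarith
  · have e1 : (κ * r * (1 + a) - b) / ((1 + c') - r * e) -
        (κ * s * (1 + a) - b) / ((1 + c') - s * e) =
        (r - s) * ((κ * (1 + a) * (1 + c') - b * e) / (((1 + c') - r * e) * ((1 + c') - s * e))) := by
      rw [div_sub_div _ _ d1p.ne' d2p.ne', ← mul_div_assoc]
      congr 1; ring
    rw [e1, abs_mul]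
    have hprod : 81 / 100 ≤ ((1 + c') - r * e) * ((1 + c') - s * e) := by nlinarith
    have hnum : |κ * (1 + a) * (1 + c') - b * e| ≤ 1 / 5 := by
      have q0 : |κ * (1 + a) * (1 + c')| ≤ 1 / 10 * (11 / 10) * (11 / 10) := by
        rw [abs_mul, abs_mul]; gcongr
      have q1 : |b * e| ≤ 1 / 1000 := by
        rw [abs_mul]; have := abs_nonneg b; have := abs_nonneg e; nlinarith
      calc _ ≤ |κ * (1 + a) * (1 + c')| + |b * e| := abs_sub _ _
        _ ≤ 1 / 5 := by linarith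
    have hq : |(κ * (1 + a) * (1 + c') - b * e) / (((1 + c') - r * e) * ((1 + c') - s * e))| ≤ 1 / 2 := by
      rw [abs_div, abs_of_pos (by linarith : 0 < ((1 + c') - r * e) * ((1 + c') - s * e)),
        div_le_iff₀ (by linarith)]
      linarith
    have n2 := abs_nonneg (r - s)
    calc |r - s| * _ ≤ |r - s| * (1 / 2) := by gcongr
      _ = 1 / 2 * |r - s| := by ring

/-- slope of the weak bundle in the `ep`-direction -/
lemma exists_v : ∃ v : C(K, ℝ), (∀ z, |v z| ≤ 1 / 2) ∧ ∀ z,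
    v (c.f z) * (c.μ * ((1 + c.ηp z c.ep) - v z * c.ηp z c.ew)) =
      c.μ⁻¹ * ((1 + c.ηw z c.ew) * v z - c.ηw z c.ep) := by
  set κ := c.μ⁻¹ * c.μ⁻¹ with hκdef
  have hκ : |κ| ≤ 1 / 10 := c.κ_abs
  have hd := c.d_le
  have bpp : ∀ z, |c.ηp z c.ep| ≤ c.d := fun z => c.abs_eta (c.hηp z) c.nep
  have bpw : ∀ z, |c.ηp z c.ew| ≤ c.d := fun z => c.abs_eta (c.hηp z) c.new
  have bwp : ∀ z, |κ * c.ηw z c.ep| ≤ c.d := fun z => by
    have h1 := c.abs_eta (c.hηw z) c.nep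
    rw [abs_mul]
    have := abs_nonneg κ; have := abs_nonneg (c.ηw z c.ep)
    nlinarith
  have bww : ∀ z, |c.ηw z c.ew| ≤ c.d := fun z => c.abs_eta (c.hηw z) c.new
  let Γ : K → ℝ → ℝ := fun z r =>
    (κ * r * (1 + c.ηw z c.ew) - κ * c.ηw z c.ep) / ((1 + c.ηp z c.ep) - r * c.ηp z c.ew)
  have hden : ∀ z r, |r| ≤ 1 → 0 < (1 + c.ηp z c.ep) - r * c.ηp z c.ew := by
    intro z r hr
    have h1 : |r * c.ηp z c.ew| ≤ 1 * (1 / 1000) := by
      rw [abs_mul]
      have := bpw z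
      gcongr
      linarith
    have h2 := (abs_le.mp h1).2
    have h3 := (abs_le.mp (bpp z)).1
    linarith
  let T : C(K, ℝ) → C(K, ℝ) := fun v =>
    ⟨fun y => Γ (c.f.symm y) (clip (v (c.f.symm y))), by
      have hc0 : Continuous fun y => c.f.symm y := c.f.symm.continuous
      have hc1 : Continuous fun y => clip (v (c.f.symm y)) :=
        clip_cont.comp (v.continuous.comp hc0)
      have e1 : Continuous fun y => c.ηw (c.f.symm y) c.ew := by fun_prop
      have e2 : Continuous fun y => c.ηp (c.f.symm y) c.ew := by fun_prop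
      have e3 : Continuous fun y => c.ηp (c.f.symm y) c.ep := by fun_prop
      have e4 : Continuous fun y => c.ηw (c.f.symm y) c.ep := by fun_prop
      refine Continuous.div ?_ ?_ ?_
      · fun_prop
      · fun_prop
      · intro z; exact (hden _ _ (abs_clip _)).ne'⟩
  have hT : ContractingWith (1 / 2 : NNReal) T := by
    refine ⟨by norm_num, ?_⟩
    apply LipschitzWith.of_dist_le_mul
    intro u u'
    rw [ContinuousMap.dist_le (by positivity)]
    intro y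
    set z := c.f.symm y with hz
    have h := (moebius' (κ := κ) (a := c.ηw z c.ew) (b := κ * c.ηw z c.ep) (c' := c.ηp z c.ep)
      (e := c.ηp z c.ew) (d := c.d) (r := clip (u z)) (s := clip (u' z)) hκ hd
      (bww z) (bwp z) (bpp z) (bpw z) (abs_clip _) (abs_clip _)).2
    have h2 := clip_lip (u z) (u' z)
    have h3 : |u z - u' z| ≤ dist u u' := by
      have := ContinuousMap.dist_apply_le_dist (f := u) (g := u') z
      rwa [Real.dist_eq] at this
    rw [Real.dist_eq]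
    change |Γ z (clip (u z)) - Γ z (clip (u' z))| ≤ _
    calc _ ≤ 1 / 2 * |clip (u z) - clip (u' z)| := h
      _ ≤ 1 / 2 * dist u u' := by linarith
      _ = _ := by norm_num
  obtain ⟨u, hu⟩ : ∃ u, T u = u := ⟨_, hT.fixedPoint_isFixedPt⟩
  have hub : ∀ z, |u z| ≤ 1 / 2 := by
    intro y
    have e : u y = Γ (c.f.symm y) (clip (u (c.f.symm y))) := by
      conv_lhs => rw [← hu]
      rfl
    rw [e]
    exact (moebius' (κ := κ) (d := c.d) (s := 0) hκ hd
      (bww _) (bwp _) (bpp _) (bpw _) (abs_clip _) (by simp)).1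
  refine ⟨u, hub, fun z => ?_⟩
  have e : u (c.f z) = Γ z (clip (u z)) := by
    conv_lhs => rw [← hu]
    change Γ (c.f.symm (c.f z)) (clip (u (c.f.symm (c.f z)))) = _
    rw [c.f.symm_apply_apply]
  rw [clip_eq (by have := hub z; linarith)] at e
  have hdz := hden z (u z) (by have := hub z; linarith)
  have e2 : u (c.f z) * ((1 + c.ηp z c.ep) - u z * c.ηp z c.ew) =
      κ * u z * (1 + c.ηw z c.ew) - κ * c.ηw z c.ep := by
    rw [e]; exact div_mul_cancel₀ _ hdz.ne'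
  have hμ := c.μ_pos
  have hμi : c.μ * c.μ⁻¹ = 1 := mul_inv_cancel₀ hμ.ne'
  rw [hκdef] at e2
  linear_combination c.μ * e2 +
    (c.μ⁻¹ * ((1 + c.ηw z c.ew) * u z - c.ηw z c.ep)) * hμi

/-- the `k`-multiplier -/
def kk (v : C(K, ℝ)) (z : K) : ℝ :=
  c.μ⁻¹ * (1 + c.ηw z c.ew) + v (c.f z) * (c.μ * c.ηp z c.ew)

lemma v_small {v : C(K, ℝ)} (hv : ∀ z, |v z| ≤ 1 / 2) (he : ∀ z,
    v (c.f z) * (c.μ * ((1 + c.ηp z c.ep) - v z * c.ηp z c.ew)) =
      c.μ⁻¹ * ((1 + c.ηw z c.ew) * v z - c.ηw z c.ep)) (z : K) :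
    |v (c.f z)| * c.μ ≤ c.μ⁻¹ := by
  have hd := c.d_le
  have h1 := c.abs_eta (c.hηp z) c.nep
  have h2 := c.abs_eta (c.hηp z) c.new
  have h3 := c.abs_eta (c.hηw z) c.nep
  have h4 := c.abs_eta (c.hηw z) c.new
  have hv1 := hv z
  have hμ := c.μ_pos
  have hμi : 0 < c.μ⁻¹ := inv_pos.mpr hμ
  have e := he z
  have e1 : 9 / 10 ≤ (1 + c.ηp z c.ep) - v z * c.ηp z c.ew := by
    have : |v z * c.ηp z c.ew| ≤ 1 / 2 * (1 / 1000) := by
      rw [abs_mul]; gcongr; linarith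
    have := (abs_le.mp this).2
    have := (abs_le.mp h1).1
    linarith
  have e2 : |(1 + c.ηw z c.ew) * v z - c.ηw z c.ep| ≤ 6 / 10 := by
    have q1 : |1 + c.ηw z c.ew| ≤ 11 / 10 := by
      calc |1 + c.ηw z c.ew| ≤ |1| + |c.ηw z c.ew| := abs_add_le _ _
        _ ≤ 11 / 10 := by rw [abs_one]; linarith
    calc _ ≤ |(1 + c.ηw z c.ew) * v z| + |c.ηw z c.ep| := abs_sub _ _
      _ ≤ 11 / 10 * (1 / 2) + 1 / 1000 := by
          rw [abs_mul]; gcongr; linarith
      _ ≤ 6 / 10 := by norm_num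
  have e3 : |v (c.f z)| * (c.μ * ((1 + c.ηp z c.ep) - v z * c.ηp z c.ew)) ≤ c.μ⁻¹ * (6 / 10) := by
    have hpos : 0 < c.μ * ((1 + c.ηp z c.ep) - v z * c.ηp z c.ew) := by
      apply mul_pos hμ; linarith
    calc |v (c.f z)| * (c.μ * ((1 + c.ηp z c.ep) - v z * c.ηp z c.ew))
        = |v (c.f z) * (c.μ * ((1 + c.ηp z c.ep) - v z * c.ηp z c.ew))| := by
          rw [abs_mul (v (c.f z)), abs_of_pos hpos]
      _ = c.μ⁻¹ * |(1 + c.ηw z c.ew) * v z - c.ηw z c.ep| := by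
          rw [e, abs_mul, abs_of_pos hμi]
      _ ≤ c.μ⁻¹ * (6 / 10) := by gcongr
  have e4 : |v (c.f z)| * (c.μ * (9 / 10)) ≤ |v (c.f z)| * (c.μ * ((1 + c.ηp z c.ep) - v z * c.ηp z c.ew)) := by
    gcongr
  nlinarith

lemma kk_bound {v : C(K, ℝ)} (hv : ∀ z, |v z| ≤ 1 / 2) (he : ∀ z,
    v (c.f z) * (c.μ * ((1 + c.ηp z c.ep) - v z * c.ηp z c.ew)) =
      c.μ⁻¹ * ((1 + c.ηw z c.ew) * v z - c.ηw z c.ep)) (z : K) :
    |c.kk v z| ≤ 2 * c.μ⁻¹ := by
  have hd := c.d_le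
  have h2 := c.abs_eta (c.hηp z) c.new
  have h4 := c.abs_eta (c.hηw z) c.new
  have hμ := c.μ_pos
  have hμi : 0 < c.μ⁻¹ := inv_pos.mpr hμ
  have h5 := c.v_small hv he z
  unfold kk
  have q1 : |1 + c.ηw z c.ew| ≤ 11 / 10 := by
    calc |1 + c.ηw z c.ew| ≤ |1| + |c.ηw z c.ew| := abs_add_le _ _
      _ ≤ 11 / 10 := by rw [abs_one]; linarith
  calc |c.μ⁻¹ * (1 + c.ηw z c.ew) + v (c.f z) * (c.μ * c.ηp z c.ew)|
      ≤ |c.μ⁻¹ * (1 + c.ηw z c.ew)| + |v (c.f z) * (c.μ * c.ηp z c.ew)| := abs_add_le _ _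
    _ = c.μ⁻¹ * |1 + c.ηw z c.ew| + (|v (c.f z)| * c.μ) * |c.ηp z c.ew| := by
        rw [abs_mul, abs_mul, abs_mul, abs_of_pos hμi, abs_of_pos hμ]; ring
    _ ≤ c.μ⁻¹ * (11 / 10) + c.μ⁻¹ * (1 / 1000) := by
        gcongr; linarith
    _ ≤ 2 * c.μ⁻¹ := by linarith

end Coc

end

end Pool.Agent.H14.Lyap
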