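import Pool.Agent.H14.LyapDefs

open MeasureTheory Set Filter Topology ContDiff

namespace Pool.Agent.H14.Lyap

noncomputable section

/-- The map of the torus induced by a lift `F`. -/
def torusMap {d : ℕ} (F : Euc d → Euc d) (θ : Torus d) : Torus d := proj (F (rep θ))

/-- integer vector -/
def zvec {d : ℕ} (k : Fin d → ℤ) : Euc d := WithLp.toLp 2 (fun i => (k i : ℝ))

@[simp] lemma zvec_apply {d : ℕ} (k : Fin d → ℤ) (i : Fin d) : zvec k i = (k i : ℝ) := rfl

lemma proj_continuous {d : ℕ} : Continuous (proj : Euc d → Torus d) := by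
  unfold proj
  refine continuous_pi fun i => ?_
  exact (AddCircle.continuous_mk' 1).comp (by fun_prop)

lemma proj_rep {d : ℕ} (θ : Torus d) : proj (rep θ) = θ := by
  funext i
  simp only [proj, rep]
  exact (AddCircle.equivIco (1 : ℝ) 0).symm_apply_apply (θ i)

lemma coe_eq_coe_iff (a b : ℝ) : ((a : UnitAddCircle) = b) ↔ ∃ k : ℤ, a = b + k := by
  rw [← sub_eq_zero, ← AddCircle.coe_sub, AddCircle.coe_eq_zero_iff]
  constructor
  · rintro ⟨n, hn⟩
    refine ⟨n, ?_⟩
    simp at hn; linarith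
  · rintro ⟨n, hn⟩
    refine ⟨n, ?_⟩
    simp; linarith

lemma proj_eq_iff {d : ℕ} (x y : Euc d) : proj x = proj y ↔ ∃ k : Fin d → ℤ, x = y + zvec k := by
  constructor
  · intro h
    have h2 : ∀ i, ∃ k : ℤ, x i = y i + k := by
      intro i
      have := congrFun h i
      exact (coe_eq_coe_iff _ _).mp this
    choose k hk using h2
    refine ⟨k, ?_⟩
    ext i
    simp [hk i]
  · rintro ⟨k, rfl⟩
    funext i
    simp only [proj]
    exact (coe_eq_coe_iff _ _).mpr ⟨k i, by simp⟩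

lemma proj_add_zvec {d : ℕ} (x : Euc d) (k : Fin d → ℤ) : proj (x + zvec k) = proj x :=
  (proj_eq_iff _ _).mpr ⟨k, rfl⟩

lemma rep_proj {d : ℕ} (x : Euc d) : ∃ k : Fin d → ℤ, rep (proj x) = x + zvec k :=
  (proj_eq_iff _ _).mp (proj_rep _)

lemma proj_surjective {d : ℕ} : Function.Surjective (proj : Euc d → Torus d) :=
  fun θ => ⟨rep θ, proj_rep θ⟩

lemma proj_isOpenQuotientMap {d : ℕ} : IsOpenQuotientMap (proj : Euc d → Torus d) := by
  refine ⟨proj_surjective, proj_continuous, ?_⟩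
  have h1 : IsOpenMap (fun x : Fin d → ℝ => fun i => ((x i : ℝ) : UnitAddCircle)) := by
    have := IsOpenMap.piMap (f := fun (_ : Fin d) => ((↑) : ℝ → UnitAddCircle))
      (fun i => QuotientAddGroup.isOpenMap_coe) (by
        simp only [eventually_cofinite]
        exact Set.toFinite _)
    exact this
  have h2 : (proj : Euc d → Torus d) =
      (fun x : Fin d → ℝ => fun i => ((x i : ℝ) : UnitAddCircle)) ∘ (WithLp.ofLp) := rfl
  rw [h2]
  exact h1.comp (PiLp.homeomorph 2 (fun _ : Fin d => ℝ)).isOpenMap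

/-- descend a periodic continuous map to the torus -/
def descend {d : ℕ} {Y : Type*} [TopologicalSpace Y] (h : Euc d → Y) (hc : Continuous h)
    (hper : ∀ x k, h (x + zvec k) = h x) : C(Torus d, Y) :=
  ⟨fun θ => h (rep θ), by
    rw [proj_isOpenQuotientMap.isQuotientMap.continuous_iff]
    have : (fun θ => h (rep θ)) ∘ (proj : Euc d → Torus d) = h := by
      funext x
      obtain ⟨k, hk⟩ := rep_proj x
      simp only [Function.comp_apply, hk, hper]
    rw [this]; exact hc⟩

lemma descend_proj {d : ℕ} {Y : Type*} [TopologicalSpace Y] (h : Euc d → Y) (hc : Continuous h)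
    (hper : ∀ x k, h (x + zvec k) = h x) (x : Euc d) : descend h hc hper (proj x) = h x := by
  obtain ⟨k, hk⟩ := rep_proj x
  simp only [descend, ContinuousMap.coe_mk, hk, hper]

lemma descend_apply {d : ℕ} {Y : Type*} [TopologicalSpace Y] (h : Euc d → Y) (hc : Continuous h)
    (hper : ∀ x k, h (x + zvec k) = h x) (θ : Torus d) : descend h hc hper θ = h (rep θ) := rfl

/-- compact fundamental domain -/
def cube (d : ℕ) : Set (Euc d) := {x | ∀ i, x i ∈ Icc (0:ℝ) 1}

lemma isCompact_cube (d : ℕ) : IsCompact (cube d) := by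
  have h1 : IsCompact (Set.pi univ (fun _ : Fin d => Icc (0:ℝ) 1)) :=
    isCompact_univ_pi fun _ => isCompact_Icc
  have h2 : cube d = (PiLp.homeomorph 2 (fun _ : Fin d => ℝ)) ⁻¹' (Set.pi univ (fun _ : Fin d => Icc (0:ℝ) 1)) := by
    ext x
    simp only [cube, mem_preimage, mem_univ_pi]
    rfl
  rw [h2]
  exact (PiLp.homeomorph 2 (fun _ : Fin d => ℝ)).isCompact_preimage.mpr h1

lemma rep_mem_cube {d : ℕ} (θ : Torus d) : rep θ ∈ cube d := by
  intro i
  simp only [rep]
  have := (AddCircle.equivIco (1 : ℝ) 0 (θ i)).2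
  simp only [zero_add] at this
  exact ⟨this.1, this.2.le⟩

/-- periodic continuous families are bounded -/
lemma bounded_family {d : ℕ} {Y : Type*} [NormedAddCommGroup Y] {h : ℝ → Euc d → Y}
    (hc : Continuous (fun z : ℝ × Euc d => h z.1 z.2))
    (hper : ∀ t x k, h t (x + zvec k) = h t x) :
    ∃ C : ℝ, ∀ t ∈ Icc (-1:ℝ) 1, ∀ x, ‖h t x‖ ≤ C := by
  have hcomp : IsCompact (Icc (-1:ℝ) 1 ×ˢ cube d) := isCompact_Icc.prod (isCompact_cube d)
  obtain ⟨C, hC⟩ := hcomp.exists_bound_of_continuousOn hc.continuousOn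
  refine ⟨C, fun t ht x => ?_⟩
  obtain ⟨k, hk⟩ := rep_proj x
  have h1 := hC (t, rep (proj x)) ⟨ht, rep_mem_cube _⟩
  simp only [hk, hper] at h1
  exact h1

lemma bounded_periodic {d : ℕ} {Y : Type*} [NormedAddCommGroup Y] {h : Euc d → Y}
    (hc : Continuous h) (hper : ∀ x k, h (x + zvec k) = h x) :
    ∃ C : ℝ, ∀ x, ‖h x‖ ≤ C := by
  obtain ⟨C, hC⟩ := bounded_family (h := fun _ => h) (hc.comp continuous_snd)
    (fun _ x k => hper x k)
  exact ⟨C, fun x => hC 0 (by simp) x⟩

lemma fderiv_periodic {d : ℕ} {Y : Type*} [NormedAddCommGroup Y] [NormedSpace ℝ Y] {h : Euc d → Y}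
    {v : Euc d} {y : Y} (hv : ∀ x, h (x + v) = h x + y) (x : Euc d) :
    fderiv ℝ h (x + v) = fderiv ℝ h x := by
  rw [← fderiv_comp_add_right]
  have : (fun x => h (x + v)) = fun x => h x + y := funext hv
  rw [this, fderiv_add_const]

end

end Pool.Agent.H14.Lyap
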