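import Pool.Agent.H14.LyapFinal

open MeasureTheory Set ContDiff

namespace Pool.Agent.H14.NonSmoothExponentOld

open Pool.Agent.H14.Lyap

/-- There is a `C^∞` family of `C^∞` diffeomorphisms of the torus `T^5`, each with a dominated
splitting (whose first bundle is a line bundle) and all preserving one Borel probability measure
`μ`, such that the integrated Lyapunov exponent of the first bundle is not a `C^∞` function of
the parameter. -/
theorem result : ∃ (μ : Measure (Torus 5)) (F : ℝ → Euc 5 → Euc 5)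
    (P : ℝ → Torus 5 → Euc 5 →L[ℝ] Euc 5),
    IsProbabilityMeasure μ ∧ IsDominatedFamily proj rep μ F P ∧
    ¬ ContDiffOn ℝ ∞ (fun t => integratedExponent rep μ (F t) (P t)) (Ioo (-1) 1) := by
  obtain ⟨a⟩ := exists_par
  classical
  let P : ℝ → Torus 5 → Euc 5 →L[ℝ] Euc 5 := fun t =>
    if h : t ∈ Icc (-1 : ℝ) 1 then (a.D t h).S.P else fun _ => 0
  have hP : ∀ (t : ℝ) (h : t ∈ Icc (-1 : ℝ) 1), P t = (a.D t h).S.P := fun t h => by
    simp only [P, dif_pos h]
  refine ⟨muM, a.F, P, muM_prob, ⟨a.F_joint, fun t ht => ?_⟩, fun hsm => ?_⟩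
  · have h : t ∈ Icc (-1 : ℝ) 1 := Ioo_subset_Icc_self ht
    rw [hP t h]
    refine ⟨(a.D t h).isTorusDiffeo, (a.D t h).isDominatedSplitting, fun θ => ?_,
      measurePreserving a h⟩
    have h1 : (((a.D t h).S.P θ).range) = Submodule.span ℝ {(a.D t h).S.e θ} := range_P a h θ
    rw [h1]
    exact finrank_span_singleton ((a.D t h).S.e_ne θ)
  · apply GG_not_smooth a
    refine hsm.congr fun t ht => ?_
    have h : t ∈ Icc (-1 : ℝ) 1 := Ioo_subset_Icc_self ht
    rw [hP t h, exponent_eq a h]

end Pool.Agent.H14.NonSmoothExponentOld
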